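import Mathlib
import Pool.Agent.Y902.FB.Par
import Pool.Agent.Y902.FB.Ftc

/-!
# The surface `u x ^ l + v y ^ m + w z ^ n = 0`: parametrisations modulo `q ^ r`
-/

set_option autoImplicit false

namespace Pool.Agent.Y902.FD

open Finset MvPolynomial Pool.Agent.Y902.FB

/-- the polynomial `u x ^ l + v y ^ m + w z ^ n` -/
noncomputable def FQ (u : Fin 3 → ℤ) (e : Fin 3 → ℕ) : MvPolynomial (Fin 3) ℤ :=
  C (u 0) * X 0 ^ e 0 + C (u 1) * X 1 ^ e 1 + C (u 2) * X 2 ^ e 2

theorem eval_FQ (u : Fin 3 → ℤ) (e : Fin 3 → ℕ) (t : Fin 3 → ℤ) :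
    eval t (FQ u e) = u 0 * t 0 ^ e 0 + u 1 * t 1 ^ e 1 + u 2 * t 2 ^ e 2 := by
  simp [FQ]

/-- the derivatives of `FQ` up to the exponents -/
def fv (u : Fin 3 → ℤ) (e : Fin 3 → ℕ) (t : Fin 3 → ℤ) (i : Fin 3) : ℤ := u i * t i ^ (e i - 1)

theorem pd_fv (u : Fin 3 → ℤ) (e : Fin 3 → ℕ) (t : Fin 3 → ℤ) (i : Fin 3) :
    eval t (pderiv i (FQ u e)) = e i * fv u e t i := by
  unfold FQ fv
  simp only [map_add, pderiv_C_mul]
  fin_cases i
  · simp only [Fin.zero_eta]
    rw [pderiv_X_pow', pderiv_X_pow_ne (by decide), pderiv_X_pow_ne (by decide)]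
    simp
    ring
  · simp only [Fin.mk_one]
    rw [pderiv_X_pow', pderiv_X_pow_ne (by decide), pderiv_X_pow_ne (by decide)]
    simp
    ring
  · simp only [Fin.reduceFinMk]
    rw [pderiv_X_pow', pderiv_X_pow_ne (by decide), pderiv_X_pow_ne (by decide)]
    simp
    ring

/-- the surface near a point -/
theorem surf {q : ℕ} (hq : q.Prime) (u : Fin 3 → ℤ) (e : Fin 3 → ℕ) (P : Fin 3 → ℤ)
    (h2 : ¬ (q : ℤ) ∣ (e 2 : ℤ) * fv u e P 2) (r : ℕ) :
    ∃ p : Fin 3 → MvPolynomial (Fin 2) ℤ, ∀ t : Fin 3 → ℤ, (∀ i, (q : ℤ) ∣ t i - P i) →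
      eval t (FQ u e) = 0 →
      ∀ i, (q : ℤ) ^ r ∣ t i - eval (fun x => t (![0, 1] x) - P (![0, 1] x)) (p i) := by
  obtain ⟨ν, hν⟩ := exists_inv hq (a := eval P (pderiv 2 (FQ u e))) (by rw [pd_fv]; exact h2)
  have g1 : ∀ a, a ∉ Set.range (![0, 1] : Fin 2 → Fin 3) → ∀ b,
      b ∉ Set.range (![0, 1] : Fin 2 → Fin 3) →
      (q : ℤ) ∣ (∑ _s : Unit, (if a = 2 then ν else 0) * eval P (pderiv b (FQ u e))) -
        if a = b then 1 else 0 := by
    have hr : ∀ a : Fin 3, a ∉ Set.range (![0, 1] : Fin 2 → Fin 3) → a = 2 := by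
      intro a ha
      fin_cases a
      · exact absurd ⟨0, rfl⟩ ha
      · exact absurd ⟨1, rfl⟩ ha
      · rfl
    intro a ha b hb
    rw [hr a ha, hr b hb]
    simpa using hν
  have g2 : ∀ a ∈ Set.range (![0, 1] : Fin 2 → Fin 3), ∀ _s : Unit,
      (if a = 2 then ν else 0) = 0 := by
    rintro a ⟨x, rfl⟩ s
    fin_cases x <;> simp
  obtain ⟨p, -, hp⟩ := newton (S := Unit) (q : ℤ) (fun _ => FQ u e) (fun i _ => if i = 2 then ν else 0)
    (![0, 1] : Fin 2 → Fin 3) P r g1 g2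
  exact ⟨p, fun t ht hF i => hp t ht (fun _ => by rw [hF]; exact dvd_zero _) i⟩

/-- two surfaces near a point where one of the minors is a unit -/
theorem curve_minor {q : ℕ} (hq : q.Prime) (F H : MvPolynomial (Fin 3) ℤ) (P : Fin 3 → ℤ)
    {a b c : Fin 3} (hab : a ≠ b) (hac : a ≠ c) (hbc : b ≠ c)
    (hΔ : ¬ (q : ℤ) ∣ (eval P (pderiv a F) * eval P (pderiv c H) -
        eval P (pderiv c F) * eval P (pderiv a H))) (r : ℕ) :
    ∃ p : Fin 3 → MvPolynomial (Fin 1) ℤ, p b = C (P b) + X 0 ∧ ∀ t : Fin 3 → ℤ,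
      (∀ i, (q : ℤ) ∣ t i - P i) → eval t F = 0 → eval t H = 0 →
      ∀ i, (q : ℤ) ^ r ∣ t i - eval (fun _ => t b - P b) (p i) := by
  obtain ⟨ν, hν⟩ := exists_inv hq hΔ
  set m : Fin 3 → Bool → ℤ := fun i s =>
    if i = a then (if s then ν * eval P (pderiv c H) else -(ν * eval P (pderiv c F)))
      else if i = c then (if s then -(ν * eval P (pderiv a H)) else ν * eval P (pderiv a F))
      else 0 with hm
  have h2a : c ≠ a := Ne.symm hac
  have g1 : ∀ x, x ∉ Set.range (fun _ : Fin 1 => b) → ∀ d, d ∉ Set.range (fun _ : Fin 1 => b) →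
      (q : ℤ) ∣ (∑ s, m x s * eval P (pderiv d (if s then F else H))) -
        if x = d then 1 else 0 := by
    have hr : ∀ x : Fin 3, x ∉ Set.range (fun _ : Fin 1 => b) → x = a ∨ x = c := by
      intro x hx
      have hxb : x ≠ b := fun h => hx ⟨0, h.symm⟩
      clear * - hxb hab hac hbc
      revert x a b c
      decide
    intro x hcr d hdr
    rcases hr x hcr with hca | hca <;> rcases hr d hdr with hda | hda
    · rw [hca, hda, if_pos rfl]
      have e1 : ∑ s, m a s * eval P (pderiv a (if s then F else H)) - 1 =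
          ν * (eval P (pderiv a F) * eval P (pderiv c H) -
            eval P (pderiv c F) * eval P (pderiv a H)) - 1 := by
        simp only [hm, if_true, Fintype.sum_bool, Bool.false_eq_true, if_false]
        ring
      rw [e1]; exact hν
    · rw [hca, hda, if_neg hac]
      have e1 : ∑ s, m a s * eval P (pderiv c (if s then F else H)) - 0 = 0 := by
        simp only [hm, if_true, Fintype.sum_bool, Bool.false_eq_true, if_false]
        ring
      rw [e1]; exact dvd_zero _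
    · rw [hca, hda, if_neg h2a]
      have e1 : ∑ s, m c s * eval P (pderiv a (if s then F else H)) - 0 = 0 := by
        simp only [hm, if_true, Fintype.sum_bool, Bool.false_eq_true, if_false, if_neg h2a]
        ring
      rw [e1]; exact dvd_zero _
    · rw [hca, hda, if_pos rfl]
      have e1 : ∑ s, m c s * eval P (pderiv c (if s then F else H)) - 1 =
          ν * (eval P (pderiv a F) * eval P (pderiv c H) -
            eval P (pderiv c F) * eval P (pderiv a H)) - 1 := by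
        simp only [hm, if_true, Fintype.sum_bool, Bool.false_eq_true, if_false, if_neg h2a]
        ring
      rw [e1]; exact hν
  have g2 : ∀ x ∈ Set.range (fun _ : Fin 1 => b), ∀ s : Bool, m x s = 0 := by
    rintro x ⟨y, rfl⟩ s
    simp [hm, hab.symm, hbc]
  obtain ⟨p, hpk, hp⟩ := newton (S := Bool) (q : ℤ) (fun s => if s then F else H) m
    (fun _ : Fin 1 => b) P r g1 g2
  refine ⟨p, ?_, fun t ht hF hH i => hp t ht (fun s => ?_) i⟩
  · obtain ⟨x, hx1, hx2⟩ := hpk b ⟨0, rfl⟩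
    rw [Subsingleton.elim x 0] at hx2
    exact hx2
  cases s
  · simp [hH]
  · simp [hF]

/-- the curve cut out by another polynomial, near a point where the intersection is transversal -/
theorem curve {q : ℕ} (hq : q.Prime) (u : Fin 3 → ℤ) (e : Fin 3 → ℕ) (he : ∀ i, 1 ≤ e i)
    (H : MvPolynomial (Fin 3) ℤ) (P : Fin 3 → ℤ)
    (hFP : eval P (FQ u e) = 0)
    (h2 : ¬ (q : ℤ) ∣ (e 2 : ℤ) * fv u e P 2) (hE : ¬ (q : ℤ) ∣ eval P (EU e H)) :
    ∃ k : Fin 1 → Fin 3, ∀ r : ℕ, ∃ p : Fin 3 → MvPolynomial (Fin 1) ℤ,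
      p (k 0) = C (P (k 0)) + X 0 ∧ ∀ t : Fin 3 → ℤ,
      (∀ i, (q : ℤ) ∣ t i - P i) → eval t (FQ u e) = 0 → eval t H = 0 →
      ∀ i, (q : ℤ) ^ r ∣ t i - eval (fun x => t (k x) - P (k x)) (p i) := by
  -- the minors
  have hqp : Prime (q : ℤ) := Nat.prime_iff_prime_int.1 hq
  have hmin : ∃ a b : Fin 3, a ≠ b ∧ a ≠ 2 ∧ b ≠ 2 ∧
      ¬ (q : ℤ) ∣ (eval P (pderiv a (FQ u e)) * eval P (pderiv 2 H) -
        eval P (pderiv 2 (FQ u e)) * eval P (pderiv a H)) := by
    by_contra hcon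
    push Not at hcon
    have h0 := hcon 0 1 (by decide) (by decide) (by decide)
    have h1 := hcon 1 0 (by decide) (by decide) (by decide)
    have hid : eval P (pderiv 2 (FQ u e)) * eval P (EU e H) =
        -((e 1 * e 2 : ℤ) * P 0 * (eval P (pderiv 0 (FQ u e)) * eval P (pderiv 2 H) -
        eval P (pderiv 2 (FQ u e)) * eval P (pderiv 0 H))) -
        (e 0 * e 2 : ℤ) * P 1 * (eval P (pderiv 1 (FQ u e)) * eval P (pderiv 2 H) -
        eval P (pderiv 2 (FQ u e)) * eval P (pderiv 1 H)) := by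
      rw [eval_EU, pd_fv, pd_fv, pd_fv]
      have g : ∀ i, P i ^ (e i) = P i * P i ^ (e i - 1) := by
        intro i
        rw [← pow_succ']
        congr 1
        have := he i
        omega
      rw [eval_FQ, g 0, g 1, g 2] at hFP
      simp only [fv]
      linear_combination (e 0 * e 1 * e 2 : ℤ) * eval P (pderiv 2 H) * hFP
    have h3 : (q : ℤ) ∣ eval P (pderiv 2 (FQ u e)) * eval P (EU e H) := by
      rw [hid]
      exact dvd_sub ((dvd_neg).2 (Dvd.dvd.mul_left h0 _)) (Dvd.dvd.mul_left h1 _)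
    rcases hqp.dvd_or_dvd h3 with h | h
    · rw [pd_fv] at h; exact h2 h
    · exact hE h
  obtain ⟨a, b, hab, ha2, hb2, hΔ⟩ := hmin
  refine ⟨fun _ => b, fun r => ?_⟩
  exact curve_minor hq (FQ u e) H P hab ha2 hb2 hΔ r

end Pool.Agent.Y902.FD
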