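import Mathlib
import Pool.Agent.Y902.FD.Param

/-!
# Auxiliary polynomials and tangent vectors, with coefficients
-/

set_option autoImplicit false

namespace Pool.Agent.Y902.FD

open Finset MvPolynomial Pool.Agent.Y902.FB

theorem surf_aux {q ρ D Y : ℕ} (hq : q.Prime) (u : Fin 3 → ℤ) (e : Fin 3 → ℕ) (P : Fin 3 → ℤ)
    (h2 : ¬ (q : ℤ) ∣ (e 2 : ℤ) * fv u e P 2) (Ω : Set (Fin 3 → ℤ)) (hY : 1 ≤ Y)
    (hΩ : ∀ t ∈ Ω, (∀ i, (q : ℤ) ∣ t i - P i) ∧ eval t (FQ u e) = 0 ∧ ∀ i, |t i| ≤ (Y : ℤ))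
    (hρ : 8 * ρ ^ 2 ≤ (D + 1) ^ 3) (hbig : (D + 1) ^ 3 * Y ^ (3 * D) < q ^ ρ) :
    ∃ c : (Fin 3 → Fin (D + 1)) → ℤ, c ≠ 0 ∧ (∀ a, |c a| ≤ ((q ^ ρ : ℕ) : ℤ)) ∧
      ∀ t ∈ Ω, ∑ a, c a * ∏ i, t i ^ (a i : ℕ) = 0 := by
  obtain ⟨p, hp⟩ := surf hq u e P h2 (2 * ρ)
  have hcardM : Fintype.card (Fin 3 → Fin (D + 1)) = (D + 1) ^ 3 := by
    rw [Fintype.card_fun, Fintype.card_fin, Fintype.card_fin]
  obtain ⟨c, hc0, hc1, hc2⟩ := aux_vanish (M := Fin 3 → Fin (D + 1)) q ρ (Y ^ (3 * D)) hq.two_le P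
    (![0, 1] : Fin 2 → Fin 3) p Ω (fun t ht => (hΩ t ht).1)
    (fun t ht => hp t (hΩ t ht).1 (hΩ t ht).2.1) (fun a => mono a)
    (by
      rw [hcardM, Fintype.card_fin]
      calc (2 * ρ) ^ (2 + 1) = ρ * (8 * ρ ^ 2) := by ring
        _ ≤ _ := Nat.mul_le_mul_left _ hρ)
    (fun t ht a => by
      rw [eval_mono, Finset.abs_prod]
      calc ∏ i, |t i ^ (a i : ℕ)| ≤ ∏ _i : Fin 3, ((Y ^ D : ℕ) : ℤ) :=
            Finset.prod_le_prod (fun i _ => abs_nonneg _)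
              fun i _ => abs_pow_le_pow ((hΩ t ht).2.2 i) hY (by have := (a i).2; omega)
        _ = ((Y ^ (3 * D) : ℕ) : ℤ) := by
            rw [Finset.prod_const, Finset.card_univ, Fintype.card_fin]
            push_cast
            ring)
    (by rw [hcardM]; exact hbig)
  refine ⟨c, hc0, hc1, fun t ht => ?_⟩
  have := hc2 t ht
  simpa only [eval_mono] using this

theorem curve_aux {q ρ D Y : ℕ} (hq : q.Prime) (u : Fin 3 → ℤ) (e : Fin 3 → ℕ) (he : ∀ i, 1 ≤ e i)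
    (H : MvPolynomial (Fin 3) ℤ) (P : Fin 3 → ℤ) (hFP : eval P (FQ u e) = 0)
    (h2 : ¬ (q : ℤ) ∣ (e 2 : ℤ) * fv u e P 2) (hE : ¬ (q : ℤ) ∣ eval P (EU e H))
    (Ω : Set (Fin 3 → ℤ)) (hY : 1 ≤ Y)
    (hΩ : ∀ t ∈ Ω, (∀ i, (q : ℤ) ∣ t i - P i) ∧ eval t (FQ u e) = 0 ∧ eval t H = 0 ∧
      ∀ i, |t i| ≤ (Y : ℤ))
    (hρ : 4 * ρ ≤ (D + 1) ^ 2) (hbig : (D + 1) ^ 2 * Y ^ (2 * D) < q ^ ρ) (i j : Fin 3) :
    RelOn Ω i j D ((q ^ ρ : ℕ) : ℤ) := by
  obtain ⟨k, hk⟩ := curve hq u e he H P hFP h2 hE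
  obtain ⟨p, -, hp⟩ := hk (2 * ρ)
  have hcardM : Fintype.card (Fin 2 → Fin (D + 1)) = (D + 1) ^ 2 := by
    rw [Fintype.card_fun, Fintype.card_fin, Fintype.card_fin]
  obtain ⟨c, hc0, hc1, hc2⟩ := aux_vanish (M := Fin 2 → Fin (D + 1)) q ρ (Y ^ (2 * D)) hq.two_le P
    k p Ω (fun t ht => (hΩ t ht).1)
    (fun t ht => hp t (hΩ t ht).1 (hΩ t ht).2.1 (hΩ t ht).2.2.1) (fun a => mono2 i j a)
    (by
      rw [hcardM, Fintype.card_fin]
      calc (2 * ρ) ^ (1 + 1) = ρ * (4 * ρ) := by ring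
        _ ≤ _ := Nat.mul_le_mul_left _ hρ)
    (fun t ht a => by
      simp only [mono2, map_mul, map_pow, eval_X]
      rw [abs_mul]
      calc |t i ^ (a 0 : ℕ)| * |t j ^ (a 1 : ℕ)| ≤ ((Y ^ D : ℕ) : ℤ) * ((Y ^ D : ℕ) : ℤ) :=
            mul_le_mul (abs_pow_le_pow ((hΩ t ht).2.2.2 i) hY (by have := (a 0).2; omega))
              (abs_pow_le_pow ((hΩ t ht).2.2.2 j) hY (by have := (a 1).2; omega))
              (abs_nonneg _) (by positivity)
        _ = ((Y ^ (2 * D) : ℕ) : ℤ) := by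
            push_cast
            ring)
    (by rw [hcardM]; exact hbig)
  refine ⟨c, hc0, hc1, fun t ht => ?_⟩
  have := hc2 t ht
  simpa only [mono2, map_mul, map_pow, eval_X] using this

/-- **Tangent vectors.** -/
theorem tangent {q : ℕ} (hq : q.Prime) (u : Fin 3 → ℤ) (e : Fin 3 → ℕ) (he : ∀ i, 1 ≤ e i)
    (H : MvPolynomial (Fin 3) ℤ) (P : Fin 3 → ℤ)
    (hFP : eval P (FQ u e) = 0)
    (h2 : ¬ (q : ℤ) ∣ (e 2 : ℤ) * fv u e P 2) (hE : ¬ (q : ℤ) ∣ eval P (EU e H))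
    (T : Finset (Fin 3 → ℤ)) (hT : ∀ t ∈ T, (∀ i, (q : ℤ) ∣ t i - P i) ∧ eval t (FQ u e) = 0 ∧
      eval t H = 0) (t : Fin 3 → ℤ) (ht : t ∈ T) :
    ∃ (v : Fin 3 → ℤ) (κ : Fin 3), v κ = 1 ∧ ∀ G : MvPolynomial (Fin 3) ℤ,
      (∀ t' ∈ T, eval t' G = 0) → (q : ℤ) ^ (T.card - 1) ∣ ∑ i, eval t (pderiv i G) * v i := by
  classical
  obtain ⟨k, hk⟩ := curve hq u e he H P hFP h2 hE
  -- the parameters
  set f : (Fin 3 → ℤ) → ℤ := fun t => t (k 0) - P (k 0) with hf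
  have hU : ∀ u ∈ T.image f, (q : ℤ) ∣ u := by
    intro u hu
    obtain ⟨t', ht', rfl⟩ := Finset.mem_image.1 hu
    exact (hT t' ht').1 (k 0)
  obtain ⟨R, hR⟩ := der_dvd hq (T.image f) hU
  -- the points are determined by the parameter
  set M : ℕ := ∑ t ∈ T, ∑ i, (t i).natAbs with hM
  have hMt : ∀ t' ∈ T, ∀ i, (t' i).natAbs ≤ M := by
    intro t' ht' i
    calc (t' i).natAbs ≤ ∑ i, (t' i).natAbs :=
          Finset.single_le_sum (f := fun i => (t' i).natAbs) (fun _ _ => Nat.zero_le _)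
            (Finset.mem_univ i)
      _ ≤ M := Finset.single_le_sum (f := fun t : Fin 3 → ℤ => ∑ i, (t i).natAbs)
            (fun _ _ => Nat.zero_le _) ht'
  have hinj : Set.InjOn f (T : Set (Fin 3 → ℤ)) := by
    intro t₁ h₁ t₂ h₂ h12
    obtain ⟨p, -, hp⟩ := hk (2 * M)
    have g₁ := hp t₁ (hT t₁ h₁).1 (hT t₁ h₁).2.1 (hT t₁ h₁).2.2
    have g₂ := hp t₂ (hT t₂ h₂).1 (hT t₂ h₂).2.1 (hT t₂ h₂).2.2
    have hkk : (fun x => t₁ (k x) - P (k x)) = fun x => t₂ (k x) - P (k x) := by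
      funext x
      rw [Subsingleton.elim x 0]
      exact h12
    funext i
    have g₃ := dvd_sub (g₁ i) (g₂ i)
    rw [hkk] at g₃
    have e1 : t₁ i - eval (fun x => t₂ (k x) - P (k x)) (p i) -
        (t₂ i - eval (fun x => t₂ (k x) - P (k x)) (p i)) = t₁ i - t₂ i := by ring
    rw [e1] at g₃
    have g₄ : t₁ i - t₂ i = 0 := by
      refine Int.eq_zero_of_abs_lt_dvd g₃ ?_
      have a₁ := hMt t₁ h₁ i
      have a₂ := hMt t₂ h₂ i
      have a₃ : 2 * M < q ^ (2 * M) := Nat.lt_pow_self hq.one_lt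
      have a₄ : |t₁ i - t₂ i| ≤ 2 * M := by
        have := abs_sub (t₁ i) (t₂ i)
        have b₁ : |t₁ i| ≤ M := by rw [Int.abs_eq_natAbs]; exact_mod_cast a₁
        have b₂ : |t₂ i| ≤ M := by rw [Int.abs_eq_natAbs]; exact_mod_cast a₂
        linarith
      calc |t₁ i - t₂ i| ≤ 2 * M := a₄
        _ < (q : ℤ) ^ (2 * M) := by exact_mod_cast a₃
    linarith
  have hcard : (T.image f).card = T.card := Finset.card_image_of_injOn hinj
  obtain ⟨p, hpk, hp⟩ := hk (R + (T.card - 1))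
  -- univariate polynomials
  set P₁ : Fin 3 → Polynomial ℤ := fun i => MvPolynomial.aeval (fun _ => Polynomial.X) (p i)
    with hP₁
  have hP₁e : ∀ i (u : ℤ), (P₁ i).eval u = eval (fun _ => u) (p i) := by
    intro i u
    simp only [hP₁]
    induction p i using MvPolynomial.induction_on with
    | C a => simp
    | add f g hf hg => simp [hf, hg]
    | mul_X f i hf => simp [hf]
  have hcomp : ∀ (G : MvPolynomial (Fin 3) ℤ) (u : ℤ), (MvPolynomial.aeval P₁ G).eval u =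
      eval (fun i => (P₁ i).eval u) G := by
    intro G u
    induction G using MvPolynomial.induction_on with
    | C a => simp
    | add f g hf hg => simp [hf, hg]
    | mul_X f i hf => simp [hf]
  have hclose : ∀ t' ∈ T, ∀ i, (q : ℤ) ^ (R + (T.card - 1)) ∣ (P₁ i).eval (f t') - t' i := by
    intro t' ht' i
    have h3 := hp t' (hT t' ht').1 (hT t' ht').2.1 (hT t' ht').2.2 i
    rw [hP₁e]
    have e1 : (fun x : Fin 1 => t' (k x) - P (k x)) = fun _ => f t' := by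
      funext x
      rw [Subsingleton.elim x 0]
    rw [e1] at h3
    rw [dvd_sub_comm]
    exact h3
  refine ⟨fun i => (Polynomial.derivative (P₁ i)).eval (f t), k 0, ?_, fun G hG => ?_⟩
  · simp only [hP₁, hpk, map_add, aeval_X]
    simp
  · have h3 : ∀ u ∈ T.image f, (q : ℤ) ^ R ∣ (MvPolynomial.aeval P₁ G).eval u := by
      intro u hu
      obtain ⟨t', ht', rfl⟩ := Finset.mem_image.1 hu
      rw [hcomp]
      have h4 := eval_congr_dvd ((q : ℤ) ^ R) G (fun i => (P₁ i).eval (f t')) t'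
        (fun i => (pow_dvd_pow _ (by omega)).trans (hclose t' ht' i))
      rwa [hG t' ht', sub_zero] at h4
    have h5 := hR _ h3 (f t) (Finset.mem_image_of_mem f ht)
    rw [hcard, chain, Polynomial.eval_finsetSum] at h5
    have h6 : (q : ℤ) ^ (T.card - 1) ∣
        ∑ i, (eval t (pderiv i G) - eval (fun i => (P₁ i).eval (f t)) (pderiv i G)) *
          (Polynomial.derivative (P₁ i)).eval (f t) := by
      refine Finset.dvd_sum fun i _ => Dvd.dvd.mul_right ?_ _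
      rw [dvd_sub_comm]
      exact eval_congr_dvd _ _ _ _ fun i => (pow_dvd_pow _ (by omega)).trans (hclose t ht i)
    have h7 := dvd_add h6 h5
    have e1 : ∑ i, (eval t (pderiv i G) - eval (fun i => (P₁ i).eval (f t)) (pderiv i G)) *
          (Polynomial.derivative (P₁ i)).eval (f t) +
        ∑ i, Polynomial.eval (f t) (MvPolynomial.aeval P₁ (pderiv i G) *
          Polynomial.derivative (P₁ i)) =
        ∑ i, eval t (pderiv i G) * (Polynomial.derivative (P₁ i)).eval (f t) := by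
      rw [← Finset.sum_add_distrib]
      refine Finset.sum_congr rfl fun i _ => ?_
      rw [Polynomial.eval_mul, hcomp]
      ring
    rw [e1] at h7
    exact h7

end Pool.Agent.Y902.FD
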