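import Mathlib
import Pool.Agent.Y902.FD.Tan

/-!
# The count on a residue class of a curve, with coefficients
-/

set_option autoImplicit false

namespace Pool.Agent.Y902.FD

open Finset MvPolynomial Pool.Agent.Y902.FB

theorem fv_sum (u : Fin 3 → ℤ) (e : Fin 3 → ℕ) (he : ∀ i, 1 ≤ e i) (t : Fin 3 → ℤ)
    (h : eval t (FQ u e) = 0) {i j k : Fin 3} (hij : i ≠ j) (hik : i ≠ k) (hjk : j ≠ k) :
    t i * fv u e t i + t j * fv u e t j + t k * fv u e t k = 0 := by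
  rw [← sum3 hij hik hjk (fun x => t x * fv u e t x), Fin.sum_univ_three]
  have g : ∀ i, t i ^ (e i) = t i * t i ^ (e i - 1) := by
    intro i
    rw [← pow_succ']
    congr 1
    have := he i
    omega
  rw [eval_FQ, g 0, g 1, g 2] at h
  simp only [fv]
  linarith

theorem fv_abs (u : Fin 3 → ℤ) (e : Fin 3 → ℕ) (t : Fin 3 → ℤ) (i : Fin 3) :
    |fv u e t i| = |u i| * |t i| ^ (e i - 1) := by
  rw [fv, abs_mul, abs_pow]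

theorem fv_ge (u : Fin 3 → ℤ) (hu : ∀ i, u i ≠ 0) (e : Fin 3 → ℕ) (t : Fin 3 → ℤ) (i : Fin 3) :
    |t i| ^ (e i - 1) ≤ |fv u e t i| := by
  rw [fv_abs]
  exact le_mul_of_one_le_left (pow_nonneg (abs_nonneg _) _) (Int.one_le_abs (hu i))

theorem fv_co (u : Fin 3 → ℤ) (e : Fin 3 → ℕ) (t : Fin 3 → ℤ) {i j : Fin 3}
    (h : IsCoprime (u i * t i) (u j * t j)) : IsCoprime (fv u e t i) (fv u e t j) := by
  have h1 : ∀ i, fv u e t i ∣ (u i * t i) ^ (e i - 1 + 1) := by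
    intro i
    rw [fv, mul_pow, pow_succ, pow_succ]
    exact ⟨u i ^ (e i - 1) * t i, by ring⟩
  exact (h.pow (m := e i - 1 + 1) (n := e j - 1 + 1)).of_isCoprime_of_dvd_left (h1 i)
    |>.of_isCoprime_of_dvd_right (h1 j)

/-- **One cell**: at most `N₀` points -/
theorem cell {q : ℕ} (hq : q.Prime) (u : Fin 3 → ℤ) (e : Fin 3 → ℕ) (he : ∀ i, 1 ≤ e i) (hu : ∀ i, u i ≠ 0)
    (H : MvPolynomial (Fin 3) ℤ) (P : Fin 3 → ℤ)
    (hFP : eval P (FQ u e) = 0)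
    (h2 : ¬ (q : ℤ) ∣ (e 2 : ℤ) * fv u e P 2) (hE : ¬ (q : ℤ) ∣ eval P (EU e H))
    {i j k : Fin 3} (hij : i ≠ j) (hik : i ≠ k) (hjk : j ≠ k)
    {D : ℕ} (c d : (Fin 2 → Fin (D + 1)) → ℤ) (s₁ s₂ : ℕ) (L LG Z N₀ : ℕ)
    (T : Finset (Fin 3 → ℤ)) (hT : ∀ t ∈ T, ((∀ i, (q : ℤ) ∣ t i - P i) ∧ eval t (FQ u e) = 0 ∧
      eval t H = 0 ∧ (∀ i, t i ≠ 0) ∧ (∀ i j, i ≠ j → IsCoprime (u i * t i) (u j * t j)) ∧
      eval t (EU e H) ≠ 0) ∧ eval t (HQ i j c s₁) = 0 ∧ eval t (HQ i j c (s₁ + 1)) ≠ 0 ∧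
      eval t (HQ i k d s₂) = 0 ∧ eval t (HQ i k d (s₂ + 1)) ≠ 0 ∧
      (∀ κ, |eval t (pderiv κ (HQ i j c s₁))| ≤ L) ∧ (∀ κ, |eval t (pderiv κ (HQ i k d s₂))| ≤ L) ∧
      (∀ κ, |eval t (pderiv κ (FQ u e))| ≤ LG) ∧ (∀ κ, |eval t (pderiv κ H)| ≤ LG) ∧
      (∀ κ, (e κ : ℤ) * L ^ 2 * |t κ| ≤ Z) ∧
      (∀ κ κ', (e κ : ℤ) * L ^ 2 * |t κ'| ≤ Z) ∧ 2 * (Z : ℤ) < |t i| ^ (e i - 1))
    (hN : 3 * (LG * L ^ 2) < q ^ N₀) : T.card ≤ N₀ := by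
  by_contra hcon
  push Not at hcon
  obtain ⟨t, ht⟩ : T.Nonempty := Finset.card_pos.1 (by omega)
  obtain ⟨v, κ, hvκ, hv⟩ := tangent hq u e he H P hFP h2 hE T
    (fun t ht => ⟨(hT t ht).1.1, (hT t ht).1.2.1, (hT t ht).1.2.2.1⟩) t ht
  obtain ⟨⟨-, hF, hH0, ht0, hco, hEU⟩, hh, hhj, hg, hgk, hLh, hLg, hLF, hLH, -, hZ, hbig⟩ := hT t ht
  have hpow : (q : ℤ) ^ N₀ ∣ (q : ℤ) ^ (T.card - 1) := pow_dvd_pow _ (by omega)
  have hvF := hpow.trans (hv (FQ u e) fun t ht => (hT t ht).1.2.1)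
  have hvH := hpow.trans (hv H fun t ht => (hT t ht).1.2.2.1)
  have hvh := hpow.trans (hv (HQ i j c s₁) fun t ht => (hT t ht).2.1)
  have hvg := hpow.trans (hv (HQ i k d s₂) fun t ht => (hT t ht).2.2.2.1)
  rw [sum3 hij hik hjk] at hvF hvH hvh hvg
  rw [pd_HQ_k hik hjk, zero_mul, add_zero] at hvh
  rw [pd_HQ_k hij (Ne.symm hjk), zero_mul, add_zero] at hvg
  have hv1 : v i = 1 ∨ v j = 1 ∨ v k = 1 := by
    have h3 : κ = i ∨ κ = j ∨ κ = k := by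
      revert hij hik hjk
      clear * -
      revert i j k κ
      decide
    rcases h3 with h | h | h
    · left; rw [← h]; exact hvκ
    · right; left; rw [← h]; exact hvκ
    · right; right; rw [← h]; exact hvκ
  set hi := eval t (pderiv i (HQ i j c s₁)) with hhi
  set hjj := eval t (pderiv j (HQ i j c s₁)) with hhjj
  set gi := eval t (pderiv i (HQ i k d s₂)) with hgi
  set gk := eval t (pderiv k (HQ i k d s₂)) with hgkk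
  have hj0 : hjj ≠ 0 := by
    intro h
    apply hhj
    rw [← pd_HQ_j hij, ← hhjj, h, mul_zero]
  have gk0 : gk ≠ 0 := by
    intro h
    apply hgk
    rw [← pd_HQ_j hik, ← hgkk, h, mul_zero]
  have hprod : ∀ x y : ℤ, |x| ≤ L → |y| ≤ L → |x * y| ≤ (L : ℤ) ^ 2 := by
    intro x y hx hy
    rw [abs_mul, sq]
    exact mul_le_mul hx hy (abs_nonneg _) (by positivity)
  have hzero : ∀ Gi Gj Gk : ℤ, |Gi| ≤ LG → |Gj| ≤ LG → |Gk| ≤ LG →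
      (q : ℤ) ^ N₀ ∣ Gi * v i + Gj * v j + Gk * v k →
      Gi * (hjj * gk) + Gj * (-(hi * gk)) + Gk * (-(hjj * gi)) = 0 := by
    intro Gi Gj Gk b1 b2 b3 hdv
    have h3 := mixed_dvd hdv hvh hvg hv1
    refine Int.eq_zero_of_abs_lt_dvd h3 ?_
    have c1 : |Gi * (hjj * gk)| ≤ LG * (L : ℤ) ^ 2 := by
      rw [abs_mul]
      exact mul_le_mul b1 (hprod _ _ (hLh j) (hLg k)) (abs_nonneg _) (by positivity)
    have c2 : |Gj * (-(hi * gk))| ≤ LG * (L : ℤ) ^ 2 := by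
      rw [abs_mul, abs_neg]
      exact mul_le_mul b2 (hprod _ _ (hLh i) (hLg k)) (abs_nonneg _) (by positivity)
    have c3 : |Gk * (-(hjj * gi))| ≤ LG * (L : ℤ) ^ 2 := by
      rw [abs_mul, abs_neg]
      exact mul_le_mul b3 (hprod _ _ (hLh j) (hLg i)) (abs_nonneg _) (by positivity)
    have c4 := abs_add_three (Gi * (hjj * gk)) (Gj * (-(hi * gk))) (Gk * (-(hjj * gi)))
    have c5 : (3 : ℤ) * (LG * (L : ℤ) ^ 2) < (q : ℤ) ^ N₀ := by exact_mod_cast hN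
    linarith
  have hXF := hzero _ _ _ (hLF i) (hLF j) (hLF k) hvF
  have hXH := hzero _ _ _ (hLH i) (hLH j) (hLH k) hvH
  rw [pd_fv, pd_fv, pd_fv] at hXF
  apply hEU
  rw [eval_EU_perm e H t hij hik hjk]
  have hfi : fv u e t i ≠ 0 := mul_ne_zero (hu i) (pow_ne_zero _ (ht0 i))
  refine alg_key (wi := hjj * gk) (wj := -(hi * gk)) (wk := -(hjj * gi))
    (by have := he i; positivity) (ht0 k) (mul_ne_zero hj0 gk0) hfi
    (fv_co u e t (hco i j hij)) (fv_sum u e he t hF hij hik hjk) (by linarith) ?_ (by linarith)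
  refine lt_of_lt_of_le ?_ (fv_ge u hu e t i)
  have d1 : |(e j : ℤ) * -(hi * gk) * t k| ≤ Z := by
    rw [abs_mul, abs_mul, abs_neg, abs_of_nonneg (by positivity : (0 : ℤ) ≤ (e j : ℤ))]
    exact (mul_le_mul_of_nonneg_right (mul_le_mul_of_nonneg_left
      (hprod _ _ (hLh i) (hLg k)) (by positivity)) (abs_nonneg _)).trans (hZ j k)
  have d2 : |(e k : ℤ) * -(hjj * gi) * t j| ≤ Z := by
    rw [abs_mul, abs_mul, abs_neg, abs_of_nonneg (by positivity : (0 : ℤ) ≤ (e k : ℤ))]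
    exact (mul_le_mul_of_nonneg_right (mul_le_mul_of_nonneg_left
      (hprod _ _ (hLh j) (hLg i)) (by positivity)) (abs_nonneg _)).trans (hZ k j)
  have d3 := abs_sub ((e j : ℤ) * -(hi * gk) * t k) ((e k : ℤ) * -(hjj * gi) * t j)
  linarith

/-- one coordinate -/
theorem onclass {q : ℕ} (hq : q.Prime) (u : Fin 3 → ℤ) (e : Fin 3 → ℕ) (he : ∀ i, 1 ≤ e i) (hu : ∀ i, u i ≠ 0)
    (H : MvPolynomial (Fin 3) ℤ) (P : Fin 3 → ℤ) (hFP : eval P (FQ u e) = 0)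
    (h2 : ¬ (q : ℤ) ∣ (e 2 : ℤ) * fv u e P 2) (hE : ¬ (q : ℤ) ∣ eval P (EU e H))
    (D B Y LG Z N₀ : ℕ) (hY : 1 ≤ Y) (Ω : Finset (Fin 3 → ℤ))
    (hΩ : ∀ t ∈ Ω, (∀ i, (q : ℤ) ∣ t i - P i) ∧ eval t (FQ u e) = 0 ∧ eval t H = 0 ∧
      (∀ i, t i ≠ 0) ∧ (∀ i, |t i| ≤ (Y : ℤ)) ∧ ∀ i j, i ≠ j → IsCoprime (u i * t i) (u j * t j))
    (hrel : ∀ i j, RelOn (Ω : Set (Fin 3 → ℤ)) i j D (B : ℤ))
    (hLF : ∀ t ∈ Ω, ∀ κ, |eval t (pderiv κ (FQ u e))| ≤ (LG : ℤ))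
    (hLH : ∀ t ∈ Ω, ∀ κ, |eval t (pderiv κ H)| ≤ (LG : ℤ))
    (hZ : ∀ κ, e κ * Lb D B Y ^ 2 * Y ≤ Z)
    (hN : 3 * (LG * Lb D B Y ^ 2) < q ^ N₀) (i : Fin 3) :
    ∃ R : Finset ℤ, R.card ≤ 2 * D ∧
      (Ω.filter fun t => t i ∉ R ∧ 2 * (Z : ℤ) < |t i| ^ (e i - 1)).card ≤ (D + 1) ^ 2 * N₀ := by
  classical
  obtain ⟨j, k, hij, hik, hjk⟩ : ∃ j k : Fin 3, i ≠ j ∧ i ≠ k ∧ j ≠ k := by
    clear * -
    revert i
    decide
  obtain ⟨c, hc0, hcB, hc⟩ := hrel i j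
  obtain ⟨d, hd0, hdB, hd⟩ := hrel i k
  obtain ⟨R₁, hR₁, h₁⟩ := dich2 i j c hc0
  obtain ⟨R₂, hR₂, h₂⟩ := dich2 i k d hd0
  refine ⟨R₁ ∪ R₂, (Finset.card_union_le _ _).trans (by omega), ?_⟩
  set Ω' := Ω.filter fun t => t i ∉ R₁ ∪ R₂ ∧ 2 * (Z : ℤ) < |t i| ^ (e i - 1) with hΩ'
  set T : ℕ × ℕ → Finset (Fin 3 → ℤ) := fun s => Ω'.filter fun t =>
    eval t (HQ i j c s.1) = 0 ∧ eval t (HQ i j c (s.1 + 1)) ≠ 0 ∧
      eval t (HQ i k d s.2) = 0 ∧ eval t (HQ i k d (s.2 + 1)) ≠ 0 with hTdef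
  have hcover : Ω' ⊆ (Finset.range (D + 1) ×ˢ Finset.range (D + 1)).biUnion T := by
    intro t ht
    have ht' := Finset.mem_filter.1 ht
    have htΩ := hΩ t ht'.1
    have hnot : t i ∉ R₁ ∧ t i ∉ R₂ := by
      have := ht'.2.1
      rw [Finset.mem_union, not_or] at this
      exact this
    obtain ⟨s₁, hs₁, g₁, g₂⟩ := h₁ t htΩ.2.2.2.1 (hc t ht'.1) hnot.1
    obtain ⟨s₂, hs₂, g₃, g₄⟩ := h₂ t htΩ.2.2.2.1 (hd t ht'.1) hnot.2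
    rw [Finset.mem_biUnion]
    refine ⟨(s₁, s₂), ?_, ?_⟩
    · rw [Finset.mem_product, Finset.mem_range, Finset.mem_range]
      exact ⟨hs₁, hs₂⟩
    · rw [hTdef, Finset.mem_filter]
      exact ⟨ht, g₁, g₂, g₃, g₄⟩
  refine (Finset.card_le_card hcover).trans ?_
  refine (Finset.card_biUnion_le_card_mul _ _ N₀ fun s hs => ?_).trans ?_
  swap
  · rw [Finset.card_product, Finset.card_range, sq]
  rw [Finset.mem_product, Finset.mem_range, Finset.mem_range] at hs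
  refine cell hq u e he hu H P hFP h2 hE hij hik hjk c d s.1 s.2 (Lb D B Y) LG Z N₀ (T s) ?_ hN
  intro t ht
  rw [hTdef, Finset.mem_filter] at ht
  obtain ⟨ht1, g₁, g₂, g₃, g₄⟩ := ht
  rw [hΩ', Finset.mem_filter] at ht1
  obtain ⟨htΩ, -, hbig⟩ := ht1
  obtain ⟨k1, k2, k3, k4, k5, k6⟩ := hΩ t htΩ
  have hEU : eval t (EU e H) ≠ 0 := by
    intro h0
    apply hE
    have h3 := eval_congr_dvd (q : ℤ) (EU e H) t P k1
    rw [h0, zero_sub, dvd_neg] at h3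
    exact h3
  have hZ' : ∀ κ κ' : Fin 3, (e κ : ℤ) * ((Lb D B Y : ℕ) : ℤ) ^ 2 * |t κ'| ≤ Z := by
    intro κ κ'
    have h3 : (e κ : ℤ) * ((Lb D B Y : ℕ) : ℤ) ^ 2 * |t κ'| ≤
        (e κ : ℤ) * ((Lb D B Y : ℕ) : ℤ) ^ 2 * Y :=
      mul_le_mul_of_nonneg_left (k5 κ') (by positivity)
    exact h3.trans (by exact_mod_cast hZ κ)
  refine ⟨⟨k1, k2, k3, k4, k6, hEU⟩, g₁, g₂, g₃, g₄, ?_, ?_, hLF t htΩ, hLH t htΩ,
    fun κ => hZ' κ κ, hZ', hbig⟩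
  · exact fun κ => HQ_bd hY hij c hcB s.1 (by omega) t k4 k5 κ
  · exact fun κ => HQ_bd hY hik d hdB s.2 (by omega) t k4 k5 κ

/-- two coordinates determine the third -/
theorem third (u : Fin 3 → ℤ) (e : Fin 3 → ℕ) (he : ∀ i, 1 ≤ e i) (hu : ∀ i, u i ≠ 0)
    {i j : Fin 3} (hij : i ≠ j) {t t' : Fin 3 → ℤ}
    (h : eval t (FQ u e) = 0) (h' : eval t' (FQ u e) = 0) (ht : ∀ i, 0 < t i) (ht' : ∀ i, 0 < t' i)
    (hi : t i = t' i) (hj : t j = t' j) : t = t' := by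
  rw [eval_FQ] at h h'
  have key : ∀ k, u k * t k ^ e k = u k * t' k ^ e k → t k = t' k := by
    intro k hk
    have h0 : e k ≠ 0 := by have := he k; omega
    exact (pow_left_inj₀ (ht k).le (ht' k).le h0).1 (mul_left_cancel₀ (hu k) hk)
  have h01 : t 0 = t' 0 → t 1 = t' 1 → t = t' := by
    intro a b
    funext k
    fin_cases k
    · exact a
    · exact b
    · have g : u 2 * t 2 ^ e 2 = u 2 * t' 2 ^ e 2 := by rw [a, b] at h; linarith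
      exact key 2 g
  have h02 : t 0 = t' 0 → t 2 = t' 2 → t = t' := by
    intro a b
    funext k
    fin_cases k
    · exact a
    · have g : u 1 * t 1 ^ e 1 = u 1 * t' 1 ^ e 1 := by rw [a, b] at h; linarith
      exact key 1 g
    · exact b
  have h12 : t 1 = t' 1 → t 2 = t' 2 → t = t' := by
    intro a b
    funext k
    fin_cases k
    · have g : u 0 * t 0 ^ e 0 = u 0 * t' 0 ^ e 0 := by rw [a, b] at h; linarith
      exact key 0 g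
    · exact a
    · exact b
  fin_cases i <;> fin_cases j <;> simp at hij hi hj
  · exact h01 hi hj
  · exact h02 hi hj
  · exact h01 hj hi
  · exact h12 hi hj
  · exact h02 hj hi
  · exact h12 hj hi

/-- few points when two of the coordinates are in small sets -/
theorem card_two (u : Fin 3 → ℤ) (e : Fin 3 → ℕ) (he : ∀ i, 1 ≤ e i) (hu : ∀ i, u i ≠ 0) {i j : Fin 3} (hij : i ≠ j)
    (T : Finset (Fin 3 → ℤ)) (S₁ S₂ : Finset ℤ)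
    (hT : ∀ t ∈ T, eval t (FQ u e) = 0 ∧ (∀ i, 0 < t i) ∧ t i ∈ S₁ ∧ t j ∈ S₂) :
    T.card ≤ S₁.card * S₂.card := by
  classical
  have hinj : Set.InjOn (fun t : Fin 3 → ℤ => (t i, t j)) (T : Set (Fin 3 → ℤ)) := by
    intro t ht t' ht' heq
    simp only [Prod.mk.injEq] at heq
    exact third u e he hu hij (hT t ht).1 (hT t' ht').1 (hT t ht).2.1 (hT t' ht').2.1 heq.1 heq.2
  rw [← Finset.card_image_of_injOn hinj, ← Finset.card_product]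
  refine Finset.card_le_card fun z hz => ?_
  obtain ⟨t, ht, rfl⟩ := Finset.mem_image.1 hz
  rw [Finset.mem_product]
  exact ⟨(hT t ht).2.2.1, (hT t ht).2.2.2⟩

/-- **The count on a residue class.** -/
theorem onclass2 {q : ℕ} (hq : q.Prime) (u : Fin 3 → ℤ) (e : Fin 3 → ℕ) (he : ∀ i, 1 ≤ e i) (hu : ∀ i, u i ≠ 0)
    (H : MvPolynomial (Fin 3) ℤ) (P : Fin 3 → ℤ) (hFP : eval P (FQ u e) = 0)
    (h2 : ¬ (q : ℤ) ∣ (e 2 : ℤ) * fv u e P 2) (hE : ¬ (q : ℤ) ∣ eval P (EU e H))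
    (D B Y LG Z N₀ R y₀ : ℕ) (hY : 1 ≤ Y) (Ω : Finset (Fin 3 → ℤ))
    (hΩ : ∀ t ∈ Ω, (∀ i, (q : ℤ) ∣ t i - P i) ∧ eval t (FQ u e) = 0 ∧ eval t H = 0 ∧
      (∀ i, 0 < t i) ∧ (∀ i, |t i| ≤ (Y : ℤ)) ∧ ∀ i j, i ≠ j → IsCoprime (u i * t i) (u j * t j))
    (hrel : ∀ i j, RelOn (Ω : Set (Fin 3 → ℤ)) i j D (B : ℤ))
    (hLF : ∀ t ∈ Ω, ∀ κ, |eval t (pderiv κ (FQ u e))| ≤ (LG : ℤ))
    (hLH : ∀ t ∈ Ω, ∀ κ, |eval t (pderiv κ H)| ≤ (LG : ℤ))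
    (hZ : ∀ κ, e κ * Lb D B Y ^ 2 * Y ≤ Z)
    (hN : 3 * (LG * Lb D B Y ^ 2) < q ^ N₀) {i j : Fin 3} (hij : i ≠ j)
    (hi : R + 1 ≤ e i) (hj : R + 1 ≤ e j) (hy : 2 * Z < (y₀ + 1) ^ R) :
    Ω.card ≤ 2 * ((D + 1) ^ 2 * N₀) + (2 * D + y₀) ^ 2 := by
  classical
  have hΩ' : ∀ t ∈ Ω, (∀ i, (q : ℤ) ∣ t i - P i) ∧ eval t (FQ u e) = 0 ∧ eval t H = 0 ∧
      (∀ i, t i ≠ 0) ∧ (∀ i, |t i| ≤ (Y : ℤ)) ∧ ∀ i j, i ≠ j → IsCoprime (u i * t i) (u j * t j) := by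
    intro t ht
    obtain ⟨a, b, c, d, f, g⟩ := hΩ t ht
    exact ⟨a, b, c, fun i => (d i).ne', f, g⟩
  obtain ⟨R₁, hR₁, h₁⟩ := onclass hq u e he hu H P hFP h2 hE D B Y LG Z N₀ hY Ω hΩ' hrel hLF hLH hZ hN i
  obtain ⟨R₂, hR₂, h₂⟩ := onclass hq u e he hu H P hFP h2 hE D B Y LG Z N₀ hY Ω hΩ' hrel hLF hLH hZ hN j
  set S₁ : Finset ℤ := R₁ ∪ Finset.Icc 1 (y₀ : ℤ) with hS₁
  set S₂ : Finset ℤ := R₂ ∪ Finset.Icc 1 (y₀ : ℤ) with hS₂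
  have hcS : ∀ R' : Finset ℤ, R'.card ≤ 2 * D → (R' ∪ Finset.Icc 1 (y₀ : ℤ)).card ≤ 2 * D + y₀ := by
    intro R' hR'
    refine (Finset.card_union_le _ _).trans ?_
    rw [Int.card_Icc]
    simp
    exact hR'
  have hmem : ∀ (κ : Fin 3) (R' : Finset ℤ), R + 1 ≤ e κ → ∀ t ∈ Ω,
      ¬ (t κ ∉ R' ∧ 2 * (Z : ℤ) < |t κ| ^ (e κ - 1)) → t κ ∈ R' ∪ Finset.Icc 1 (y₀ : ℤ) := by
    intro κ R' hκ t ht hnot
    rw [Finset.mem_union]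
    by_contra hcon
    push Not at hcon
    apply hnot
    refine ⟨hcon.1, ?_⟩
    have hpos := (hΩ t ht).2.2.2.1 κ
    have h3 : (y₀ : ℤ) + 1 ≤ t κ := by
      by_contra h4
      apply hcon.2
      rw [Finset.mem_Icc]
      omega
    have h4 : ((y₀ : ℤ) + 1) ^ R ≤ |t κ| ^ (e κ - 1) := by
      rw [abs_of_pos hpos]
      calc ((y₀ : ℤ) + 1) ^ R ≤ (t κ) ^ R := pow_le_pow_left₀ (by positivity) h3 R
        _ ≤ (t κ) ^ (e κ - 1) := pow_le_pow_right₀ (by omega) (by omega)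
    have h5 : (2 : ℤ) * Z < ((y₀ : ℤ) + 1) ^ R := by exact_mod_cast hy
    linarith
  set G₁ := Ω.filter fun t => t i ∉ R₁ ∧ 2 * (Z : ℤ) < |t i| ^ (e i - 1) with hG₁
  set G₂ := Ω.filter fun t => t j ∉ R₂ ∧ 2 * (Z : ℤ) < |t j| ^ (e j - 1) with hG₂
  set G₃ := Ω.filter fun t => t i ∈ S₁ ∧ t j ∈ S₂ with hG₃
  have hcover : Ω ⊆ (G₁ ∪ G₂) ∪ G₃ := by
    intro t ht
    by_cases a1 : t i ∉ R₁ ∧ 2 * (Z : ℤ) < |t i| ^ (e i - 1)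
    · exact Finset.mem_union_left _ (Finset.mem_union_left _ (Finset.mem_filter.2 ⟨ht, a1⟩))
    · by_cases a2 : t j ∉ R₂ ∧ 2 * (Z : ℤ) < |t j| ^ (e j - 1)
      · exact Finset.mem_union_left _ (Finset.mem_union_right _ (Finset.mem_filter.2 ⟨ht, a2⟩))
      · exact Finset.mem_union_right _ (Finset.mem_filter.2 ⟨ht, hmem i R₁ hi t ht a1,
          hmem j R₂ hj t ht a2⟩)
  have h₃ : G₃.card ≤ (2 * D + y₀) ^ 2 := by
    refine (card_two u e he hu hij G₃ S₁ S₂ fun t ht => ?_).trans ?_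
    · have ht' := Finset.mem_filter.1 ht
      exact ⟨(hΩ t ht'.1).2.1, (hΩ t ht'.1).2.2.2.1, ht'.2.1, ht'.2.2⟩
    · rw [sq]
      exact Nat.mul_le_mul (hcS R₁ hR₁) (hcS R₂ hR₂)
  have h₄ := Finset.card_le_card hcover
  have h₅ := Finset.card_union_le (G₁ ∪ G₂) G₃
  have h₆ := Finset.card_union_le G₁ G₂
  omega

end Pool.Agent.Y902.FD
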