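import Mathlib
import Pool.Agent.Y902.FD.Cnt

/-!
# Homogeneous auxiliary polynomials on the plane curve `u x ^ n + v y ^ n + w z ^ n = 0`
-/

set_option autoImplicit false

namespace Pool.Agent.Y902.FD

open Finset MvPolynomial Pool.Agent.Y902.FB

/-- value of the polynomial with given coefficients -/
def Ph {D : ℕ} (c : (Fin 3 → Fin (D + 1)) → ℤ) (t : Fin 3 → ℤ) : ℤ :=
  ∑ a, c a * ∏ j, t j ^ (a j : ℕ)

/-- the polynomial -/
noncomputable def Gp {D : ℕ} (c : (Fin 3 → Fin (D + 1)) → ℤ) : MvPolynomial (Fin 3) ℤ :=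
  ∑ a, C (c a) * mono a

/-- logarithmic derivative -/
def Th {D : ℕ} (κ : Fin 3) (c : (Fin 3 → Fin (D + 1)) → ℤ) : (Fin 3 → Fin (D + 1)) → ℤ :=
  fun a => (a κ : ℕ) * c a

theorem eval_Gp {D : ℕ} (c : (Fin 3 → Fin (D + 1)) → ℤ) (t : Fin 3 → ℤ) :
    eval t (Gp c) = Ph c t := by
  unfold Gp Ph
  rw [map_sum]
  exact Finset.sum_congr rfl fun a _ => by rw [map_mul, eval_C, eval_mono]

theorem pd_Gp {D : ℕ} (c : (Fin 3 → Fin (D + 1)) → ℤ) (t : Fin 3 → ℤ) (κ : Fin 3) :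
    t κ * eval t (pderiv κ (Gp c)) = Ph (Th κ c) t := by
  unfold Gp Ph Th
  rw [map_sum, map_sum, Finset.mul_sum]
  refine Finset.sum_congr rfl fun a _ => ?_
  rw [pderiv_C_mul, map_mul, eval_C]
  linear_combination (c a) * pd_mono a t κ

/-- homogeneous of degree `ω` -/
def Hom {D : ℕ} (c : (Fin 3 → Fin (D + 1)) → ℤ) (ω : ℕ) : Prop :=
  ∀ a, c a ≠ 0 → (a 0 : ℕ) + (a 1 : ℕ) + (a 2 : ℕ) = ω

theorem Ph_scale {D : ℕ} {c : (Fin 3 → Fin (D + 1)) → ℤ} {ω : ℕ} (h : Hom c ω) (s : ℤ)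
    (t : Fin 3 → ℤ) : Ph c (fun i => s * t i) = s ^ ω * Ph c t := by
  unfold Ph
  rw [Finset.mul_sum]
  refine Finset.sum_congr rfl fun a _ => ?_
  by_cases ha : c a = 0
  · rw [ha]; ring
  · rw [Fin.prod_univ_three, Fin.prod_univ_three, ← h a ha, mul_pow, mul_pow, mul_pow]
    ring

theorem Hom.Th {D : ℕ} {c : (Fin 3 → Fin (D + 1)) → ℤ} {ω : ℕ} (h : Hom c ω) (κ : Fin 3) :
    Hom (Th κ c) ω := fun a ha => h a (fun h0 => ha (by simp [FD.Th, h0]))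

theorem Ph_euler {D : ℕ} {c : (Fin 3 → Fin (D + 1)) → ℤ} {ω : ℕ} (h : Hom c ω)
    (t : Fin 3 → ℤ) : Ph (Th 0 c) t + Ph (Th 1 c) t + Ph (Th 2 c) t = ω * Ph c t := by
  unfold Ph
  rw [Finset.mul_sum, ← Finset.sum_add_distrib, ← Finset.sum_add_distrib]
  refine Finset.sum_congr rfl fun a _ => ?_
  by_cases ha : c a = 0
  · simp [Th, ha]
  · have h1 := h a ha
    have h2 : ((a 0 : ℕ) : ℤ) + ((a 1 : ℕ) : ℤ) + ((a 2 : ℕ) : ℤ) = ω := by exact_mod_cast h1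
    simp only [Th]
    linear_combination (c a * ∏ j, t j ^ (a j : ℕ)) * h2

theorem Ph_bd {D B W : ℕ} (hW : 1 ≤ W) (c : (Fin 3 → Fin (D + 1)) → ℤ)
    (hc : ∀ a, |c a| ≤ (B : ℤ)) (t : Fin 3 → ℤ) (htW : ∀ i, |t i| ≤ (W : ℤ)) :
    |Ph c t| ≤ (((D + 1) ^ 3 * (B * W ^ (3 * D)) : ℕ) : ℤ) := by
  unfold Ph
  have hb := sum_bound (fun a => c a * ∏ j, t j ^ (a j : ℕ)) (B * W ^ (3 * D)) fun a => by
    rw [abs_mul, Finset.abs_prod]
    have h1 : ∏ i, |t i ^ (a i : ℕ)| ≤ ∏ _i : Fin 3, ((W ^ D : ℕ) : ℤ) :=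
      Finset.prod_le_prod (fun i _ => abs_nonneg _)
        fun i _ => abs_pow_le_pow (htW i) hW (by have := (a i).2; omega)
    have h2 : ∏ _i : Fin 3, ((W ^ D : ℕ) : ℤ) = ((W ^ (3 * D) : ℕ) : ℤ) := by
      rw [Finset.prod_const, Finset.card_univ, Fintype.card_fin]
      push_cast
      ring
    rw [h2] at h1
    push_cast at h1 ⊢
    exact mul_le_mul (hc a) h1 (Finset.prod_nonneg fun i _ => abs_nonneg _) (by positivity)
  rw [card3] at hb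
  exact hb

/-- the minor -/
def Mi {D : ℕ} (u : Fin 3 → ℤ) (n : ℕ) (c : (Fin 3 → Fin (D + 1)) → ℤ) (t : Fin 3 → ℤ) : ℤ :=
  u 0 * t 0 ^ n * Ph (Th 1 c) t - u 1 * t 1 ^ n * Ph (Th 0 c) t

/-- the minor vanishes: all logarithmic derivatives vanish -/
theorem all_zero {D n Zb y₀ ω : ℕ} (hn : 1 ≤ n) {u : Fin 3 → ℤ} (hu : ∀ i, u i ≠ 0)
    {c : (Fin 3 → Fin (D + 1)) → ℤ} (hω : Hom c ω) {t : Fin 3 → ℤ} (ht : ∀ i, 0 < t i)
    (hco : IsCoprime (u 0 * t 0) (u 1 * t 1)) (h0 : Ph c t = 0)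
    (hM : Mi u n c t = 0) (hb : ∀ κ, |Ph (Th κ c) t| ≤ (Zb : ℤ)) (hy : Zb < (y₀ + 1) ^ n)
    (hbig : (y₀ : ℤ) < t 0 ∨ (y₀ : ℤ) < t 1) : ∀ κ, Ph (Th κ c) t = 0 := by
  have hdv : ∀ i, u i * t i ^ n ∣ (u i * t i) ^ n := by
    intro i
    rw [mul_pow]
    exact mul_dvd_mul_right (dvd_pow_self _ (by omega)) _
  have hco' : IsCoprime (u 0 * t 0 ^ n) (u 1 * t 1 ^ n) :=
    ((hco.pow (m := n) (n := n)).of_isCoprime_of_dvd_left (hdv 0)).of_isCoprime_of_dvd_right (hdv 1)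
  have heq : u 0 * t 0 ^ n * Ph (Th 1 c) t = u 1 * t 1 ^ n * Ph (Th 0 c) t := by
    unfold Mi at hM; linarith
  have hne : ∀ i, u i * t i ^ n ≠ 0 := fun i => mul_ne_zero (hu i) (pow_ne_zero _ (ht i).ne')
  have hlarge : ∀ i, (y₀ : ℤ) < t i → (Zb : ℤ) < |u i * t i ^ n| := by
    intro i hi
    rw [abs_mul, abs_pow, abs_of_pos (ht i)]
    have h1 : ((y₀ : ℤ) + 1) ^ n ≤ t i ^ n := pow_le_pow_left₀ (by positivity) (by omega) n
    have h2 : (Zb : ℤ) < ((y₀ : ℤ) + 1) ^ n := by exact_mod_cast hy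
    have h3 : t i ^ n ≤ |u i| * t i ^ n :=
      le_mul_of_one_le_left (pow_nonneg (ht i).le _) (Int.one_le_abs (hu i))
    linarith
  have h01 : Ph (Th 0 c) t = 0 ∧ Ph (Th 1 c) t = 0 := by
    rcases hbig with h | h
    · have h1 : u 0 * t 0 ^ n ∣ u 1 * t 1 ^ n * Ph (Th 0 c) t := ⟨_, heq.symm⟩
      have h2 := hco'.dvd_of_dvd_mul_left h1
      have h3 : Ph (Th 0 c) t = 0 := by
        refine Int.eq_zero_of_abs_lt_dvd ((abs_dvd _ _).2 h2) ?_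
        exact lt_of_le_of_lt (hb 0) (hlarge 0 h)
      refine ⟨h3, ?_⟩
      rw [h3, mul_zero] at heq
      exact (mul_eq_zero.1 heq).resolve_left (hne 0)
    · have h1 : u 1 * t 1 ^ n ∣ u 0 * t 0 ^ n * Ph (Th 1 c) t := ⟨_, heq⟩
      have h2 := hco'.symm.dvd_of_dvd_mul_left h1
      have h3 : Ph (Th 1 c) t = 0 := by
        refine Int.eq_zero_of_abs_lt_dvd ((abs_dvd _ _).2 h2) ?_
        exact lt_of_le_of_lt (hb 1) (hlarge 1 h)
      refine ⟨?_, h3⟩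
      rw [h3, mul_zero] at heq
      exact (mul_eq_zero.1 heq.symm).resolve_left (hne 1)
  have h2 := Ph_euler hω t
  rw [h01.1, h01.2, h0] at h2
  intro κ
  fin_cases κ
  · exact h01.1
  · exact h01.2
  · simpa using h2

/-- the points where the minor is not divisible by `q` are determined by their residue classes -/
theorem hensel {D n ω : ℕ} {q : ℕ} (hq : q.Prime) (hn : 1 ≤ n) (hqn : ¬ q ∣ n) {u : Fin 3 → ℤ}
    (e : Fin 3 → ℕ) (he : ∀ i, e i = n)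
    {c : (Fin 3 → Fin (D + 1)) → ℤ} (hω : Hom c ω) {t P : Fin 3 → ℤ} (ht : ∀ i, 0 < t i)
    (hP : ∀ i, 0 < P i) (htP : ∀ i, (q : ℤ) ∣ t i - P i)
    (htco : ∀ i j, i ≠ j → IsCoprime (t i) (t j)) (hPco : ∀ i j, i ≠ j → IsCoprime (P i) (P j))
    (hF : eval t (FQ u e) = 0) (hFP : eval P (FQ u e) = 0) (hG : Ph c t = 0) (hGP : Ph c P = 0)
    (hM : ¬ (q : ℤ) ∣ Mi u n c P) (hP2 : ¬ (q : ℤ) ∣ P 2) : t = P := by
  have hqp : Prime (q : ℤ) := Nat.prime_iff_prime_int.1 hq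
  have ht2 : ¬ (q : ℤ) ∣ t 2 := by
    intro h
    apply hP2
    have := dvd_sub h (htP 2)
    simpa using this
  set t' : Fin 3 → ℤ := fun i => P 2 * t i with ht'
  set P' : Fin 3 → ℤ := fun i => t 2 * P i with hP'
  have hFs : ∀ (s : ℤ) (x : Fin 3 → ℤ), eval (fun i => s * x i) (FQ u e) = s ^ n * eval x (FQ u e) := by
    intro s x
    rw [eval_FQ, eval_FQ, he 0, he 1, he 2]
    ring
  have hFt' : eval t' (FQ u e) = 0 := by rw [ht', hFs, hF, mul_zero]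
  have hFP' : eval P' (FQ u e) = 0 := by rw [hP', hFs, hFP, mul_zero]
  have hGt' : eval t' (Gp c) = 0 := by rw [eval_Gp, ht', Ph_scale hω, hG, mul_zero]
  have hGP' : eval P' (Gp c) = 0 := by rw [eval_Gp, hP', Ph_scale hω, hGP, mul_zero]
  have hcong : ∀ i, (q : ℤ) ∣ t' i - P' i := by
    intro i
    have h1 : t' i - P' i = P 2 * (t i - P i) - (t 2 - P 2) * P i := by
      simp only [ht', hP']; ring
    rw [h1]
    exact dvd_sub (Dvd.dvd.mul_left (htP i) _) (Dvd.dvd.mul_right (htP 2) _)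
  -- the minor at `P'`
  have hΔ : ¬ (q : ℤ) ∣ (eval P' (pderiv 0 (FQ u e)) * eval P' (pderiv 1 (Gp c)) -
      eval P' (pderiv 1 (FQ u e)) * eval P' (pderiv 0 (Gp c))) := by
    intro h
    have h1 : P' 0 * P' 1 * (eval P' (pderiv 0 (FQ u e)) * eval P' (pderiv 1 (Gp c)) -
      eval P' (pderiv 1 (FQ u e)) * eval P' (pderiv 0 (Gp c))) =
        (n : ℤ) * (t 2 ^ (n + ω) * Mi u n c P) := by
      have g0 := pd_Gp c P' 0
      have g1 := pd_Gp c P' 1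
      have s0 : Ph (Th 0 c) P' = t 2 ^ ω * Ph (Th 0 c) P := by rw [hP', Ph_scale (hω.Th 0)]
      have s1 : Ph (Th 1 c) P' = t 2 ^ ω * Ph (Th 1 c) P := by rw [hP', Ph_scale (hω.Th 1)]
      rw [s0] at g0
      rw [s1] at g1
      have f0 : P' 0 * eval P' (pderiv 0 (FQ u e)) = n * (u 0 * (t 2 ^ n * P 0 ^ n)) := by
        rw [pd_fv, fv, he 0]
        have : P' 0 ^ n = P' 0 * P' 0 ^ (n - 1) := by rw [← pow_succ']; congr 1; omega
        have h2 : P' 0 ^ n = t 2 ^ n * P 0 ^ n := by simp only [hP']; rw [mul_pow]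
        linear_combination (-(n : ℤ) * u 0) * this + (n : ℤ) * u 0 * h2
      have f1 : P' 1 * eval P' (pderiv 1 (FQ u e)) = n * (u 1 * (t 2 ^ n * P 1 ^ n)) := by
        rw [pd_fv, fv, he 1]
        have : P' 1 ^ n = P' 1 * P' 1 ^ (n - 1) := by rw [← pow_succ']; congr 1; omega
        have h2 : P' 1 ^ n = t 2 ^ n * P 1 ^ n := by simp only [hP']; rw [mul_pow]
        linear_combination (-(n : ℤ) * u 1) * this + (n : ℤ) * u 1 * h2
      unfold Mi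
      calc P' 0 * P' 1 * (eval P' (pderiv 0 (FQ u e)) * eval P' (pderiv 1 (Gp c)) -
          eval P' (pderiv 1 (FQ u e)) * eval P' (pderiv 0 (Gp c))) =
          (P' 0 * eval P' (pderiv 0 (FQ u e))) * (P' 1 * eval P' (pderiv 1 (Gp c))) -
          (P' 1 * eval P' (pderiv 1 (FQ u e))) * (P' 0 * eval P' (pderiv 0 (Gp c))) := by ring
        _ = _ := by rw [f0, f1, g0, g1]; ring
    have h2 : (q : ℤ) ∣ (n : ℤ) * (t 2 ^ (n + ω) * Mi u n c P) := by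
      rw [← h1]; exact Dvd.dvd.mul_left h _
    rcases hqp.dvd_or_dvd h2 with h3 | h3
    · exact hqn (by exact_mod_cast h3)
    · rcases hqp.dvd_or_dvd h3 with h4 | h4
      · exact ht2 (hqp.dvd_of_dvd_pow h4)
      · exact hM h4
  have hkey : ∀ i, t' i = P' i := by
    intro i
    obtain ⟨r, hr⟩ : ∃ r : ℕ, |t' i - P' i| < (q : ℤ) ^ r := by
      refine ⟨(t' i - P' i).natAbs, ?_⟩
      rw [Int.abs_eq_natAbs]
      exact_mod_cast Nat.lt_pow_self hq.one_lt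
    obtain ⟨p, -, hp⟩ := curve_minor hq (FQ u e) (Gp c) P' (a := 0) (b := 2) (c := 1) (by decide)
      (by decide) (by decide) hΔ r
    have h1 := hp t' hcong hFt' hGt' i
    have h2 := hp P' (fun i => by simp) hFP' hGP' i
    have h3 : t' 2 = P' 2 := by simp only [ht', hP']; ring
    rw [h3] at h1
    have h4 := dvd_sub h1 h2
    rw [sub_sub_sub_cancel_right] at h4
    have := Int.eq_zero_of_abs_lt_dvd h4 hr
    linarith
  have h2 : t 2 = P 2 := by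
    have h0 := hkey 0
    simp only [ht', hP'] at h0
    have d1 : t 2 ∣ P 2 := by
      have : t 2 ∣ P 2 * t 0 := ⟨P 0, h0⟩
      exact (htco 2 0 (by decide)).dvd_of_dvd_mul_right this
    have d2 : P 2 ∣ t 2 := by
      have : P 2 ∣ t 2 * P 0 := ⟨t 0, h0.symm⟩
      exact (hPco 2 0 (by decide)).dvd_of_dvd_mul_right this
    exact le_antisymm (Int.le_of_dvd (hP 2) d1) (Int.le_of_dvd (ht 2) d2)
  funext i
  have hi := hkey i
  simp only [ht', hP'] at hi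
  rw [h2] at hi
  exact mul_left_cancel₀ (hP 2).ne' hi

end Pool.Agent.Y902.FD
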