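import Mathlib
import Pool.Agent.Y902.FD.Ft

/-!
# The number of points of a plane curve `u x ^ n + v y ^ n + w z ^ n = 0` on a curve of small degree
-/

set_option autoImplicit false

namespace Pool.Agent.Y902.FD

open Finset MvPolynomial Pool.Agent.Y902.FB

/-- the transversal points -/
theorem ft_trans {D n ω X X₁ U W Zb : ℕ} (hn : 1 ≤ n) {u : Fin 3 → ℤ}
    (hU : ∀ i, |u i| ≤ (U : ℤ)) (e : Fin 3 → ℕ) (he : ∀ i, e i = n) (Q : Finset ℕ)
    (hQ : ∀ q ∈ Q, q.Prime ∧ X ≤ q ∧ q ≤ X₁) (hnX : n < X)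
    (hbig : W * (2 * (U * W ^ n * Zb)) < X ^ Q.card)
    {c : (Fin 3 → Fin (D + 1)) → ℤ} (hω : Hom c ω) (S : Finset (Fin 3 → ℤ))
    (hS : ∀ t ∈ S, eval t (FQ u e) = 0 ∧ (∀ i, 0 < t i) ∧ (∀ i, |t i| ≤ (W : ℤ)) ∧
      (∀ i j, i ≠ j → IsCoprime (t i) (t j)) ∧ Ph c t = 0 ∧ Mi u n c t ≠ 0 ∧
      ∀ κ, |Ph (Th κ c) t| ≤ (Zb : ℤ)) : S.card ≤ Q.card * (1 * X₁ ^ 3) := by
  refine cover S Q X₁ 1 (fun q hq => ⟨(hQ q hq).1.pos, (hQ q hq).2.2⟩) (fun t => t 2 * Mi u n c t)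
    ?_ ?_
  · intro t ht
    obtain ⟨h1, h2, h3, h4, h5, h6, h7⟩ := hS t ht
    refine exists_prime_not_dvd Q (fun q hq => (hQ q hq).1) X (fun q hq => (hQ q hq).2.1) _
      (mul_ne_zero (h2 2).ne' h6) ?_
    have hterm : ∀ i κ, |u i * t i ^ n * Ph (Th κ c) t| ≤ (U : ℤ) * (W : ℤ) ^ n * Zb := by
      intro i κ
      rw [abs_mul, abs_mul, abs_pow]
      have k1 := hU i
      have k2 : |t i| ^ n ≤ (W : ℤ) ^ n := pow_le_pow_left₀ (abs_nonneg _) (h3 i) n
      have k3 := h7 κ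
      gcongr
    have hMi : |Mi u n c t| ≤ 2 * ((U : ℤ) * (W : ℤ) ^ n * Zb) := by
      unfold Mi
      have := abs_sub (u 0 * t 0 ^ n * Ph (Th 1 c) t) (u 1 * t 1 ^ n * Ph (Th 0 c) t)
      have a := hterm 0 1
      have b := hterm 1 0
      linarith
    rw [abs_mul]
    calc |t 2| * |Mi u n c t| ≤ (W : ℤ) * (2 * ((U : ℤ) * (W : ℤ) ^ n * Zb)) :=
          mul_le_mul (h3 2) hMi (abs_nonneg _) (by positivity)
      _ < (X : ℤ) ^ Q.card := by exact_mod_cast hbig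
  · intro q hq P hP hqP Ω hΩT hΩ
    have hqp := (hQ q hq).1
    have hqn : ¬ q ∣ n := by
      intro h
      have h1 := Nat.le_of_dvd (by omega) h
      have h2 := (hQ q hq).2.1
      omega
    have hP2 : ¬ (q : ℤ) ∣ P 2 := fun h => hqP (Dvd.dvd.mul_right h _)
    have hPM : ¬ (q : ℤ) ∣ Mi u n c P := fun h => hqP (Dvd.dvd.mul_left h _)
    obtain ⟨p1, p2, p3, p4, p5, p6, p7⟩ := hS P hP
    rw [Finset.card_le_one_iff_subset_singleton]
    refine ⟨P, fun t ht => ?_⟩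
    obtain ⟨h1, h2, h3, h4, h5, h6, h7⟩ := hS t (hΩT ht)
    rw [Finset.mem_singleton]
    exact hensel hqp hn hqn e he hω h2 p2 (hΩ t ht) h4 p4 h1 p1 h5 p5 hPM hP2

/-- the points on a homogeneous curve -/
theorem ft_chain {D n ω X X₁ U W Zb y₀ B K : ℕ} (hn : 1 ≤ n) (hW : 1 ≤ W) {u : Fin 3 → ℤ}
    (hu : ∀ i, u i ≠ 0)
    (hU : ∀ i, |u i| ≤ (U : ℤ)) (e : Fin 3 → ℕ) (he : ∀ i, e i = n) (Q : Finset ℕ)
    (hQ : ∀ q ∈ Q, q.Prime ∧ X ≤ q ∧ q ≤ X₁) (hnX : n < X)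
    (hbig : W * (2 * (U * W ^ n * Zb)) < X ^ Q.card)
    (hZb : (D + 1) ^ 3 * ((B * (D + 1) ^ K * (D + 1)) * W ^ (3 * D)) ≤ Zb)
    (hy : Zb < (y₀ + 1) ^ n) : ∀ m : ℕ, m ≤ K → ∀ c : (Fin 3 → Fin (D + 1)) → ℤ, c ≠ 0 →
    Hom c ω → (Finset.univ.filter fun a => c a ≠ 0).card ≤ m →
    (∀ a, |c a| ≤ ((B * (D + 1) ^ (K - m) : ℕ) : ℤ)) → ∀ S : Finset (Fin 3 → ℤ),
    (∀ t ∈ S, eval t (FQ u e) = 0 ∧ (∀ i, 0 < t i) ∧ (∀ i, |t i| ≤ (W : ℤ)) ∧
      (∀ i j, i ≠ j → IsCoprime (u i * t i) (u j * t j)) ∧ Ph c t = 0 ∧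
      ((y₀ : ℤ) < t 0 ∨ (y₀ : ℤ) < t 1)) → S.card ≤ m * (Q.card * (1 * X₁ ^ 3)) := by
  classical
  intro m
  induction m with
  | zero =>
    intro _ c hc0 _ hsupp _ S _
    exfalso
    apply hc0
    funext a
    by_contra ha
    have : (Finset.univ.filter fun a => c a ≠ 0).Nonempty := ⟨a, by simpa using ha⟩
    have := Finset.card_pos.2 this
    omega
  | succ m ih =>
    intro hmK c hc0 hω hsupp hcB S hS
    have hbd : ∀ κ, ∀ t ∈ S, |Ph (Th κ c) t| ≤ (Zb : ℤ) := by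
      intro κ t ht
      have h1 := Ph_bd (B := B * (D + 1) ^ K * (D + 1)) hW (Th κ c) (fun a => by
        unfold Th
        rw [abs_mul, Nat.abs_cast]
        have h2 : ((a κ : ℕ) : ℤ) ≤ ((D + 1 : ℕ) : ℤ) := by exact_mod_cast (a κ).2.le
        have h3 := hcB a
        have h4 : ((B * (D + 1) ^ (K - (m + 1)) : ℕ) : ℤ) ≤ ((B * (D + 1) ^ K : ℕ) : ℤ) := by
          have := Nat.mul_le_mul_left B (Nat.pow_le_pow_right (show 0 < D + 1 by omega)
            (show K - (m + 1) ≤ K by omega))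
          exact_mod_cast this
        calc ((a κ : ℕ) : ℤ) * |c a| ≤ ((D + 1 : ℕ) : ℤ) * ((B * (D + 1) ^ K : ℕ) : ℤ) :=
              mul_le_mul h2 (h3.trans h4) (abs_nonneg _) (by positivity)
          _ = _ := by push_cast; ring) t (hS t ht).2.2.1
      exact h1.trans (by exact_mod_cast hZb)
    have hco : ∀ t ∈ S, ∀ i j, i ≠ j → IsCoprime (t i) (t j) := fun t ht i j hij =>
      (((hS t ht).2.2.2.1 i j hij).of_mul_left_right).of_mul_right_right
    set S₁ := S.filter fun t => Mi u n c t ≠ 0 with hS₁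
    set S₂ := S.filter fun t => ¬ (Mi u n c t ≠ 0) with hS₂
    have hcard : S.card = S₁.card + S₂.card := (Finset.card_filter_add_card_filter_not _).symm
    have h₁ : S₁.card ≤ Q.card * (1 * X₁ ^ 3) := by
      refine ft_trans hn hU e he Q hQ hnX hbig hω S₁ fun t ht => ?_
      have ht' := Finset.mem_filter.1 ht
      obtain ⟨k1, k2, k3, k4, k5, k6⟩ := hS t ht'.1
      exact ⟨k1, k2, k3, hco t ht'.1, k5, ht'.2, fun κ => hbd κ t ht'.1⟩
    have h₂ : S₂.card ≤ m * (Q.card * (1 * X₁ ^ 3)) := by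
      rcases S₂.eq_empty_or_nonempty with hemp | ⟨t₀, ht₀⟩
      · rw [hemp]; simp
      have hz : ∀ t ∈ S₂, ∀ κ, Ph (Th κ c) t = 0 := by
        intro t ht
        have ht' := Finset.mem_filter.1 ht
        obtain ⟨k1, k2, k3, k4, k5, k6⟩ := hS t ht'.1
        exact all_zero hn hu hω k2 (k4 0 1 (by decide)) k5 (not_not.1 ht'.2)
          (fun κ => hbd κ t ht'.1) hy k6
      -- two monomials
      obtain ⟨a, ha⟩ : ∃ a, c a ≠ 0 := by
        by_contra h
        push Not at h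
        exact hc0 (funext h)
      obtain ⟨b, hb, hab⟩ : ∃ b, c b ≠ 0 ∧ b ≠ a := by
        by_contra h
        push Not at h
        have ht₀' := Finset.mem_filter.1 ht₀
        obtain ⟨k1, k2, k3, k4, k5, k6⟩ := hS t₀ ht₀'.1
        have h1 : Ph c t₀ = c a * ∏ j, t₀ j ^ (a j : ℕ) := by
          unfold Ph
          refine Finset.sum_eq_single a (fun b _ hba => ?_) (fun h => absurd (Finset.mem_univ _) h)
          have : c b = 0 := by
            by_contra hcb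
            exact hba (h b hcb)
          rw [this, zero_mul]
        rw [k5] at h1
        exact mul_ne_zero ha (Finset.prod_ne_zero_iff.2 fun j _ => pow_ne_zero _ (k2 j).ne') h1.symm
      obtain ⟨κ, hκ⟩ : ∃ κ, b κ ≠ a κ := by
        by_contra h
        push Not at h
        exact hab (funext h)
      set c' : (Fin 3 → Fin (D + 1)) → ℤ := fun x => (((x κ : ℕ) : ℤ) - ((a κ : ℕ) : ℤ)) * c x with hc'
      have hc'0 : c' ≠ 0 := by
        intro h
        have h1 := congrFun h b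
        simp only [hc', Pi.zero_apply] at h1
        rcases mul_eq_zero.1 h1 with h2 | h2
        · apply hκ
          apply Fin.ext
          have : ((b κ : ℕ) : ℤ) = ((a κ : ℕ) : ℤ) := by linarith
          exact_mod_cast this
        · exact hb h2
      have hω' : Hom c' ω := fun x hx => hω x fun h => hx (by simp [hc', h])
      have hsupp' : (Finset.univ.filter fun x => c' x ≠ 0).card ≤ m := by
        have h1 : (Finset.univ.filter fun x => c' x ≠ 0) ⊆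
            (Finset.univ.filter fun x => c x ≠ 0).erase a := by
          intro x hx
          rw [Finset.mem_filter] at hx
          rw [Finset.mem_erase, Finset.mem_filter]
          refine ⟨?_, Finset.mem_univ _, fun h => hx.2 (by simp [hc', h])⟩
          rintro rfl
          apply hx.2
          simp [hc']
        have h2 := Finset.card_le_card h1
        rw [Finset.card_erase_of_mem (by simpa using ha)] at h2
        omega
      have hcB' : ∀ x, |c' x| ≤ ((B * (D + 1) ^ (K - m) : ℕ) : ℤ) := by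
        intro x
        simp only [hc']
        rw [abs_mul]
        have h1 : |((x κ : ℕ) : ℤ) - ((a κ : ℕ) : ℤ)| ≤ ((D + 1 : ℕ) : ℤ) := by
          have := (x κ).2
          have := (a κ).2
          rw [abs_le]
          constructor <;> push_cast <;> omega
        have h2 := hcB x
        have h3 : K - m = (K - (m + 1)) + 1 := by omega
        calc |((x κ : ℕ) : ℤ) - ((a κ : ℕ) : ℤ)| * |c x| ≤
            ((D + 1 : ℕ) : ℤ) * ((B * (D + 1) ^ (K - (m + 1)) : ℕ) : ℤ) :=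
              mul_le_mul h1 h2 (abs_nonneg _) (by positivity)
          _ = _ := by rw [h3]; push_cast; ring
      refine ih (by omega) c' hc'0 hω' hsupp' hcB' S₂ fun t ht => ?_
      have ht' := Finset.mem_filter.1 ht
      obtain ⟨k1, k2, k3, k4, k5, k6⟩ := hS t ht'.1
      refine ⟨k1, k2, k3, k4, ?_, k6⟩
      have h1 : Ph c' t = Ph (Th κ c) t - (a κ : ℕ) * Ph c t := by
        unfold Ph
        rw [Finset.mul_sum, ← Finset.sum_sub_distrib]
        refine Finset.sum_congr rfl fun x _ => ?_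
        simp only [hc', Th]
        ring
      rw [h1, hz t ht κ, k5]
      ring
    calc S.card = S₁.card + S₂.card := hcard
      _ ≤ Q.card * (1 * X₁ ^ 3) + m * (Q.card * (1 * X₁ ^ 3)) := Nat.add_le_add h₁ h₂
      _ = (m + 1) * (Q.card * (1 * X₁ ^ 3)) := by ring

/-- **Special points for exponents of Fermat type.** -/
theorem ft_special {D n X X₁ U W Zb y₀ B : ℕ} (hn : 1 ≤ n) (hW : 1 ≤ W) {u : Fin 3 → ℤ}
    (hu : ∀ i, u i ≠ 0)
    (hU : ∀ i, |u i| ≤ (U : ℤ)) (e : Fin 3 → ℕ) (he : ∀ i, e i = n) (Q : Finset ℕ)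
    (hQ : ∀ q ∈ Q, q.Prime ∧ X ≤ q ∧ q ≤ X₁) (hnX : n < X)
    (hbig : W * (2 * (U * W ^ n * Zb)) < X ^ Q.card)
    (hZb : (D + 1) ^ 3 * ((B * (D + 1) ^ ((D + 1) ^ 3) * (D + 1)) * W ^ (3 * D)) ≤ Zb)
    (hy : Zb < (y₀ + 1) ^ n) (c : (Fin 3 → Fin (D + 1)) → ℤ) (hc0 : c ≠ 0)
    (hcB : ∀ a, |c a| ≤ (B : ℤ)) (S : Finset (Fin 3 → ℤ))
    (hS : ∀ t ∈ S, eval t (FQ u e) = 0 ∧ (∀ i, 0 < t i) ∧ (∀ i, |t i| ≤ (W : ℤ)) ∧
      (∀ i j, i ≠ j → IsCoprime (u i * t i) (u j * t j)))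
    (hall : ∀ t ∈ S, ∀ ω, ∑ a with wgt e a = ω, c a * ∏ j, t j ^ (a j : ℕ) = 0) :
    S.card ≤ (D + 1) ^ 3 * (Q.card * (1 * X₁ ^ 3)) + y₀ ^ 2 := by
  classical
  obtain ⟨a₀, ha₀⟩ : ∃ a, c a ≠ 0 := by
    by_contra h
    push Not at h
    exact hc0 (funext h)
  set c' : (Fin 3 → Fin (D + 1)) → ℤ := fun a => if wgt e a = wgt e a₀ then c a else 0 with hc'
  have hc'0 : c' ≠ 0 := by
    intro h
    have h1 := congrFun h a₀
    simp only [hc', if_true, Pi.zero_apply] at h1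
    exact ha₀ h1
  have hwe : ∀ a : Fin 3 → Fin (D + 1), wgt e a = n ^ 2 * ((a 0 : ℕ) + (a 1 : ℕ) + (a 2 : ℕ)) := by
    intro a
    simp [wgt, wt, Fin.sum_univ_three, he]
    ring
  have hω : Hom c' ((a₀ 0 : ℕ) + (a₀ 1 : ℕ) + (a₀ 2 : ℕ)) := by
    intro a ha
    by_cases h : wgt e a = wgt e a₀
    · rw [hwe, hwe] at h
      exact Nat.eq_of_mul_eq_mul_left (by positivity) h
    · exfalso
      apply ha
      simp only [hc', if_neg h]
  have hPh : ∀ t ∈ S, Ph c' t = 0 := by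
    intro t ht
    rw [← hall t ht (wgt e a₀), Finset.sum_filter]
    unfold Ph
    refine Finset.sum_congr rfl fun a _ => ?_
    simp only [hc']
    split_ifs <;> simp
  have hc'B : ∀ a, |c' a| ≤ (B : ℤ) := by
    intro a
    simp only [hc']
    split_ifs
    · exact hcB a
    · simp
  set S₁ := S.filter fun t => (y₀ : ℤ) < t 0 ∨ (y₀ : ℤ) < t 1 with hS₁
  set S₂ := S.filter fun t => ¬ ((y₀ : ℤ) < t 0 ∨ (y₀ : ℤ) < t 1) with hS₂
  have hcard : S.card = S₁.card + S₂.card := (Finset.card_filter_add_card_filter_not _).symm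
  have h₁ : S₁.card ≤ (D + 1) ^ 3 * (Q.card * (1 * X₁ ^ 3)) := by
    refine ft_chain (ω := (a₀ 0 : ℕ) + (a₀ 1 : ℕ) + (a₀ 2 : ℕ)) (B := B) (K := (D + 1) ^ 3)
      hn hW hu hU e he Q hQ hnX hbig hZb hy ((D + 1) ^ 3) le_rfl c' hc'0 hω ?_ ?_ S₁ ?_
    · refine (Finset.card_filter_le _ _).trans ?_
      rw [Finset.card_univ, card3]
    · intro a
      rw [Nat.sub_self, pow_zero, mul_one]
      exact hc'B a
    · intro t ht
      have ht' := Finset.mem_filter.1 ht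
      obtain ⟨k1, k2, k3, k4⟩ := hS t ht'.1
      exact ⟨k1, k2, k3, k4, hPh t ht'.1, ht'.2⟩
  have h₂ : S₂.card ≤ y₀ ^ 2 := by
    refine (card_two u e (fun i => by rw [he i]; exact hn) hu (i := 0) (j := 1) (by decide) S₂
      (Finset.Icc 1 (y₀ : ℤ)) (Finset.Icc 1 (y₀ : ℤ)) fun t ht => ?_).trans ?_
    · have ht' := Finset.mem_filter.1 ht
      obtain ⟨k1, k2, k3, k4⟩ := hS t ht'.1
      have h3 := ht'.2
      push Not at h3
      have k20 := k2 0
      have k21 := k2 1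
      exact ⟨k1, k2, Finset.mem_Icc.2 ⟨by omega, h3.1⟩, Finset.mem_Icc.2 ⟨by omega, h3.2⟩⟩
    · rw [Int.card_Icc]
      simp [sq]
  omega

end Pool.Agent.Y902.FD
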