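import Mathlib
import Pool.Agent.Y902.FD.Ftb

/-!
# Choice of the parameters, with coefficients
-/

set_option autoImplicit false

namespace Pool.Agent.Y902.FD

open Finset MvPolynomial Pool.Agent.Y902.FB

/-- **Choice of the parameters.** -/
theorem count_par (k : ℕ) (hk : 1 ≤ k) (D ρ : ℕ) (hD : D = 72 * k ^ 2)
    (hρ : ρ = (3 * D + 1) * k) : ∃ R M c : ℕ, 1 ≤ c ∧ 1 ≤ M ∧
    ∀ X E Y : ℕ, 1 ≤ E → c * E ^ M ≤ X → 1 ≤ Y → Y ≤ X ^ k →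
    ∀ u : Fin 3 → ℤ, (∀ i, u i ≠ 0) → (∀ i, |u i| ≤ ((X ^ (k * E) : ℕ) : ℤ)) →
    (∀ q : ℕ, q.Prime → X ≤ q → ¬ (q : ℤ) ∣ u 2) →
    ∀ e : Fin 3 → ℕ, (∀ i, 1 ≤ e i) → (∀ i, e i ≤ E) →
    ∀ i j : Fin 3, i ≠ j → R + 1 ≤ e i → R + 1 ≤ e j →
    ∀ T : Finset (Fin 3 → ℤ), (∀ t ∈ T, eval t (FQ u e) = 0 ∧ (∀ i, 0 < t i) ∧
      (∀ i, |t i| ≤ (Y : ℤ)) ∧ ∀ i j, i ≠ j → IsCoprime (u i * t i) (u j * t j)) →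
    (∀ c : (Fin 3 → Fin (D + 1)) → ℤ, c ≠ 0 → (∀ a, |c a| ≤ (((X ^ 2) ^ ρ : ℕ) : ℤ)) →
      ∀ S : Finset (Fin 3 → ℤ), S ⊆ T →
      (∀ t ∈ S, ∀ ω, ∑ a with wgt e a = ω, c a * ∏ j, t j ^ (a j : ℕ) = 0) → S.card ≤ X ^ 11) →
    T.card ≤ X ^ 19 := by
  obtain ⟨D₂, hD₂⟩ : ∃ D₂, D₂ = 8 * k := ⟨_, rfl⟩
  obtain ⟨ρ₂, hρ₂⟩ : ∃ ρ₂, ρ₂ = (2 * D₂ + 1) * k := ⟨_, rfl⟩
  obtain ⟨h₀, hh₀⟩ : ∃ h₀, h₀ = 2 * ρ + 3 * D * k + 2 := ⟨_, rfl⟩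
  obtain ⟨l₀, hl₀⟩ : ∃ l₀, l₀ = 2 * ρ₂ + 2 * D₂ * k + 1 := ⟨_, rfl⟩
  obtain ⟨K, hK⟩ : ∃ K, K = k + h₀ + 2 := ⟨_, rfl⟩
  obtain ⟨n₀, hn₀⟩ : ∃ n₀, n₀ = h₀ + 2 * l₀ + 2 := ⟨_, rfl⟩
  obtain ⟨a₁, ha₁⟩ : ∃ a₁, a₁ = (3 * (D + 1)) ^ ((D + 1) ^ 3 + 1) := ⟨_, rfl⟩
  obtain ⟨a₂, ha₂⟩ : ∃ a₂, a₂ = (D + 1) ^ 3 := ⟨_, rfl⟩
  obtain ⟨a₃, ha₃⟩ : ∃ a₃, a₃ = (D₂ + 1) ^ 2 * (D₂ + 1) ^ (D₂ + 1) := ⟨_, rfl⟩
  obtain ⟨a₄, ha₄⟩ : ∃ a₄, a₄ = 2 ^ K := ⟨_, rfl⟩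
  obtain ⟨a₅, ha₅⟩ : ∃ a₅, a₅ = (D₂ + 1) ^ 2 := ⟨_, rfl⟩
  obtain ⟨c, hc⟩ : ∃ c, c = a₁ + (a₂ + 1) + a₃ + a₄ + K + 3 * a₅ + (2 * k + n₀) + 16 +
      2 * D₂ := ⟨_, rfl⟩
  have hD1 : 1 ≤ D := by rw [hD]; exact Nat.mul_pos (by norm_num) (Nat.pow_pos hk)
  refine ⟨2 * l₀ + k + 2, 2 * ((D + 1) ^ 3 + 1), c, by omega, by omega, ?_⟩
  intro X E Y hE1 hX hY hYX u hu hU huq e he hE i j hij hi hj T hT hMsp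
  have hEM : 1 ≤ E ^ (2 * ((D + 1) ^ 3 + 1)) := Nat.one_le_pow _ _ hE1
  have hcX : c ≤ X := (Nat.le_mul_of_pos_right c hEM).trans hX
  have hEX' : c * E ≤ X := by
    refine (Nat.mul_le_mul_left c ?_).trans hX
    exact Nat.le_self_pow (by omega) E
  have t₁ : a₁ ≤ c := by omega
  have t₂ : (D + 1) ^ 3 < X := by rw [← ha₂]; omega
  have t₃ : (D₂ + 1) ^ 2 * (D₂ + 1) ^ (D₂ + 1) ≤ X := by rw [← ha₃]; omega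
  have t₄ : 2 ^ K ≤ X := by rw [← ha₄]; omega
  have t₅ : 2 * (D₂ + 1) ^ 2 ≤ X := by rw [← ha₅]; omega
  have t₅' : (D₂ + 1) ^ 2 < X := by rw [← ha₅]; omega
  have t₆ : K ≤ X := by omega
  have t₇ : 2 * k + n₀ ≤ c := by omega
  have t₈ : 2 * D₂ ≤ X := by omega
  have hX16 : 16 ≤ X := by omega
  have hX1 : 1 ≤ X := by omega
  have hEX : E < X := by
    have h1 : 2 * E ≤ c * E := Nat.mul_le_mul_right _ (by omega)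
    omega
  -- powers
  have hw : (3 * (D + 1) * E ^ 2) ^ ((D + 1) ^ 3 + 1) ≤ X := by
    refine le_trans ?_ hX
    rw [mul_pow, ← pow_mul, ← ha₁]
    exact Nat.mul_le_mul_right _ t₁
  have hYp : ∀ a : ℕ, Y ^ a ≤ X ^ (k * a) := fun a => by
    rw [pow_mul]; exact Nat.pow_le_pow_left hYX a
  have hHb : Hb D ((X ^ 2) ^ ρ) Y E ≤ X ^ h₀ := by
    unfold Hb
    calc (D + 1) ^ 3 * ((X ^ 2) ^ ρ * Y ^ (3 * D) * (3 * (D + 1) * E ^ 2) ^ ((D + 1) ^ 3 + 1)) ≤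
          X * (X ^ (2 * ρ) * X ^ (k * (3 * D)) * X) := by
          rw [← pow_mul X 2 ρ]
          exact Nat.mul_le_mul t₂.le (Nat.mul_le_mul (Nat.mul_le_mul_left _ (hYp _)) hw)
      _ = X ^ h₀ := by rw [hh₀]; ring
  have hLb : Lb D₂ ((X ^ 2) ^ ρ₂) Y ≤ X ^ l₀ := by
    unfold Lb
    calc (D₂ + 1) ^ 2 * ((X ^ 2) ^ ρ₂ * Y ^ (2 * D₂) * (D₂ + 1) ^ (D₂ + 1)) =
          ((D₂ + 1) ^ 2 * (D₂ + 1) ^ (D₂ + 1)) * ((X ^ 2) ^ ρ₂ * Y ^ (2 * D₂)) := by ring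
      _ ≤ X * (X ^ (2 * ρ₂) * X ^ (k * (2 * D₂))) := by
          rw [← pow_mul X 2 ρ₂]
          exact Nat.mul_le_mul t₃ (Nat.mul_le_mul_left _ (hYp _))
      _ = X ^ l₀ := by rw [hl₀]; ring
  obtain ⟨Q, hQc, hQ⟩ := primes_exist K X hX1
  have hX₁ : 2 ^ K * X ≤ X ^ 2 := by rw [sq]; exact Nat.mul_le_mul_right _ t₄
  have hQ' : ∀ q ∈ Q, q.Prime ∧ X ≤ q ∧ q ≤ X ^ 2 := fun q hq =>
    ⟨(hQ q hq).1, (hQ q hq).2.1, (hQ q hq).2.2.trans hX₁⟩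
  have hmain := count_gen (E := E) (Y := Y) (X := X) (X₁ := X ^ 2) (D := D) (ρ := ρ) (D₂ := D₂)
    (ρ₂ := ρ₂) (LG := X ^ (2 * k * E + h₀ + 1)) (Z := X ^ (1 + 2 * l₀ + k))
    (N₀ := 2 * k * E + n₀) (R := 2 * l₀ + k + 2) (y₀ := X) (U := X ^ (k * E)) (Msp := X ^ 11)
    hY hE1 (Nat.one_le_pow _ _ hX1) u e he hu hU hE Q hQ'
    (fun q hq => huq q (hQ' q hq).1 (hQ' q hq).2.1) ?_ ?_ ?_ ?_ ?_ ?_ ?_ ?_ ?_ hij hi hj ?_ T hT hMsp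
  · -- conclusion
    refine hmain.trans ?_
    rw [hQc]
    have b1 : K ≤ X := t₆
    have b2 : (D + 1) ^ 3 ≤ X := t₂.le
    have b3 : 2 * k * E + n₀ ≤ X := by
      refine le_trans ?_ hEX'
      calc 2 * k * E + n₀ ≤ 2 * k * E + n₀ * E := Nat.add_le_add_left (Nat.le_mul_of_pos_right _ hE1) _
        _ = (2 * k + n₀) * E := by ring
        _ ≤ c * E := Nat.mul_le_mul_right _ t₇
    have b4 : 2 * ((D₂ + 1) ^ 2 * (2 * k * E + n₀)) ≤ X * X := by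
      calc 2 * ((D₂ + 1) ^ 2 * (2 * k * E + n₀)) = (2 * (D₂ + 1) ^ 2) * (2 * k * E + n₀) := by ring
        _ ≤ X * X := Nat.mul_le_mul t₅ b3
    have b5 : (2 * D₂ + X) ^ 2 ≤ 4 * X ^ 2 := by
      calc (2 * D₂ + X) ^ 2 ≤ (2 * X) ^ 2 := Nat.pow_le_pow_left (by omega) 2
        _ = 4 * X ^ 2 := by ring
    have b6 : 2 * ((D₂ + 1) ^ 2 * (2 * k * E + n₀)) + (2 * D₂ + X) ^ 2 ≤ X ^ 3 := by
      have h1 : 5 * X ^ 2 ≤ X ^ 3 := by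
        rw [pow_succ, mul_comm]; exact Nat.mul_le_mul_left _ (by omega)
      calc _ ≤ X * X + 4 * X ^ 2 := Nat.add_le_add b4 b5
        _ = 5 * X ^ 2 := by ring
        _ ≤ X ^ 3 := h1
    have b7 : (D + 1) ^ 3 * (K * ((2 * ((D₂ + 1) ^ 2 * (2 * k * E + n₀)) + (2 * D₂ + X) ^ 2) *
        (X ^ 2) ^ 3)) ≤ X ^ 11 := by
      calc _ ≤ X * (X * (X ^ 3 * (X ^ 2) ^ 3)) := by gcongr
        _ = X ^ 11 := by ring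
    calc K * ((X ^ 11 + (D + 1) ^ 3 * (K *
          ((2 * ((D₂ + 1) ^ 2 * (2 * k * E + n₀)) + (2 * D₂ + X) ^ 2) * (X ^ 2) ^ 3))) * (X ^ 2) ^ 3)
        ≤ X * ((X ^ 11 + X ^ 11) * (X ^ 2) ^ 3) := by gcongr
      _ = 2 * X ^ 18 := by ring
      _ ≤ X * X ^ 18 := Nat.mul_le_mul_right _ (by omega)
      _ = X ^ 19 := by ring
  · -- c1
    have h1 : 3 * D + 1 ≤ 3 * (D + 1) := by omega
    calc 8 * ρ ^ 2 = 8 * k ^ 2 * (3 * D + 1) ^ 2 := by rw [hρ]; ring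
      _ ≤ 8 * k ^ 2 * (3 * (D + 1)) ^ 2 := Nat.mul_le_mul_left _ (Nat.pow_le_pow_left h1 2)
      _ = (72 * k ^ 2) * (D + 1) ^ 2 := by ring
      _ ≤ (D + 1) * (D + 1) ^ 2 := Nat.mul_le_mul_right _ (by omega)
      _ = (D + 1) ^ 3 := by ring
  · -- c1'
    calc (D + 1) ^ 3 * Y ^ (3 * D) ≤ (D + 1) ^ 3 * X ^ (k * (3 * D)) :=
          Nat.mul_le_mul_left _ (hYp _)
      _ < X * X ^ (k * (3 * D)) := Nat.mul_lt_mul_of_pos_right t₂ (Nat.pow_pos hX1)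
      _ = X ^ (k * (3 * D) + 1) := by ring
      _ ≤ X ^ ρ := Nat.pow_le_pow_right hX1 (by rw [hρ]; nlinarith)
  · -- c2
    have h1 : 2 * D₂ + 1 ≤ 2 * (D₂ + 1) := by omega
    calc 4 * ρ₂ = 4 * k * (2 * D₂ + 1) := by rw [hρ₂]; ring
      _ ≤ 4 * k * (2 * (D₂ + 1)) := Nat.mul_le_mul_left _ h1
      _ = (8 * k) * (D₂ + 1) := by ring
      _ ≤ (D₂ + 1) * (D₂ + 1) := Nat.mul_le_mul_right _ (by omega)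
      _ = (D₂ + 1) ^ 2 := by ring
  · -- c2'
    calc (D₂ + 1) ^ 2 * Y ^ (2 * D₂) ≤ (D₂ + 1) ^ 2 * X ^ (k * (2 * D₂)) :=
          Nat.mul_le_mul_left _ (hYp _)
      _ < X * X ^ (k * (2 * D₂)) := Nat.mul_lt_mul_of_pos_right t₅' (Nat.pow_pos hX1)
      _ = X ^ (k * (2 * D₂) + 1) := by ring
      _ ≤ X ^ ρ₂ := Nat.pow_le_pow_right hX1 (by rw [hρ₂]; nlinarith)
  · -- c3
    rw [hQc]
    calc E * Y * Hb D ((X ^ 2) ^ ρ) Y E ≤ X * X ^ k * X ^ h₀ := by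
          gcongr
      _ = X ^ (k + h₀ + 1) := by ring
      _ < X ^ K := Nat.pow_lt_pow_right (by omega) (by omega)
  · -- c4
    calc X ^ (k * E) * (E * Y ^ E) ≤ X ^ (k * E) * (X * X ^ (k * E)) :=
          Nat.mul_le_mul_left _ (Nat.mul_le_mul hEX.le (hYp _))
      _ = X ^ (2 * k * E + 1) := by ring
      _ ≤ _ := Nat.pow_le_pow_right hX1 (by omega)
  · -- c4'
    exact hHb.trans (Nat.pow_le_pow_right hX1 (by omega))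
  · -- c5
    calc E * Lb D₂ ((X ^ 2) ^ ρ₂) Y ^ 2 * Y ≤ X * (X ^ l₀) ^ 2 * X ^ k := by gcongr
      _ = X ^ (1 + 2 * l₀ + k) := by ring
  · -- c6
    calc 3 * (X ^ (2 * k * E + h₀ + 1) * Lb D₂ ((X ^ 2) ^ ρ₂) Y ^ 2) ≤
          3 * (X ^ (2 * k * E + h₀ + 1) * (X ^ l₀) ^ 2) := by gcongr
      _ = 3 * X ^ (2 * k * E + h₀ + 1 + 2 * l₀) := by ring
      _ < X * X ^ (2 * k * E + h₀ + 1 + 2 * l₀) :=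
          Nat.mul_lt_mul_of_pos_right (by omega) (Nat.pow_pos hX1)
      _ = X ^ (2 * k * E + n₀) := by rw [hn₀]; ring
  · -- c8
    calc 2 * X ^ (1 + 2 * l₀ + k) ≤ X * X ^ (1 + 2 * l₀ + k) := Nat.mul_le_mul_right _ (by omega)
      _ = X ^ (2 * l₀ + k + 2) := by ring
      _ < (X + 1) ^ (2 * l₀ + k + 2) := Nat.pow_lt_pow_left (by omega) (by omega)

end Pool.Agent.Y902.FD
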