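import Mathlib
import Pool.Agent.Y902.FD.Par

/-!
# The counts for one triple of exponents, with coefficients
-/

set_option autoImplicit false

namespace Pool.Agent.Y902.FD

open Finset MvPolynomial Pool.Agent.Y902.FB

theorem cheb (y : ℕ) (hy : 1000000 ≤ y) : 2 * y + 100 ≤ Nat.primeCounting (y ^ 2) := by
  have h1 := Chebyshev.pi_ge (y ^ 2)
  have hyr : (1000000 : ℝ) ≤ y := by exact_mod_cast hy
  obtain ⟨s, hs⟩ : ∃ s : ℝ, s = √(y : ℝ) := ⟨_, rfl⟩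
  have hs2 : s ^ 2 = y := by rw [hs]; exact Real.sq_sqrt (by linarith)
  have hs0 : 0 ≤ s := by rw [hs]; exact Real.sqrt_nonneg _
  have hs1 : 1000 ≤ s := by nlinarith
  have hlogn : Real.log ((y ^ 2 : ℕ) : ℝ) ≤ 4 * s := by
    push_cast
    rw [← hs2, Real.log_pow, Real.log_pow]
    have := Real.log_le_sub_one_of_pos (show 0 < s by linarith)
    push_cast
    linarith
  have hlogp : 0 < Real.log ((y ^ 2 : ℕ) : ℝ) := by
    apply Real.log_pos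
    push_cast
    nlinarith
  have hlog1 : Real.log (((y ^ 2 : ℕ) : ℝ) + 1) ≤ 2 * y := by
    have h2 : Real.log (((y ^ 2 : ℕ) : ℝ) + 1) ≤ Real.log (((y : ℝ) + 1) ^ 2) := by
      apply Real.log_le_log (by positivity)
      push_cast
      nlinarith
    rw [Real.log_pow] at h2
    have h3 := Real.log_le_sub_one_of_pos (show (0 : ℝ) < (y : ℝ) + 1 by linarith)
    push_cast at h2 ⊢
    linarith
  have h2 : (2 * (y : ℝ) + 100) ≤
      (((y ^ 2 : ℕ) : ℝ) * Real.log 2 - Real.log (((y ^ 2 : ℕ) : ℝ) + 1)) /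
        Real.log ((y ^ 2 : ℕ) : ℝ) := by
    rw [le_div_iff₀ hlogp]
    have h4 : (2 * (y : ℝ) + 100) * Real.log ((y ^ 2 : ℕ) : ℝ) ≤ (2 * (y : ℝ) + 100) * (4 * s) :=
      mul_le_mul_of_nonneg_left hlogn (by linarith)
    have h5 : (0.69 : ℝ) < Real.log 2 := by linarith [Real.log_two_gt_d9]
    have h6 : ((y ^ 2 : ℕ) : ℝ) * 0.69 ≤ ((y ^ 2 : ℕ) : ℝ) * Real.log 2 :=
      mul_le_mul_of_nonneg_left h5.le (by positivity)
    have h7 : ((y ^ 2 : ℕ) : ℝ) = s ^ 4 := by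
      push_cast
      rw [← hs2]
      ring
    rw [h7] at h6 ⊢
    rw [h7] at hlog1 h4
    rw [← hs2] at h4 hlog1 ⊢
    have h8 : (2 * s ^ 2 + 100) * (4 * s) + 2 * s ^ 2 ≤ s ^ 4 * 0.69 := by
      have e1 : 1000 * s ^ 3 ≤ s ^ 4 := by
        have := mul_le_mul_of_nonneg_right hs1 (pow_nonneg hs0 3)
        nlinarith
      have e2 : 1000 * s ^ 2 ≤ s ^ 3 := by
        have := mul_le_mul_of_nonneg_right hs1 (pow_nonneg hs0 2)
        nlinarith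
      have e3 : 1000 * s ≤ s ^ 2 := by nlinarith
      nlinarith
    linarith
  have h3 := h2.trans h1
  exact_mod_cast h3

theorem many_primes (X : ℕ) (hX : 1000000 ≤ X) : ∃ Q : Finset ℕ, X ≤ Q.card ∧ Q.card ≤ X ^ 3 ∧
    ∀ q ∈ Q, q.Prime ∧ X ≤ q ∧ q ≤ X ^ 2 := by
  refine ⟨((Finset.range (X ^ 2 + 1)).filter Nat.Prime) \ Finset.range X, ?_, ?_, ?_⟩
  · have h1 := cheb X hX
    rw [Nat.primeCounting, Nat.primeCounting', Nat.count_eq_card_filter_range] at h1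
    have h2 := Finset.le_card_sdiff (Finset.range X) ((Finset.range (X ^ 2 + 1)).filter Nat.Prime)
    rw [Finset.card_range] at h2
    have h3 : ((Finset.range (X ^ 2 + 1)).filter Nat.Prime).card =
        (Finset.filter (fun x => Nat.Prime x) (Finset.range (X ^ 2 + 1))).card := rfl
    have h1' : 2 * X + 100 ≤ ((Finset.range (X ^ 2 + 1)).filter Nat.Prime).card := by
      convert h1
    omega
  · refine (Finset.card_le_card Finset.sdiff_subset).trans ((Finset.card_filter_le _ _).trans ?_)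
    rw [Finset.card_range]
    have : X ^ 3 = X ^ 2 * X := by ring
    rw [this]
    have h2 : 1 ≤ X ^ 2 := Nat.one_le_pow _ _ (by omega)
    nlinarith
  · intro q hq
    rw [Finset.mem_sdiff, Finset.mem_filter, Finset.mem_range, Finset.mem_range] at hq
    exact ⟨hq.1.2, by omega, by omega⟩

/-- exponents not of Fermat type -/
theorem count_k (k : ℕ) (hk : 1 ≤ k) : ∃ R D M c : ℕ, 1 ≤ D ∧ 1 ≤ c ∧ 1 ≤ M ∧
    ∀ X E Y : ℕ, 1 ≤ E → c * E ^ M ≤ X → 1 ≤ Y → Y ≤ X ^ k →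
    ∀ u : Fin 3 → ℤ, (∀ i, u i ≠ 0) → (∀ i, |u i| ≤ ((X ^ (k * E) : ℕ) : ℤ)) →
    (∀ q : ℕ, q.Prime → X ≤ q → ¬ (q : ℤ) ∣ u 2) →
    ∀ e : Fin 3 → ℕ, (∀ i, 1 ≤ e i) → (∀ i, e i ≤ E) → ¬ FT e (D ^ 2) →
    ∀ i j : Fin 3, i ≠ j → R + 1 ≤ e i → R + 1 ≤ e j →
    ∀ T : Finset (Fin 3 → ℤ), (∀ t ∈ T, eval t (FQ u e) = 0 ∧ (∀ i, 0 < t i) ∧
      (∀ i, |t i| ≤ (Y : ℤ)) ∧ ∀ i j, i ≠ j → IsCoprime (u i * t i) (u j * t j)) →
    T.card ≤ X ^ 19 := by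
  obtain ⟨R, M, c, hc, hM, h⟩ := count_par k hk (72 * k ^ 2) ((3 * (72 * k ^ 2) + 1) * k) rfl rfl
  obtain ⟨D, hD⟩ : ∃ D, D = 72 * k ^ 2 := ⟨_, rfl⟩
  rw [← hD] at h
  obtain ⟨ρ, hρ⟩ : ∃ ρ, ρ = (3 * D + 1) * k := ⟨_, rfl⟩
  rw [← hρ] at h
  have hD1 : 1 ≤ D := by rw [hD]; exact Nat.mul_pos (by norm_num) (Nat.pow_pos hk)
  obtain ⟨cτ, hcτ⟩ := tau_small (2 * ρ)
  refine ⟨R, D, M, c + cτ + (D + 1) ^ 3 + 16, hD1, by omega, hM, ?_⟩
  intro X E Y hE1 hX hY hYX u hu hU huq e he hE hFT i j hij hi hj T hT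
  have hEM : 1 ≤ E ^ M := Nat.one_le_pow _ _ hE1
  have hcX : c + cτ + (D + 1) ^ 3 + 16 ≤ X := (Nat.le_mul_of_pos_right _ hEM).trans hX
  have hX' : c * E ^ M ≤ X := (Nat.mul_le_mul_right _ (by omega)).trans hX
  refine h X E Y hE1 hX' hY hYX u hu hU huq e he hE i j hij hi hj T hT ?_
  intro c' hc'0 hc'B S hST hS
  have h1 : S.card ≤ 9 * ((D + 1) ^ 3 * X) ^ 2 := by
    refine special_card (B := (X ^ 2) ^ ρ) u e he hu ?_ c' hc'B S fun t ht => ?_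
    · intro n hn1 hn2
      refine hcτ X (by omega) n hn1 ?_
      rw [← pow_mul] at hn2
      exact hn2
    · have htT := hT t (hST ht)
      refine ⟨htT.1, htT.2.1, special e he hFT c' hc'0 t (fun i => (htT.2.1 i).ne') ?_ (hS t ht)⟩
      intro i j hij
      exact ((htT.2.2.2 i j hij).of_mul_left_right).of_mul_right_right
  refine h1.trans ?_
  have hX1 : 1 ≤ X := by omega
  calc 9 * ((D + 1) ^ 3 * X) ^ 2 ≤ X * (X * X) ^ 2 := by gcongr <;> omega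
    _ = X ^ 5 := by ring
    _ ≤ X ^ 11 := Nat.pow_le_pow_right hX1 (by norm_num)

/-- equal exponents -/
theorem count_h (k : ℕ) (hk : 1 ≤ k) : ∃ R M c : ℕ, 1 ≤ c ∧ 1 ≤ M ∧
    ∀ X E Y : ℕ, 1 ≤ E → c * E ^ M ≤ X → 1 ≤ Y → Y ≤ X ^ k →
    ∀ u : Fin 3 → ℤ, (∀ i, u i ≠ 0) → (∀ i, |u i| ≤ ((X ^ (k * E) : ℕ) : ℤ)) →
    (∀ q : ℕ, q.Prime → X ≤ q → ¬ (q : ℤ) ∣ u 2) →
    ∀ (e : Fin 3 → ℕ) (n : ℕ), (∀ i, e i = n) → R + 1 ≤ n → n ≤ E →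
    ∀ T : Finset (Fin 3 → ℤ), (∀ t ∈ T, eval t (FQ u e) = 0 ∧ (∀ i, 0 < t i) ∧
      (∀ i, |t i| ≤ (Y : ℤ)) ∧ ∀ i j, i ≠ j → IsCoprime (u i * t i) (u j * t j)) →
    T.card ≤ X ^ 19 := by
  obtain ⟨R, M, c, hc, hM, h⟩ := count_par k hk (72 * k ^ 2) ((3 * (72 * k ^ 2) + 1) * k) rfl rfl
  obtain ⟨D, hD⟩ : ∃ D, D = 72 * k ^ 2 := ⟨_, rfl⟩
  rw [← hD] at h
  obtain ⟨ρ, hρ⟩ : ∃ ρ, ρ = (3 * D + 1) * k := ⟨_, rfl⟩
  rw [← hρ] at h
  obtain ⟨z₀, hz₀⟩ : ∃ z₀, z₀ = 1 + 2 * ρ + 3 * D * k := ⟨_, rfl⟩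
  obtain ⟨a₆, ha₆⟩ : ∃ a₆, a₆ = (D + 1) ^ 3 * ((D + 1) ^ ((D + 1) ^ 3) * (D + 1)) := ⟨_, rfl⟩
  refine ⟨R + z₀, M, c + a₆ + (D + 1) ^ 3 + 1000000 + (2 * k + k + z₀ + 2), by omega, hM, ?_⟩
  intro X E Y hE1 hX hY hYX u hu hU huq e n he hnR hnE T hT
  have hEM : E ≤ E ^ M := Nat.le_self_pow (by omega) E
  have hEM1 : 1 ≤ E ^ M := Nat.one_le_pow _ _ hE1
  have hcX : c + a₆ + (D + 1) ^ 3 + 1000000 + (2 * k + k + z₀ + 2) ≤ X :=
    (Nat.le_mul_of_pos_right _ hEM1).trans hX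
  have hX' : c * E ^ M ≤ X := (Nat.mul_le_mul_right _ (by omega)).trans hX
  have hX'' : (2 * k + k + z₀ + 2) * E ≤ X :=
    (Nat.mul_le_mul (show 2 * k + k + z₀ + 2 ≤ c + a₆ + (D + 1) ^ 3 + 1000000 +
      (2 * k + k + z₀ + 2) by omega) hEM).trans hX
  have hX3 : (1000000) * E ≤ X :=
    (Nat.mul_le_mul (show 1000000 ≤ c + a₆ + (D + 1) ^ 3 + 1000000 +
      (2 * k + k + z₀ + 2) by omega) hEM).trans hX
  have hX1 : 1 ≤ X := by omega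
  obtain ⟨Q, hQ1, hQ2, hQ⟩ := many_primes X (by omega)
  refine h X E Y hE1 hX' hY hYX u hu hU huq e (fun i => by rw [he i]; omega)
    (fun i => by rw [he i]; exact hnE) 0 1 (by decide) (by rw [he 0]; omega) (by rw [he 1]; omega)
    T hT ?_
  intro c' hc'0 hc'B S hST hS
  have hYp : ∀ a : ℕ, Y ^ a ≤ X ^ (k * a) := fun a => by
    rw [pow_mul]; exact Nat.pow_le_pow_left hYX a
  have h1 := ft_special (D := D) (n := n) (X := X) (X₁ := X ^ 2) (U := X ^ (k * E)) (W := Y)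
    (Zb := X ^ z₀) (y₀ := X) (B := (X ^ 2) ^ ρ) (by omega) hY hu hU e he Q hQ (by omega) ?_ ?_ ?_
    c' hc'0 hc'B S (fun t ht => hT t (hST ht)) hS
  · refine h1.trans ?_
    have b2 : (D + 1) ^ 3 ≤ X := by omega
    calc (D + 1) ^ 3 * (Q.card * (1 * (X ^ 2) ^ 3)) + X ^ 2 ≤
          X * (X ^ 3 * (1 * (X ^ 2) ^ 3)) + X ^ 2 := by gcongr
      _ = X ^ 10 + X ^ 2 := by ring
      _ ≤ X ^ 10 + X ^ 10 := Nat.add_le_add_left (Nat.pow_le_pow_right hX1 (by norm_num)) _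
      _ = 2 * X ^ 10 := by ring
      _ ≤ X * X ^ 10 := Nat.mul_le_mul_right _ (by omega)
      _ = X ^ 11 := by ring
  · -- hbig
    have b1 : 2 ≤ X := by omega
    calc Y * (2 * (X ^ (k * E) * Y ^ n * X ^ z₀)) ≤
          X ^ k * (X * (X ^ (k * E) * X ^ (k * E) * X ^ z₀)) := by
          refine Nat.mul_le_mul hYX (Nat.mul_le_mul b1 (Nat.mul_le_mul_right _
            (Nat.mul_le_mul_left _ ?_)))
          exact (Nat.pow_le_pow_right hY hnE).trans (hYp E)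
      _ = X ^ (k + 1 + k * E + k * E + z₀) := by ring
      _ < X ^ Q.card := by
          refine Nat.pow_lt_pow_right (by omega) (lt_of_lt_of_le ?_ hQ1)
          refine lt_of_lt_of_le ?_ hX''
          have e1 : (2 * k + k + z₀ + 2) * E = 2 * (k * E) + (k + z₀ + 2) * E := by ring
          have e2 : k + z₀ + 2 ≤ (k + z₀ + 2) * E := Nat.le_mul_of_pos_right _ hE1
          rw [e1]
          omega
  · -- hZb
    calc (D + 1) ^ 3 * (((X ^ 2) ^ ρ * (D + 1) ^ ((D + 1) ^ 3) * (D + 1)) * Y ^ (3 * D)) =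
          ((D + 1) ^ 3 * ((D + 1) ^ ((D + 1) ^ 3) * (D + 1))) * ((X ^ 2) ^ ρ * Y ^ (3 * D)) := by
          ring
      _ ≤ X * (X ^ (2 * ρ) * X ^ (k * (3 * D))) := by
          rw [← ha₆, ← pow_mul X 2 ρ]
          exact Nat.mul_le_mul (by omega) (Nat.mul_le_mul_left _ (hYp _))
      _ = X ^ z₀ := by rw [hz₀]; ring
  · -- hy
    calc X ^ z₀ < (X + 1) ^ z₀ := Nat.pow_lt_pow_left (by omega) (by omega)
      _ ≤ (X + 1) ^ n := Nat.pow_le_pow_right (by omega) (by omega)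

end Pool.Agent.Y902.FD
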