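import Mathlib
import Pool.Agent.Y902.FD.Ks

/-!
# The count for one triple of exponents, all cases, with coefficients
-/

set_option autoImplicit false

namespace Pool.Agent.Y902.FD

open Finset MvPolynomial Pool.Agent.Y902.FB

theorem co_pow {a b u v : ℤ} (h : IsCoprime (u * a) (v * b)) (m n : ℕ) :
    IsCoprime (u * a ^ m) (v * b ^ n) := by
  have h1 : ∀ (x y : ℤ) (m : ℕ), x * y ^ m ∣ (x * y) ^ (m + 1) := by
    intro x y m
    exact ⟨x ^ m * y, by ring⟩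
  exact ((h.pow (m := m + 1) (n := n + 1)).of_isCoprime_of_dvd_left (h1 u a m)).of_isCoprime_of_dvd_right
    (h1 v b n)

/-- the points on the surface -/
def SolU (u : Fin 3 → ℤ) (e : Fin 3 → ℕ) (Y : ℕ) : Set (Fin 3 → ℤ) :=
  {t | eval t (FQ u e) = 0 ∧ (∀ i, 0 < t i) ∧ (∀ i, |t i| ≤ (Y : ℤ)) ∧
    ∀ i j, i ≠ j → IsCoprime (u i * t i) (u j * t j)}

theorem SolU_finite (u : Fin 3 → ℤ) (e : Fin 3 → ℕ) (Y : ℕ) : (SolU u e Y).Finite := by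
  refine (Set.Finite.pi' fun _ : Fin 3 => Set.finite_Icc (-(Y : ℤ)) Y).subset ?_
  intro t ht i
  have h := abs_le.1 (ht.2.2.1 i)
  exact ⟨h.1, h.2⟩

/-- exponents of Fermat type -/
theorem count_ft (k N : ℕ) (hk : 1 ≤ k) (hN : 1 ≤ N) : ∃ R M c : ℕ, 1 ≤ c ∧ 1 ≤ M ∧
    ∀ X E Y : ℕ, 1 ≤ E → c * E ^ M ≤ X → 1 ≤ Y → Y ≤ X ^ k →
    ∀ u : Fin 3 → ℤ, (∀ i, u i ≠ 0) → (∀ i, |u i| ≤ ((X ^ (k * E) : ℕ) : ℤ)) →
    (∀ q : ℕ, q.Prime → X ≤ q → ¬ (q : ℤ) ∣ u 2) →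
    ∀ e : Fin 3 → ℕ, (∀ i, 1 ≤ e i) → (∀ i, e i ≤ E) → FT e N →
    ∀ i : Fin 3, R ≤ e i →
    ∀ T : Finset (Fin 3 → ℤ), (∀ t ∈ T, eval t (FQ u e) = 0 ∧ (∀ i, 0 < t i) ∧
      (∀ i, |t i| ≤ (Y : ℤ)) ∧ ∀ i j, i ≠ j → IsCoprime (u i * t i) (u j * t j)) →
    T.card ≤ X ^ 19 := by
  classical
  have hN3 : 1 ≤ N ^ 3 := Nat.one_le_pow _ _ hN
  obtain ⟨R, M, c, hc, hM, h⟩ := count_h (k * N ^ 3) (Nat.mul_pos hk hN3)
  refine ⟨N ^ 3 * (R + 1), M, c, hc, hM, ?_⟩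
  intro X E Y hE1 hX hY hYX u hu hU huq e he hE hFT i hi T hT
  have hX1 : 1 ≤ X := le_trans (Nat.mul_pos hc (Nat.pow_pos hE1)) hX
  obtain ⟨α, hα, hα1, hα2⟩ := hFT
  set Λ : ℕ := Nat.lcm (Nat.lcm (α 0) (α 1)) (α 2) with hΛ
  have hdv : ∀ i, α i ∣ Λ := by
    intro i
    fin_cases i
    · exact (Nat.dvd_lcm_left _ _).trans (Nat.dvd_lcm_left _ _)
    · exact (Nat.dvd_lcm_right _ _).trans (Nat.dvd_lcm_left _ _)
    · exact Nat.dvd_lcm_right _ _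
  have hM' : ∀ i, α i * e i = α 0 * e 0 := by
    intro i
    fin_cases i
    · rfl
    · exact hα1.symm
    · exact (hα1.trans hα2).symm
  have hΛM : Λ ∣ α 0 * e 0 := by
    refine Nat.lcm_dvd (Nat.lcm_dvd (Dvd.intro _ rfl) ?_) ?_
    · rw [← hM' 1]; exact Dvd.intro _ rfl
    · rw [← hM' 2]; exact Dvd.intro _ rfl
  have hΛle : Λ ≤ N ^ 3 := by
    have h1 : Λ ≤ α 0 * α 1 * α 2 := by
      refine Nat.le_of_dvd (Nat.mul_pos (Nat.mul_pos (hα 0).1 (hα 1).1) (hα 2).1) ?_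
      refine Nat.lcm_dvd (Nat.lcm_dvd ?_ ?_) (Dvd.intro_left _ rfl)
      · exact Dvd.dvd.mul_right (Dvd.intro _ rfl) _
      · exact Dvd.dvd.mul_right (Dvd.intro_left _ rfl) _
    calc Λ ≤ α 0 * α 1 * α 2 := h1
      _ ≤ N * N * N := Nat.mul_le_mul (Nat.mul_le_mul (hα 0).2 (hα 1).2) (hα 2).2
      _ = N ^ 3 := by ring
  obtain ⟨t₀, ht₀⟩ := hΛM
  have hβ := fun i => hdv i
  choose β hβ using hβ
  have heβ : ∀ i, e i = t₀ * β i := by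
    intro i
    apply Nat.eq_of_mul_eq_mul_left (hα i).1
    rw [hM' i, ht₀]
    conv_lhs => rw [hβ i]
    ring
  have hβ0 : ∀ i, 0 < β i := by
    intro i
    rcases Nat.eq_zero_or_pos (β i) with h | h
    · have := heβ i
      rw [h, mul_zero] at this
      have h1 := he i
      omega
    · exact h
  have hβΛ : ∀ i, β i ≤ N ^ 3 := by
    intro i
    refine le_trans ?_ hΛle
    conv_rhs => rw [hβ i]
    exact Nat.le_mul_of_pos_left _ (hα i).1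
  have ht₀E : t₀ ≤ E := by
    have h1 := heβ 0
    have h2 := hE 0
    have h3 : t₀ ≤ t₀ * β 0 := Nat.le_mul_of_pos_right _ (hβ0 0)
    omega
  have ht₀big : R + 1 ≤ t₀ := by
    by_contra hcon
    push Not at hcon
    have h1 : e i ≤ t₀ * N ^ 3 := by rw [heβ i]; exact Nat.mul_le_mul_left _ (hβΛ i)
    have h2 : t₀ * N ^ 3 < (R + 1) * N ^ 3 := Nat.mul_lt_mul_of_pos_right hcon (by omega)
    have h3 : N ^ 3 * (R + 1) = (R + 1) * N ^ 3 := by ring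
    omega
  -- the map
  set f : (Fin 3 → ℤ) → (Fin 3 → ℤ) := fun t i => t i ^ β i with hf
  have hinj : Set.InjOn f (T : Set (Fin 3 → ℤ)) := by
    intro t ht t' ht' heq
    funext i
    have h1 := congrFun heq i
    simp only [hf] at h1
    exact (pow_left_inj₀ ((hT t ht).2.1 i).le ((hT t' ht').2.1 i).le (hβ0 i).ne').1 h1
  rw [← Finset.card_image_of_injOn hinj]
  refine h X E (Y ^ (N ^ 3)) hE1 hX (Nat.one_le_pow _ _ hY) ?_ u hu ?_ huq (fun _ => t₀) t₀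
    (fun _ => rfl) ht₀big ht₀E (T.image f) ?_
  · calc Y ^ N ^ 3 ≤ (X ^ k) ^ N ^ 3 := Nat.pow_le_pow_left hYX _
      _ = X ^ (k * N ^ 3) := by rw [pow_mul]
  · intro i
    refine (hU i).trans ?_
    have : k * E ≤ k * N ^ 3 * E := Nat.mul_le_mul_right _ (Nat.le_mul_of_pos_right _ hN3)
    exact_mod_cast Nat.pow_le_pow_right hX1 this
  · intro x hx
    obtain ⟨t, ht, rfl⟩ := Finset.mem_image.1 hx
    obtain ⟨h1, h2, h3, h4⟩ := hT t ht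
    refine ⟨?_, fun i => pow_pos (h2 i) _, fun i => ?_, fun i j hij => co_pow (h4 i j hij) _ _⟩
    · rw [eval_FQ] at h1 ⊢
      simp only [hf]
      rw [← pow_mul, ← pow_mul, ← pow_mul, mul_comm (β 0), mul_comm (β 1), mul_comm (β 2),
        ← heβ, ← heβ, ← heβ]
      exact h1
    · simp only [hf]
      exact abs_pow_le_pow (h3 i) hY (hβΛ i)

/-- all exponents bounded, two of them large -/
theorem count_all (k : ℕ) (hk : 1 ≤ k) : ∃ Rs A M : ℕ, 1 ≤ Rs ∧ 1 ≤ A ∧ 1 ≤ M ∧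
    ∀ X E Y : ℕ, 1 ≤ E → A * E ^ M ≤ X → 1 ≤ Y → Y ≤ X ^ k →
    ∀ u : Fin 3 → ℤ, (∀ i, u i ≠ 0) → (∀ i, |u i| ≤ ((X ^ (k * E) : ℕ) : ℤ)) →
    (∀ q : ℕ, q.Prime → X ≤ q → ¬ (q : ℤ) ∣ u 2) →
    ∀ e : Fin 3 → ℕ, (∀ i, 1 ≤ e i) → (∀ i, e i ≤ E) →
    ∀ i j : Fin 3, i ≠ j → Rs ≤ e i → Rs ≤ e j → (SolU u e Y).ncard ≤ X ^ 19 := by
  obtain ⟨R, D, M, c, hD, hc, hM, h⟩ := count_k k hk
  obtain ⟨R', M', c', hc', hM', h'⟩ := count_ft k (D ^ 2) hk (Nat.one_le_pow _ _ hD)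
  refine ⟨R + R' + 1, c + c', M + M', by omega, by omega, by omega, ?_⟩
  intro X E Y hE1 hX hY hYX u hu hU huq e he hE i j hij hi hj
  have hcX : c * E ^ M ≤ X := by
    refine le_trans ?_ hX
    exact Nat.mul_le_mul (by omega) (Nat.pow_le_pow_right hE1 (by omega))
  have hcX' : c' * E ^ M' ≤ X := by
    refine le_trans ?_ hX
    exact Nat.mul_le_mul (by omega) (Nat.pow_le_pow_right hE1 (by omega))
  rw [Set.ncard_eq_toFinset_card _ (SolU_finite u e Y)]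
  have hT : ∀ t ∈ (SolU_finite u e Y).toFinset, eval t (FQ u e) = 0 ∧ (∀ i, 0 < t i) ∧
      (∀ i, |t i| ≤ (Y : ℤ)) ∧ ∀ i j, i ≠ j → IsCoprime (u i * t i) (u j * t j) := by
    intro t ht
    rw [Set.Finite.mem_toFinset] at ht
    exact ht
  by_cases hFT : FT e (D ^ 2)
  · exact h' X E Y hE1 hcX' hY hYX u hu hU huq e he hE hFT i (by omega) _ hT
  · exact h X E Y hE1 hcX hY hYX u hu hU huq e he hE hFT i j hij (by omega) (by omega) _ hT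

end Pool.Agent.Y902.FD
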