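import Mathlib
import Pool.Agent.Y902.FD.All
import Pool.Agent.Y902.FB.SixB

/-!
# The generalised Fermat equation with coefficients: counting by bases, two large exponents
-/

set_option autoImplicit false

namespace Pool.Agent.Y902.FD

open Finset MvPolynomial Pool.Agent.Y902.FB

/-- The triples of terms of the solutions of `a x ^ l + b y ^ m = c z ^ n` with coefficients in `𝒞`,
`gcd (a x, b y, c z) = 1`, bases at most `Y`, two exponents at least `R`, and terms at most `V`. -/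
def Two (𝒞 : Finset ℤ) (Y R : ℕ) (V : ℝ) : Set (ℤ × ℤ × ℤ) :=
  {v | ∃ (a b c x y z : ℤ) (l m n : ℕ), a ∈ 𝒞 ∧ b ∈ 𝒞 ∧ c ∈ 𝒞 ∧ x ≠ 0 ∧ y ≠ 0 ∧ z ≠ 0 ∧
    |x| ≤ Y ∧ |y| ≤ Y ∧ |z| ≤ Y ∧ 1 ≤ l ∧ 1 ≤ m ∧ 1 ≤ n ∧
    ((R ≤ l ∧ R ≤ m) ∨ (R ≤ l ∧ R ≤ n) ∨ (R ≤ m ∧ R ≤ n)) ∧
    IsCoprime (a * x) (b * y) ∧ IsCoprime (a * x) (c * z) ∧ IsCoprime (b * y) (c * z) ∧
    a * x ^ l + b * y ^ m = c * z ^ n ∧ ((|a * x ^ l| : ℤ) : ℝ) ≤ V ∧ ((|b * y ^ m| : ℤ) : ℝ) ≤ V ∧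
    ((|c * z ^ n| : ℤ) : ℝ) ≤ V ∧ v = (a * x ^ l, b * y ^ m, c * z ^ n)}

/-- positive bases and bounded exponents -/
theorem normal {a x : ℤ} {l Y E Rs : ℕ} {V : ℝ} (ha : a ≠ 0) (hx : x ≠ 0) (hxY : |x| ≤ Y)
    (hl : 1 ≤ l) (hRs : 1 ≤ Rs) (hRE : Rs ≤ E) (hV : V ≤ (2 : ℝ) ^ E)
    (h : ((|a * x ^ l| : ℤ) : ℝ) ≤ V) :
    ∃ (u t : ℤ) (e : ℕ), (u = a ∨ u = -a) ∧ 0 < t ∧ |t| ≤ Y ∧ 1 ≤ e ∧ e ≤ E ∧
      (Rs ≤ l → Rs ≤ e) ∧ u * t ^ e = a * x ^ l ∧ (u * t = a * x ∨ u * t = -(a * x)) := by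
  obtain ⟨b, hb⟩ := sgn_cases x
  set σ : ℤ := if b then 1 else -1 with hσ
  set t : ℤ := (x.natAbs : ℤ) with ht
  have ht0 : 0 < t := by rw [ht]; exact_mod_cast Int.natAbs_pos.2 hx
  have htx : |t| = |x| := by rw [ht, Nat.abs_cast, Int.abs_eq_natAbs]
  have hσ1 : σ = 1 ∨ σ = -1 := by
    rw [hσ]; split_ifs
    · exact Or.inl rfl
    · exact Or.inr rfl
  have hσl : σ ^ l = 1 ∨ σ ^ l = -1 := by
    rcases hσ1 with h1 | h1
    · left; rw [h1, one_pow]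
    · rw [h1]; exact neg_one_pow_eq_or ℤ l
  obtain ⟨e, he1, he2, he3, he4⟩ : ∃ e : ℕ, 1 ≤ e ∧ e ≤ E ∧ (Rs ≤ l → Rs ≤ e) ∧ t ^ e = t ^ l := by
    by_cases h1 : t = 1
    · exact ⟨Rs, hRs, hRE, fun _ => le_rfl, by rw [h1, one_pow, one_pow]⟩
    · refine ⟨l, hl, ?_, fun h => h, rfl⟩
      have h2 : 2 ≤ |x| := by rw [← htx, abs_of_pos ht0]; omega
      have h3 : (2 : ℤ) ^ l ≤ |a * x ^ l| := by
        rw [abs_mul, abs_pow]
        have h4 : (2 : ℤ) ^ l ≤ |x| ^ l := pow_le_pow_left₀ (by norm_num) h2 l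
        exact h4.trans (le_mul_of_one_le_left (pow_nonneg (abs_nonneg _) _) (Int.one_le_abs ha))
      have h5 : ((2 : ℝ)) ^ l ≤ (2 : ℝ) ^ E := by
        have h6 : (((2 : ℤ) ^ l : ℤ) : ℝ) ≤ ((|a * x ^ l| : ℤ) : ℝ) := by exact_mod_cast h3
        push_cast at h6
        push_cast at h
        exact h6.trans (h.trans hV)
      exact (pow_le_pow_iff_right₀ (by norm_num : (1 : ℝ) < 2)).1 h5
  have hxl : x ^ l = σ ^ l * t ^ l := by
    conv_lhs => rw [hb]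
    rw [mul_pow]
  refine ⟨a * σ ^ l, t, e, ?_, ht0, by rw [htx]; exact hxY, he1, he2, he3, ?_, ?_⟩
  · rcases hσl with h1 | h1
    · left; rw [h1, mul_one]
    · right; rw [h1]; ring
  · rw [he4, hxl]; ring
  · have hx' : x = σ * t := hb
    rcases hσ1 with h1 | h1 <;> rcases hσl with h2 | h2
    · left; rw [h2, hx', h1]; ring
    · right; rw [h2, hx', h1]; ring
    · right; rw [h2, hx', h1]; ring
    · left; rw [h2, hx', h1]; ring

theorem co_sign {p q r s : ℤ} (h : IsCoprime r s) (h1 : p = r ∨ p = -r) (h2 : q = s ∨ q = -s) :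
    IsCoprime p q := by
  rcases h1 with h1 | h1 <;> rcases h2 with h2 | h2 <;> rw [h1, h2]
  · exact h
  · exact h.neg_right
  · exact h.neg_left
  · exact h.neg_left.neg_right

/-- **Two large exponents.** -/
theorem main_two (ε : ℝ) (hε : 0 < ε) : ∃ (R : ℕ) (δ : ℝ) (Y₀ : ℕ), 0 < δ ∧ ∀ Y : ℕ, Y₀ ≤ Y →
    ∀ 𝒞 : Finset ℤ, (𝒞.card : ℝ) ≤ (Y : ℝ) ^ δ →
    (∀ a ∈ 𝒞, a ≠ 0 ∧ ((|a| : ℤ) : ℝ) ≤ Real.exp ((Y : ℝ) ^ δ) ∧
      ∀ q : ℕ, q.Prime → (q : ℤ) ∣ a → (q : ℝ) ≤ (Y : ℝ) ^ δ) →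
    (Two 𝒞 Y R (Real.exp ((Y : ℝ) ^ δ))).Finite ∧
      ((Two 𝒞 Y R (Real.exp ((Y : ℝ) ^ δ))).ncard : ℝ) ≤ (Y : ℝ) ^ ε := by
  classical
  -- the parameters
  obtain ⟨k, hkε⟩ := exists_nat_ge (50 / ε + 1)
  have hk0 : (0 : ℝ) < k := lt_of_lt_of_le (by positivity) hkε
  have hk : 1 ≤ k := by exact_mod_cast (show (0 : ℝ) < k from hk0)
  have hk2 : 25 / (k : ℝ) ≤ ε / 2 := by
    rw [div_le_div_iff₀ hk0 (by norm_num)]
    have h1 : 50 / ε ≤ k := by linarith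
    rw [div_le_iff₀ hε] at h1
    linarith
  obtain ⟨Rs, A, M, hRs, hA, hM, hcount⟩ := count_all k hk
  have hM0 : (0 : ℝ) < M := by exact_mod_cast hM
  set δ : ℝ := 1 / (2 * k * M) with hδ
  have hδ0 : 0 < δ := by rw [hδ]; positivity
  have hM1 : (1 : ℝ) ≤ M := by exact_mod_cast hM
  have hδk : δ < 1 / (k : ℝ) := by
    rw [hδ, div_lt_div_iff₀ (by positivity) hk0]
    nlinarith
  have hδM : δ * M = 1 / (2 * k) := by
    rw [hδ]; field_simp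
  have hgap : δ * M < 1 / (k : ℝ) := by
    rw [hδM, div_lt_div_iff₀ (by positivity) hk0]
    linarith
  obtain ⟨Y₁, hY₁⟩ := Pool.Agent.W232.FC.ev_const ((A : ℝ) * (4 : ℝ) ^ M) (1 / (k : ℝ) - δ * M)
    (by linarith)
  obtain ⟨Y₂, hY₂⟩ := Pool.Agent.W232.FC.ev_const ((2 : ℝ) ^ 25) (ε / 2) (by positivity)
  obtain ⟨Y₃, hY₃⟩ := Pool.Agent.W232.FC.ev_const ((Rs : ℝ) + 2) δ hδ0
  obtain ⟨Y₄, hY₄⟩ := Pool.Agent.W232.FC.ev_const (2 : ℝ) (1 / (k : ℝ) - δ) (by linarith)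
  refine ⟨Rs, δ, Y₁ + Y₂ + Y₃ + Y₄ + 2, hδ0, fun Y hY 𝒞 hcard h𝒞 => ?_⟩
  have hYpos : 1 ≤ Y := by omega
  have hY1 : (1 : ℝ) ≤ Y := by exact_mod_cast hYpos
  have hY0 : (0 : ℝ) < Y := by linarith
  have g₁ := hY₁ Y (by omega)
  have g₂ := hY₂ Y (by omega)
  have g₃ := hY₃ Y (by omega)
  have g₄ := hY₄ Y (by omega)
  set Z : ℝ := (Y : ℝ) ^ δ with hZ
  have hZ1 : 1 ≤ Z := Real.one_le_rpow hY1 hδ0.le
  obtain ⟨X, hX⟩ : ∃ X, X = ⌈(Y : ℝ) ^ (1 / (k : ℝ))⌉₊ := ⟨_, rfl⟩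
  have hXle : (Y : ℝ) ^ (1 / (k : ℝ)) ≤ X := by rw [hX]; exact Nat.le_ceil _
  have hYk1 : (1 : ℝ) ≤ (Y : ℝ) ^ (1 / (k : ℝ)) := Real.one_le_rpow hY1 (by positivity)
  have hXlt : (X : ℝ) ≤ 2 * (Y : ℝ) ^ (1 / (k : ℝ)) := by
    have := Nat.ceil_lt_add_one (show 0 ≤ (Y : ℝ) ^ (1 / (k : ℝ)) by positivity)
    rw [← hX] at this
    linarith
  have hX1 : 1 ≤ X := by
    have : (1 : ℝ) ≤ X := hYk1.trans hXle
    exact_mod_cast this
  have hZX : 2 * Z ≤ X := by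
    refine le_trans ?_ hXle
    calc 2 * Z ≤ (Y : ℝ) ^ (1 / (k : ℝ) - δ) * Z := mul_le_mul_of_nonneg_right g₄ (by linarith)
      _ = (Y : ℝ) ^ (1 / (k : ℝ)) := by
          rw [hZ, ← Real.rpow_add hY0]; congr 1; ring
  obtain ⟨E, hE⟩ : ∃ E, E = ⌈2 * Z⌉₊ + Rs := ⟨_, rfl⟩
  have hE2Z : 2 * Z ≤ E := by
    rw [hE]; push_cast
    have := Nat.le_ceil (2 * Z)
    have h0 : (0 : ℝ) ≤ Rs := by positivity
    linarith
  have hE1 : 1 ≤ E := by omega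
  have hE4 : (E : ℝ) ≤ 4 * Z := by
    rw [hE]; push_cast
    have := Nat.ceil_lt_add_one (show 0 ≤ 2 * Z by linarith)
    linarith
  have hAE : A * E ^ M ≤ X := by
    have h3 : ((A * E ^ M : ℕ) : ℝ) ≤ X := by
      push_cast
      calc (A : ℝ) * (E : ℝ) ^ M ≤ (A : ℝ) * (4 * Z) ^ M := by gcongr
        _ = ((A : ℝ) * 4 ^ M) * Z ^ M := by rw [mul_pow]; ring
        _ ≤ (Y : ℝ) ^ (1 / (k : ℝ) - δ * M) * Z ^ M :=
            mul_le_mul_of_nonneg_right g₁ (by positivity)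
        _ = (Y : ℝ) ^ (1 / (k : ℝ)) := by
            rw [hZ, ← Real.rpow_natCast ((Y : ℝ) ^ δ) M, ← Real.rpow_mul hY0.le,
              ← Real.rpow_add hY0]
            congr 1; ring
        _ ≤ X := hXle
    exact_mod_cast h3
  have hEX : E ≤ X := by
    refine le_trans ?_ hAE
    calc E ≤ E ^ M := Nat.le_self_pow (by omega) E
      _ ≤ A * E ^ M := Nat.le_mul_of_pos_left _ hA
  have hX2 : 2 ≤ X := by
    have : (2 : ℝ) ≤ X := by linarith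
    exact_mod_cast this
  have hYX : Y ≤ X ^ k := by
    have h1 : ((Y : ℝ) ^ (1 / (k : ℝ))) ^ k ≤ (X : ℝ) ^ k :=
      pow_le_pow_left₀ (by positivity) hXle k
    rw [← Real.rpow_natCast ((Y : ℝ) ^ (1 / (k : ℝ))) k, ← Real.rpow_mul hY0.le,
      one_div_mul_cancel hk0.ne', Real.rpow_one] at h1
    exact_mod_cast h1
  have hV : Real.exp Z ≤ (2 : ℝ) ^ E := by
    have h1 : Real.exp Z ≤ Real.exp (Real.log 2 * E) := by
      apply Real.exp_le_exp.2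
      have h2 : (0.6931471803 : ℝ) < Real.log 2 := Real.log_two_gt_d9
      nlinarith
    rwa [mul_comm, Real.exp_nat_mul, Real.exp_log (by norm_num)] at h1
  -- signed coefficients
  set 𝒟 : Finset ℤ := 𝒞 ∪ 𝒞.image (fun a => -a) with h𝒟
  have h𝒟mem : ∀ a ∈ 𝒞, ∀ u, (u = a ∨ u = -a) → u ∈ 𝒟 := by
    rintro a ha u (rfl | rfl)
    · exact Finset.mem_union_left _ ha
    · exact Finset.mem_union_right _ (Finset.mem_image_of_mem _ ha)
  have h𝒟prop : ∀ u ∈ 𝒟, u ≠ 0 ∧ |u| ≤ ((X ^ (k * E) : ℕ) : ℤ) ∧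
      ∀ q : ℕ, q.Prime → X ≤ q → ¬ (q : ℤ) ∣ u := by
    have h0 : ∀ a ∈ 𝒞, |a| ≤ ((X ^ (k * E) : ℕ) : ℤ) := by
      intro a ha
      have h1 := (h𝒞 a ha).2.1
      have h2 : ((|a| : ℤ) : ℝ) ≤ ((X ^ (k * E) : ℕ) : ℝ) := by
        refine h1.trans (hV.trans ?_)
        have h3 : 2 ^ E ≤ X ^ (k * E) := by
          calc 2 ^ E ≤ X ^ E := Nat.pow_le_pow_left hX2 E
            _ ≤ X ^ (k * E) := Nat.pow_le_pow_right hX1 (Nat.le_mul_of_pos_left _ hk)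
        exact_mod_cast h3
      have h3 : ((|a| : ℤ) : ℝ) ≤ ((((X ^ (k * E) : ℕ) : ℤ)) : ℝ) := by
        push_cast at h2 ⊢; exact h2
      exact_mod_cast h3
    have h1 : ∀ a ∈ 𝒞, ∀ q : ℕ, q.Prime → X ≤ q → ¬ (q : ℤ) ∣ a := by
      intro a ha q hq hXq hdv
      have h2 := (h𝒞 a ha).2.2 q hq hdv
      have h3 : (X : ℝ) ≤ q := by exact_mod_cast hXq
      linarith
    intro u hu
    rw [h𝒟, Finset.mem_union, Finset.mem_image] at hu
    rcases hu with h | ⟨a, ha, rfl⟩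
    · exact ⟨(h𝒞 u h).1, h0 u h, h1 u h⟩
    · refine ⟨neg_ne_zero.2 (h𝒞 a ha).1, by rw [abs_neg]; exact h0 a ha, fun q hq hXq => ?_⟩
      rw [dvd_neg]
      exact h1 a ha q hq hXq
  have h𝒟card : (𝒟.card : ℝ) ≤ 2 * Z := by
    have h1 : 𝒟.card ≤ 𝒞.card + 𝒞.card :=
      (Finset.card_union_le _ _).trans (Nat.add_le_add_left Finset.card_image_le _)
    have h2 : (𝒟.card : ℝ) ≤ 𝒞.card + 𝒞.card := by exact_mod_cast h1
    linarith
  have h𝒟X : 𝒟.card ≤ X := by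
    have : (𝒟.card : ℝ) ≤ X := h𝒟card.trans hZX
    exact_mod_cast this
  -- the finite set
  set Cf : Finset (Fin 3 → ℤ) := Fintype.piFinset fun _ : Fin 3 => 𝒟 with hCf
  set Box : Finset (Fin 3 → ℕ) := (Fintype.piFinset fun _ : Fin 3 => Finset.Icc 1 E).filter
    fun e => ∃ i j : Fin 3, i ≠ j ∧ Rs ≤ e i ∧ Rs ≤ e j with hBox
  have hBoxc : Box.card ≤ E ^ 3 := by
    refine (Finset.card_filter_le _ _).trans ?_
    rw [Fintype.card_piFinset]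
    simp
  have hCfc : Cf.card ≤ X ^ 3 := by
    rw [hCf, Fintype.card_piFinset]
    simp only [Finset.prod_const, Finset.card_univ, Fintype.card_fin]
    exact Nat.pow_le_pow_left h𝒟X 3
  set vl : (Fin 3 → ℤ) → (Fin 3 → ℕ) → (Fin 3 → ℤ) → ℤ × ℤ × ℤ := fun u e t =>
    (u 0 * t 0 ^ e 0, u 1 * t 1 ^ e 1, -(u 2 * t 2 ^ e 2)) with hvl
  set F : Finset (ℤ × ℤ × ℤ) := (Cf ×ˢ Box).biUnion
    fun p => (SolU_finite p.1 p.2 Y).toFinset.image (vl p.1 p.2) with hF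
  have hFc : F.card ≤ X ^ 25 := by
    refine (Finset.card_biUnion_le_card_mul _ _ (X ^ 19) fun p hp => ?_).trans ?_
    · refine Finset.card_image_le.trans ?_
      rw [← Set.ncard_eq_toFinset_card _ (SolU_finite p.1 p.2 Y)]
      obtain ⟨hp1, hp2⟩ := Finset.mem_product.1 hp
      obtain ⟨he1, i, j, hij, hi, hj⟩ := Finset.mem_filter.1 hp2
      rw [Fintype.mem_piFinset] at he1
      rw [hCf, Fintype.mem_piFinset] at hp1
      exact hcount X E Y hE1 hAE hYpos hYX p.1 (fun i => (h𝒟prop _ (hp1 i)).1)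
        (fun i => (h𝒟prop _ (hp1 i)).2.1) (fun q hq hXq => (h𝒟prop _ (hp1 2)).2.2 q hq hXq) p.2
        (fun i => (Finset.mem_Icc.1 (he1 i)).1) (fun i => (Finset.mem_Icc.1 (he1 i)).2) i j hij hi hj
    · rw [Finset.card_product]
      calc Cf.card * Box.card * X ^ 19 ≤ X ^ 3 * X ^ 3 * X ^ 19 :=
            Nat.mul_le_mul_right _ (Nat.mul_le_mul hCfc (hBoxc.trans (Nat.pow_le_pow_left hEX 3)))
        _ = X ^ 25 := by ring
  have hsub : Two 𝒞 Y Rs (Real.exp Z) ⊆ (F : Set (ℤ × ℤ × ℤ)) := by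
    rintro v ⟨a, b, c, x, y, z, l, m, n, ha, hb, hc, hx, hy, hz, hxY, hyY, hzY, hl, hm, hn, hR,
      k1, k2, k3, heq, v1, v2, v3, rfl⟩
    obtain ⟨u0, t0, e0, a1, a2, a3, a4, a5, a6, a7, a8⟩ := normal (Rs := Rs) (h𝒞 a ha).1 hx hxY hl
      hRs (by omega) hV v1
    obtain ⟨u1, t1, e1, b1, b2, b3, b4, b5, b6, b7, b8⟩ := normal (Rs := Rs) (h𝒞 b hb).1 hy hyY hm
      hRs (by omega) hV v2
    obtain ⟨u2, t2, e2, c1, c2, c3, c4, c5, c6, c7, c8⟩ := normal (Rs := Rs) (h𝒞 c hc).1 hz hzY hn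
      hRs (by omega) hV v3
    rw [hF, Finset.mem_coe, Finset.mem_biUnion]
    refine ⟨(![u0, u1, -u2], ![e0, e1, e2]), ?_, ?_⟩
    · rw [Finset.mem_product]
      constructor
      · rw [hCf, Fintype.mem_piFinset]
        intro i
        fin_cases i
        · exact h𝒟mem a ha _ a1
        · exact h𝒟mem b hb _ b1
        · refine h𝒟mem c hc _ ?_
          simp only [Fin.reduceFinMk, Matrix.cons_val]
          rcases c1 with h | h
          · right; rw [h]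
          · left; rw [h, neg_neg]
      · rw [hBox, Finset.mem_filter, Fintype.mem_piFinset]
        refine ⟨fun i => ?_, ?_⟩
        · fin_cases i
          · exact Finset.mem_Icc.2 ⟨a4, a5⟩
          · exact Finset.mem_Icc.2 ⟨b4, b5⟩
          · exact Finset.mem_Icc.2 ⟨c4, c5⟩
        · rcases hR with h | h | h
          · exact ⟨0, 1, by decide, a6 h.1, b6 h.2⟩
          · exact ⟨0, 2, by decide, a6 h.1, c6 h.2⟩
          · exact ⟨1, 2, by decide, b6 h.1, c6 h.2⟩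
    · rw [Finset.mem_image]
      refine ⟨![t0, t1, t2], ?_, ?_⟩
      · rw [Set.Finite.mem_toFinset]
        refine ⟨?_, ?_, ?_, ?_⟩
        · rw [eval_FQ]
          simp only [Matrix.cons_val_zero, Matrix.cons_val_one, Matrix.cons_val]
          rw [a7, b7]
          linarith
        · intro i; fin_cases i
          · exact a2
          · exact b2
          · exact c2
        · intro i; fin_cases i
          · exact a3
          · exact b3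
          · exact c3
        · have c8' : -u2 * t2 = c * z ∨ -u2 * t2 = -(c * z) := by
            rcases c8 with h | h
            · right; rw [← h]; ring
            · left; rw [neg_mul, h, neg_neg]
          have q1 : IsCoprime (u0 * t0) (u1 * t1) := co_sign k1 a8 b8
          have q2 : IsCoprime (u0 * t0) (-u2 * t2) := co_sign k2 a8 c8'
          have q3 : IsCoprime (u1 * t1) (-u2 * t2) := co_sign k3 b8 c8'
          intro i j hij
          fin_cases i <;> fin_cases j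
          · exact absurd rfl hij
          · exact q1
          · exact q2
          · exact q1.symm
          · exact absurd rfl hij
          · exact q3
          · exact q2.symm
          · exact q3.symm
          · exact absurd rfl hij
      · simp only [hvl, Matrix.cons_val_zero, Matrix.cons_val_one, Matrix.cons_val]
        rw [a7, b7, neg_mul, neg_neg, c7]
  refine ⟨(Finset.finite_toSet F).subset hsub, ?_⟩
  have h1 : (Two 𝒞 Y Rs (Real.exp Z)).ncard ≤ X ^ 25 := by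
    refine le_trans ?_ hFc
    rw [← Set.ncard_coe_finset]
    exact Set.ncard_le_ncard hsub (Finset.finite_toSet F)
  calc ((Two 𝒞 Y Rs (Real.exp Z)).ncard : ℝ) ≤ (X : ℝ) ^ 25 := by exact_mod_cast h1
    _ ≤ (2 * (Y : ℝ) ^ (1 / (k : ℝ))) ^ 25 := by gcongr
    _ = (2 : ℝ) ^ 25 * (Y : ℝ) ^ (25 / (k : ℝ)) := by
        rw [mul_pow, ← Real.rpow_natCast ((Y : ℝ) ^ (1 / (k : ℝ))) 25, ← Real.rpow_mul hY0.le]
        congr 2
        push_cast
        ring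
    _ ≤ (Y : ℝ) ^ (ε / 2) * (Y : ℝ) ^ (ε / 2) := by
        apply mul_le_mul g₂ _ (by positivity) (by positivity)
        exact Real.rpow_le_rpow_of_exponent_le hY1 hk2
    _ = (Y : ℝ) ^ ε := by rw [← Real.rpow_add hY0]; congr 1; ring

end Pool.Agent.Y902.FD
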