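import Mathlib
import Pool.Agent.Y902.FD.Asm
import Pool.Agent.W232.FC.Fin2

/-!
# `S`-unit coefficients, and coefficients with a small radical
-/

set_option autoImplicit false

namespace Pool.Agent.Y902.FD

open Finset MvPolynomial Pool.Agent.Y902.FB

/-- pairwise coprimality -/
theorem co3 {a b c x y z : ℤ} {l m n : ℕ} (hl : 1 ≤ l) (hm : 1 ≤ m) (hn : 1 ≤ n)
    (h : a * x ^ l + b * y ^ m = c * z ^ n)
    (hg : Int.gcd ((Int.gcd (a * x) (b * y) : ℕ) : ℤ) (c * z) = 1) :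
    IsCoprime (a * x) (b * y) ∧ IsCoprime (a * x) (c * z) ∧ IsCoprime (b * y) (c * z) := by
  have key : ∀ p : ℕ, p.Prime → ¬ ((p : ℤ) ∣ a * x ∧ (p : ℤ) ∣ b * y ∧ (p : ℤ) ∣ c * z) := by
    rintro p hp ⟨h1, h2, h3⟩
    have h4 : (p : ℤ) ∣ Int.gcd (a * x) (b * y) := Int.dvd_coe_gcd h1 h2
    have h5 : (p : ℤ) ∣ Int.gcd (Int.gcd (a * x) (b * y)) (c * z) := Int.dvd_coe_gcd h4 h3
    rw [hg] at h5
    have h6 : p ∣ 1 := by exact_mod_cast h5
    exact hp.one_lt.ne' (Nat.dvd_one.1 h6)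
  have hpow : ∀ p : ℕ, p.Prime → ∀ (a x : ℤ) (l : ℕ), 1 ≤ l → ((p : ℤ) ∣ a * x ↔ (p : ℤ) ∣ a * x ^ l) := by
    intro p hp a x l hl
    have hpi : Prime (p : ℤ) := Nat.prime_iff_prime_int.1 hp
    constructor
    · intro h1
      rcases hpi.dvd_or_dvd h1 with h2 | h2
      · exact Dvd.dvd.mul_right h2 _
      · exact Dvd.dvd.mul_left (dvd_pow h2 (by omega)) _
    · intro h1
      rcases hpi.dvd_or_dvd h1 with h2 | h2
      · exact Dvd.dvd.mul_right h2 _
      · exact Dvd.dvd.mul_left (hpi.dvd_of_dvd_pow h2) _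
  have hcop : ∀ u v : ℤ, (∀ p : ℕ, p.Prime → (p : ℤ) ∣ u → (p : ℤ) ∣ v → False) → IsCoprime u v := by
    intro u v huv
    rw [Int.isCoprime_iff_gcd_eq_one]
    by_contra hne
    obtain ⟨p, hp, hpd⟩ := Nat.exists_prime_and_dvd hne
    have h1 : (p : ℤ) ∣ Int.gcd u v := by exact_mod_cast hpd
    exact huv p hp (h1.trans (Int.gcd_dvd_left _ _)) (h1.trans (Int.gcd_dvd_right _ _))
  refine ⟨hcop _ _ fun p hp h1 h2 => ?_, hcop _ _ fun p hp h1 h2 => ?_, hcop _ _ fun p hp h1 h2 => ?_⟩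
  · refine key p hp ⟨h1, h2, (hpow p hp c z n hn).2 ?_⟩
    rw [← h]
    exact dvd_add ((hpow p hp a x l hl).1 h1) ((hpow p hp b y m hm).1 h2)
  · refine key p hp ⟨h1, (hpow p hp b y m hm).2 ?_, h2⟩
    have e : b * y ^ m = c * z ^ n - a * x ^ l := by linarith
    rw [e]
    exact dvd_sub ((hpow p hp c z n hn).1 h2) ((hpow p hp a x l hl).1 h1)
  · refine key p hp ⟨(hpow p hp a x l hl).2 ?_, h1, h2⟩
    have e : a * x ^ l = c * z ^ n - b * y ^ m := by linarith
    rw [e]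
    exact dvd_sub ((hpow p hp c z n hn).1 h2) ((hpow p hp b y m hm).1 h1)

/-- `S`-units of bounded size -/
theorem sunits (S : Finset ℕ) (W : ℝ) (hW : 0 ≤ W) : ∃ 𝒞 : Finset ℤ,
    (𝒞.card : ℝ) ≤ 2 * (2 * W + 3) ^ S.card ∧
    (∀ a ∈ 𝒞, a ≠ 0 ∧ ((|a| : ℤ) : ℝ) ≤ Real.exp W ∧ ∀ q : ℕ, q.Prime → (q : ℤ) ∣ a → q ∈ S) ∧
    ∀ a : ℤ, a ≠ 0 → ((|a| : ℤ) : ℝ) ≤ Real.exp W → (∀ q : ℕ, q.Prime → (q : ℤ) ∣ a → q ∈ S) →
      a ∈ 𝒞 := by
  classical
  set P : Finset ℕ := S.filter Nat.Prime with hP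
  set Pr : ℕ := ∏ p ∈ P, p with hPr
  obtain ⟨N, hN⟩ : ∃ N, N = ⌈2 * W⌉₊ + 1 := ⟨_, rfl⟩
  have hPp : ∀ p ∈ P, p.Prime := fun p hp => (Finset.mem_filter.1 hp).2
  have hPr0 : Pr ≠ 0 := Finset.prod_ne_zero_iff.2 fun p hp => (hPp p hp).ne_zero
  have hfac : ∀ p, p.Prime → Pr.factorization p = if p ∈ P then 1 else 0 := by
    intro p hp
    rw [hPr, Nat.factorization_prod fun q hq => (hPp q hq).ne_zero, Finsupp.finsetSum_apply]
    rw [Finset.sum_congr rfl fun q hq => by rw [(hPp q hq).factorization, Finsupp.single_apply]]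
    rw [Finset.sum_ite_eq' P p]
  have hdiv : (Pr ^ N).divisors.card ≤ (N + 1) ^ P.card := by
    rw [Nat.card_divisors (pow_ne_zero _ hPr0)]
    have h1 : (Pr ^ N).primeFactors ⊆ P := by
      intro p hp
      have hpp := Nat.prime_of_mem_primeFactors hp
      have h2 := hpp.dvd_of_dvd_pow (Nat.dvd_of_mem_primeFactors hp)
      by_contra hcon
      have h3 := hfac p hpp
      rw [if_neg hcon] at h3
      have h4 := (hpp.dvd_iff_one_le_factorization hPr0).1 h2
      omega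
    calc ∏ x ∈ (Pr ^ N).primeFactors, ((Pr ^ N).factorization x + 1) ≤
          ∏ _x ∈ (Pr ^ N).primeFactors, (N + 1) := by
          refine Finset.prod_le_prod' fun x hx => ?_
          have hxp := Nat.prime_of_mem_primeFactors hx
          rw [Nat.factorization_pow, Finsupp.smul_apply, smul_eq_mul, hfac x hxp]
          split_ifs <;> omega
      _ = (N + 1) ^ (Pr ^ N).primeFactors.card := by rw [Finset.prod_const]
      _ ≤ (N + 1) ^ P.card := Nat.pow_le_pow_right (by omega) (Finset.card_le_card h1)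
  set 𝒟 : Finset ℤ := (Pr ^ N).divisors.image (fun d : ℕ => (d : ℤ)) with h𝒟
  set 𝒞 : Finset ℤ := (𝒟 ∪ 𝒟.image fun a => -a).filter fun a => ((|a| : ℤ) : ℝ) ≤ Real.exp W with h𝒞
  refine ⟨𝒞, ?_, ?_, ?_⟩
  · have h1 : 𝒞.card ≤ 𝒟.card + 𝒟.card :=
      (Finset.card_filter_le _ _).trans ((Finset.card_union_le _ _).trans
        (Nat.add_le_add_left Finset.card_image_le _))
    have h2 : 𝒟.card ≤ (N + 1) ^ S.card :=
      Finset.card_image_le.trans (hdiv.trans (Nat.pow_le_pow_right (by omega)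
        (Finset.card_filter_le _ _)))
    have h3 : (𝒞.card : ℝ) ≤ 2 * ((N : ℝ) + 1) ^ S.card := by
      have : 𝒞.card ≤ 2 * (N + 1) ^ S.card := by omega
      exact_mod_cast this
    refine h3.trans ?_
    have h4 : (N : ℝ) + 1 ≤ 2 * W + 3 := by
      have := Nat.ceil_lt_add_one (show 0 ≤ 2 * W by linarith)
      rw [hN]; push_cast; linarith
    gcongr
  · intro a ha
    obtain ⟨h1, h2⟩ := Finset.mem_filter.1 ha
    have h3 : ∃ d ∈ (Pr ^ N).divisors, a = d ∨ a = -(d : ℤ) := by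
      rw [Finset.mem_union, h𝒟, Finset.mem_image, Finset.mem_image] at h1
      rcases h1 with ⟨d, hd, rfl⟩ | ⟨b, hb, rfl⟩
      · exact ⟨d, hd, Or.inl rfl⟩
      · obtain ⟨d, hd, rfl⟩ := Finset.mem_image.1 hb
        exact ⟨d, hd, Or.inr rfl⟩
    obtain ⟨d, hd, had⟩ := h3
    have hd0 : d ≠ 0 := (Nat.pos_of_mem_divisors hd).ne'
    have hdd := Nat.dvd_of_mem_divisors hd
    refine ⟨?_, h2, fun q hq hqa => ?_⟩
    · rcases had with h | h <;> rw [h]
      · exact_mod_cast hd0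
      · simpa using hd0
    · have h4 : q ∣ d := by
        rcases had with h | h <;> rw [h] at hqa
        · exact_mod_cast hqa
        · rw [dvd_neg] at hqa; exact_mod_cast hqa
      have h5 := hq.dvd_of_dvd_pow (h4.trans hdd)
      by_contra hcon
      have h6 := hfac q hq
      have h7 : q ∉ P := fun h => hcon (Finset.mem_filter.1 h).1
      rw [if_neg h7] at h6
      have h8 := (hq.dvd_iff_one_le_factorization hPr0).1 h5
      omega
  · intro a ha haW haS
    rw [h𝒞, Finset.mem_filter]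
    refine ⟨?_, haW⟩
    have hdvd : a.natAbs ∣ Pr ^ N := by
      rw [← Nat.factorization_prime_le_iff_dvd (Int.natAbs_ne_zero.2 ha) (pow_ne_zero _ hPr0)]
      intro p hp
      rw [Nat.factorization_pow, Finsupp.smul_apply, smul_eq_mul, hfac p hp]
      by_cases hpa : p ∣ a.natAbs
      · have hpS : p ∈ P := by
          rw [hP, Finset.mem_filter]
          exact ⟨haS p hp (Int.natCast_dvd.2 hpa), hp⟩
        rw [if_pos hpS, mul_one]
        have h1 : p ^ (a.natAbs.factorization p) ≤ a.natAbs :=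
          Nat.le_of_dvd (Int.natAbs_pos.2 ha) (Nat.ordProj_dvd _ _)
        have h2 : 2 ^ (a.natAbs.factorization p) ≤ a.natAbs :=
          (Nat.pow_le_pow_left hp.two_le _).trans h1
        have h3 : (2 : ℝ) ^ (a.natAbs.factorization p) ≤ (2 : ℝ) ^ N := by
          have h4 : ((2 ^ (a.natAbs.factorization p) : ℕ) : ℝ) ≤ ((a.natAbs : ℕ) : ℝ) := by
            exact_mod_cast h2
          have h5 : ((a.natAbs : ℕ) : ℝ) = ((|a| : ℤ) : ℝ) := Nat.cast_natAbs a
          have h6 : Real.exp W ≤ (2 : ℝ) ^ N := by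
            have h7 : Real.exp W ≤ Real.exp (Real.log 2 * N) := by
              apply Real.exp_le_exp.2
              have h8 : (0.6931471803 : ℝ) < Real.log 2 := Real.log_two_gt_d9
              have h9 : 2 * W ≤ N := by
                have := Nat.le_ceil (2 * W)
                rw [hN]; push_cast; linarith
              nlinarith
            rwa [mul_comm, Real.exp_nat_mul, Real.exp_log (by norm_num)] at h7
          push_cast at h4
          rw [h5] at h4
          exact h4.trans (haW.trans h6)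
        exact (pow_le_pow_iff_right₀ (by norm_num : (1 : ℝ) < 2)).1 h3
      · rw [Nat.factorization_eq_zero_of_not_dvd hpa]
        exact Nat.zero_le _
    have hmem : ((a.natAbs : ℕ) : ℤ) ∈ 𝒟 := by
      rw [h𝒟, Finset.mem_image]
      exact ⟨a.natAbs, Nat.mem_divisors.2 ⟨hdvd, pow_ne_zero _ hPr0⟩, rfl⟩
    rcases Int.natAbs_eq a with h | h
    · rw [h]; exact Finset.mem_union_left _ hmem
    · rw [h]; exact Finset.mem_union_right _ (Finset.mem_image_of_mem _ hmem)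

end Pool.Agent.Y902.FD
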