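import Mathlib
import Pool.Agent.Y902.FD.Coef

/-!
# The theorems: `S`-unit coefficients, and coefficients with a small radical
-/

set_option autoImplicit false

namespace Pool.Agent.Y902.FD

open Finset MvPolynomial Pool.Agent.Y902.FB

/-- a solution of `a x ^ l + b y ^ m = c z ^ n` in nonzero integers with `gcd (a x, b y, c z) = 1` and
bases at most `Y` in absolute value -/
def Sl (Y : ℕ) (a b c x y z : ℤ) (l m n : ℕ) : Prop :=
  a ≠ 0 ∧ b ≠ 0 ∧ c ≠ 0 ∧ x ≠ 0 ∧ y ≠ 0 ∧ z ≠ 0 ∧ |x| ≤ Y ∧ |y| ≤ Y ∧ |z| ≤ Y ∧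
    Int.gcd ((Int.gcd (a * x) (b * y) : ℕ) : ℤ) (c * z) = 1 ∧
    a * x ^ l + b * y ^ m = c * z ^ n

/-- at least two of the exponents are at least `R` -/
def TwoL (R l m n : ℕ) : Prop := (R ≤ l ∧ R ≤ m) ∨ (R ≤ l ∧ R ≤ n) ∨ (R ≤ m ∧ R ≤ n)

/-- the terms are at most `V` in absolute value -/
def Tm (V : ℝ) (v : ℤ × ℤ × ℤ) : Prop :=
  ((|v.1| : ℤ) : ℝ) ≤ V ∧ ((|v.2.1| : ℤ) : ℝ) ≤ V ∧ ((|v.2.2| : ℤ) : ℝ) ≤ V

/-- terms of solutions with `S`-unit coefficients and two large exponents -/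
def UnitTwo (S : Finset ℕ) (Y R : ℕ) (V : ℝ) : Set (ℤ × ℤ × ℤ) :=
  {v | Tm V v ∧ ∃ (a b c x y z : ℤ) (l m n : ℕ), Sl Y a b c x y z l m n ∧ 1 ≤ l ∧ 1 ≤ m ∧ 1 ≤ n ∧
    TwoL R l m n ∧ (∀ q : ℕ, q.Prime → (q : ℤ) ∣ a * b * c → q ∈ S) ∧
    v = (a * x ^ l, b * y ^ m, c * z ^ n)}

theorem coef_le {a x : ℤ} {l : ℕ} {V : ℝ} (hx : x ≠ 0) (h : ((|a * x ^ l| : ℤ) : ℝ) ≤ V) :
    ((|a| : ℤ) : ℝ) ≤ V := by
  refine le_trans ?_ h
  have h1 : |a| ≤ |a * x ^ l| := by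
    rw [abs_mul]
    exact le_mul_of_one_le_right (abs_nonneg _) (Int.one_le_abs (pow_ne_zero _ hx))
  exact_mod_cast h1

theorem unit_two (S : Finset ℕ) (ε : ℝ) (hε : 0 < ε) : ∃ (R : ℕ) (δ : ℝ) (Y₀ : ℕ), 0 < δ ∧
    ∀ Y : ℕ, Y₀ ≤ Y → (UnitTwo S Y R (Real.exp ((Y : ℝ) ^ δ))).Finite ∧
      ((UnitTwo S Y R (Real.exp ((Y : ℝ) ^ δ))).ncard : ℝ) ≤ (Y : ℝ) ^ ε := by
  classical
  obtain ⟨R, δ, Y₀, hδ, hmain⟩ := main_two ε hε
  set s : ℝ := (S.card : ℝ) + 1 with hs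
  have hs1 : 1 ≤ s := by rw [hs]; have : (0 : ℝ) ≤ S.card := by positivity
                         linarith
  set δ' : ℝ := δ / (2 * s) with hδ'
  have hδ'0 : 0 < δ' := by rw [hδ']; positivity
  have hδ'δ : δ' ≤ δ := by
    rw [hδ', div_le_iff₀ (by positivity)]; nlinarith
  obtain ⟨Y₁, hY₁⟩ := Pool.Agent.W232.FC.ev_const (2 * (5 : ℝ) ^ S.card) (δ / 2) (by positivity)
  obtain ⟨Y₂, hY₂⟩ := Pool.Agent.W232.FC.ev_const ((S.sup id : ℕ) : ℝ) δ hδ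
  refine ⟨R, δ', Y₀ + Y₁ + Y₂ + 1, hδ'0, fun Y hY => ?_⟩
  have hY1 : (1 : ℝ) ≤ Y := by exact_mod_cast (show 1 ≤ Y by omega)
  have hY0 : (0 : ℝ) < Y := by linarith
  have g₁ := hY₁ Y (by omega)
  have g₂ := hY₂ Y (by omega)
  set W : ℝ := (Y : ℝ) ^ δ' with hW
  have hW1 : 1 ≤ W := Real.one_le_rpow hY1 hδ'0.le
  have hWδ : W ≤ (Y : ℝ) ^ δ := Real.rpow_le_rpow_of_exponent_le hY1 hδ'δ
  obtain ⟨𝒞, hc1, hc2, hc3⟩ := sunits S W (by linarith)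
  have q1 : (𝒞.card : ℝ) ≤ (Y : ℝ) ^ δ := by
    refine hc1.trans ?_
    calc 2 * (2 * W + 3) ^ S.card ≤ 2 * (5 * W) ^ S.card := by gcongr; linarith
      _ = (2 * 5 ^ S.card) * W ^ S.card := by rw [mul_pow]; ring
      _ ≤ (Y : ℝ) ^ (δ / 2) * (Y : ℝ) ^ (δ / 2) := by
          refine mul_le_mul g₁ ?_ (by positivity) (by positivity)
          rw [hW, ← Real.rpow_natCast ((Y : ℝ) ^ δ'), ← Real.rpow_mul hY0.le]
          apply Real.rpow_le_rpow_of_exponent_le hY1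
          rw [hδ', div_mul_eq_mul_div, div_le_div_iff₀ (by positivity) (by norm_num)]
          have : (S.card : ℝ) ≤ s := by rw [hs]; linarith
          nlinarith
      _ = (Y : ℝ) ^ δ := by rw [← Real.rpow_add hY0]; congr 1; ring
  have q2 : ∀ a ∈ 𝒞, a ≠ 0 ∧ ((|a| : ℤ) : ℝ) ≤ Real.exp ((Y : ℝ) ^ δ) ∧
      ∀ q : ℕ, q.Prime → (q : ℤ) ∣ a → (q : ℝ) ≤ (Y : ℝ) ^ δ := by
    intro a ha
    obtain ⟨h1, h2, h3⟩ := hc2 a ha
    refine ⟨h1, h2.trans (Real.exp_le_exp.2 hWδ), fun q hq hqa => ?_⟩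
    have h4 : q ≤ S.sup id := Finset.le_sup (f := id) (h3 q hq hqa)
    have h5 : (q : ℝ) ≤ ((S.sup id : ℕ) : ℝ) := by exact_mod_cast h4
    exact h5.trans g₂
  obtain ⟨hfin, hcard⟩ := hmain Y (by omega) 𝒞 q1 q2
  have hsub : UnitTwo S Y R (Real.exp W) ⊆ Two 𝒞 Y R (Real.exp ((Y : ℝ) ^ δ)) := by
    rintro v ⟨hT, a, b, c, x, y, z, l, m, n, ⟨ha, hb, hc, hx, hy, hz, hxY, hyY, hzY, hg, heq⟩, hl,
      hm, hn, hR, hS, rfl⟩
    obtain ⟨v1, v2, v3⟩ := hT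
    simp only at v1 v2 v3
    have hexp : Real.exp W ≤ Real.exp ((Y : ℝ) ^ δ) := Real.exp_le_exp.2 hWδ
    obtain ⟨k1, k2, k3⟩ := co3 hl hm hn heq hg
    exact ⟨a, b, c, x, y, z, l, m, n, hc3 a ha (coef_le hx v1) (fun q hq h => hS q hq
      ((h.mul_right b).mul_right c)), hc3 b hb (coef_le hy v2) (fun q hq h => hS q hq
      ((h.mul_left a).mul_right c)), hc3 c hc (coef_le hz v3) (fun q hq h => hS q hq
      (h.mul_left (a * b))), hx, hy, hz, hxY, hyY, hzY, hl, hm, hn, hR, k1, k2, k3, heq,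
      v1.trans hexp, v2.trans hexp, v3.trans hexp, rfl⟩
  refine ⟨hfin.subset hsub, le_trans ?_ hcard⟩
  exact_mod_cast Set.ncard_le_ncard hsub hfin

/-- the radical -/
def rd (a : ℤ) : ℕ := ∏ p ∈ a.natAbs.primeFactors, p

/-- terms of solutions with coefficients at most `B` with radical at most `ρ`, exponents at least
`2`, one large exponent -/
def RadOne (Y R : ℕ) (B ρ V : ℝ) : Set (ℤ × ℤ × ℤ) :=
  {v | Tm V v ∧ ∃ (a b c x y z : ℤ) (l m n : ℕ), Sl Y a b c x y z l m n ∧ 2 ≤ l ∧ 2 ≤ m ∧ 2 ≤ n ∧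
    (R ≤ l ∨ R ≤ m ∨ R ≤ n) ∧ ((|a| : ℤ) : ℝ) ≤ B ∧ ((|b| : ℤ) : ℝ) ≤ B ∧ ((|c| : ℤ) : ℝ) ≤ B ∧
    (rd a : ℝ) ≤ ρ ∧ (rd b : ℝ) ≤ ρ ∧ (rd c : ℝ) ≤ ρ ∧
    v = (a * x ^ l, b * y ^ m, c * z ^ n)}

theorem prime_le_rd {a : ℤ} (ha : a ≠ 0) {q : ℕ} (hq : q.Prime) (h : (q : ℤ) ∣ a) : q ≤ rd a := by
  unfold rd
  have h1 : q ∈ a.natAbs.primeFactors := by
    rw [Nat.mem_primeFactors]
    exact ⟨hq, Int.natCast_dvd.1 h, Int.natAbs_ne_zero.2 ha⟩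
  refine Nat.le_of_dvd (Finset.prod_pos fun p hp => (Nat.prime_of_mem_primeFactors hp).pos)
    (Finset.dvd_prod_of_mem (fun p => p) h1)

theorem rad_one (K : ℕ) (hK : 1 ≤ K) (ε : ℝ) (hε : 0 < ε) : ∃ (R : ℕ) (δ : ℝ) (Y₀ : ℕ), 0 < δ ∧
    ∀ Y : ℕ, Y₀ ≤ Y →
      (RadOne Y R ((Y : ℝ) ^ K) ((Y : ℝ) ^ δ) (Real.exp ((Y : ℝ) ^ δ))).Finite ∧
      ((RadOne Y R ((Y : ℝ) ^ K) ((Y : ℝ) ^ δ) (Real.exp ((Y : ℝ) ^ δ))).ncard : ℝ) ≤
        (Y : ℝ) ^ ε := by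
  classical
  obtain ⟨Rs, δ, Y₀, hδ, hmain⟩ := main_two (ε / 2) (by positivity)
  obtain ⟨δ₂, hδ₂, X₀, hsparse⟩ := Pool.Agent.W232.FC.sparseC (ε / (4 * ((K : ℝ) + Rs + 1)))
    (by positivity)
  have hK0 : (0 : ℝ) < K := by exact_mod_cast hK
  obtain ⟨R, hR⟩ : ∃ R, R = Rs + (⌈1 / δ₂⌉₊ + 1) := ⟨_, rfl⟩
  set δ' : ℝ := min (δ / 8) δ₂ with hδ'
  have hδ'0 : 0 < δ' := lt_min (by positivity) hδ₂
  have hδ'1 : δ' ≤ δ / 8 := min_le_left _ _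
  have hδ'2 : δ' ≤ δ₂ := min_le_right _ _
  obtain ⟨X₁, hNA⟩ := Pool.Agent.W505.FC.NA.main (δ' / K) (by positivity)
  obtain ⟨Y₁, hY₁⟩ := Pool.Agent.W232.FC.ev_const (4 : ℝ) (δ / 2) (by positivity)
  obtain ⟨Y₂, hY₂⟩ := Pool.Agent.W232.FC.ev_const (2 : ℝ) (ε / 4) (by positivity)
  obtain ⟨Y₃, hY₃⟩ := Pool.Agent.W232.FC.ev_log (δ / 2) (by positivity)
  obtain ⟨Y₄, hY₄⟩ := Pool.Agent.W232.FC.ev_const (K : ℝ) (δ / 2) (by positivity)
  refine ⟨R, δ', Y₀ + Y₁ + Y₂ + Y₃ + Y₄ + X₀ + X₁ + 2, hδ'0, fun Y hY => ?_⟩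
  have hYpos : 1 ≤ Y := by omega
  have hY1 : (1 : ℝ) ≤ Y := by exact_mod_cast hYpos
  have hY0 : (0 : ℝ) < Y := by linarith
  have g₁ := hY₁ Y (by omega)
  have g₂ := hY₂ Y (by omega)
  have g₃ := hY₃ Y (by omega)
  have g₄ := hY₄ Y (by omega)
  have hδ'δ : (Y : ℝ) ^ δ' ≤ (Y : ℝ) ^ δ :=
    Real.rpow_le_rpow_of_exponent_le hY1 (by linarith)
  have hexp : Real.exp ((Y : ℝ) ^ δ') ≤ Real.exp ((Y : ℝ) ^ δ) := Real.exp_le_exp.2 hδ'δ
  -- `Y ^ K ≤ exp (Y ^ δ)`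
  have hYK : (Y : ℝ) ^ K ≤ Real.exp ((Y : ℝ) ^ δ) := by
    have h1 : Real.log Y ≤ (Y : ℝ) ^ (δ / 2) := by
      have h2 : (Y : ℝ) ≤ 2 ^ (Nat.log 2 Y + 1) := by
        exact_mod_cast (Nat.lt_pow_succ_log_self (by norm_num) Y).le
      have h3 : Real.log Y ≤ ((Nat.log 2 Y + 1 : ℕ) : ℝ) * Real.log 2 := by
        rw [← Real.log_pow]
        exact Real.log_le_log hY0 h2
      have h4 : Real.log 2 ≤ 1 := by linarith [Real.log_two_lt_d9]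
      have h5 : (0 : ℝ) ≤ ((Nat.log 2 Y + 1 : ℕ) : ℝ) := by positivity
      nlinarith
    have h2 : (K : ℝ) * Real.log Y ≤ (Y : ℝ) ^ δ := by
      calc (K : ℝ) * Real.log Y ≤ (Y : ℝ) ^ (δ / 2) * (Y : ℝ) ^ (δ / 2) :=
            mul_le_mul g₄ h1 (Real.log_nonneg hY1) (by positivity)
        _ = (Y : ℝ) ^ δ := by rw [← Real.rpow_add hY0]; congr 1; ring
    calc (Y : ℝ) ^ K = Real.exp ((K : ℝ) * Real.log Y) := by
          rw [Real.exp_nat_mul, Real.exp_log hY0]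
      _ ≤ _ := Real.exp_le_exp.2 h2
  -- the coefficients
  set s : Finset ℕ := (Finset.Icc 1 (Y ^ K)).filter fun n =>
    ((Pool.Agent.W232.FC.rad n : ℕ) : ℝ) ≤ (Y : ℝ) ^ δ' with hs
  have hscard : (s.card : ℝ) ≤ (Y : ℝ) ^ (4 * δ') := by
    have h1 := hNA (Y ^ K) (le_trans (show X₁ ≤ Y by omega) (Nat.le_self_pow (by omega) Y)) s ?_
    · refine h1.trans (le_of_eq ?_)
      push_cast
      rw [← Real.rpow_natCast (Y : ℝ) K, ← Real.rpow_mul hY0.le]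
      congr 1
      field_simp
    · intro n hn
      obtain ⟨h2, h3⟩ := Finset.mem_filter.1 hn
      obtain ⟨h4, h5⟩ := Finset.mem_Icc.1 h2
      refine ⟨h4, h5, h3.trans (le_of_eq ?_)⟩
      push_cast
      rw [← Real.rpow_natCast (Y : ℝ) K, ← Real.rpow_mul hY0.le]
      congr 1
      field_simp
  set 𝒞 : Finset ℤ := s.image (fun n : ℕ => (n : ℤ)) ∪ s.image (fun n : ℕ => -(n : ℤ)) with h𝒞
  have h𝒞card : (𝒞.card : ℝ) ≤ (Y : ℝ) ^ δ := by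
    have h1 : 𝒞.card ≤ s.card + s.card :=
      (Finset.card_union_le _ _).trans (Nat.add_le_add Finset.card_image_le Finset.card_image_le)
    have h2 : (𝒞.card : ℝ) ≤ s.card + s.card := by exact_mod_cast h1
    calc (𝒞.card : ℝ) ≤ 4 * (Y : ℝ) ^ (4 * δ') := by
          have : 0 ≤ (Y : ℝ) ^ (4 * δ') := by positivity
          linarith
      _ ≤ (Y : ℝ) ^ (δ / 2) * (Y : ℝ) ^ (δ / 2) := by
          refine mul_le_mul g₁ ?_ (by positivity) (by positivity)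
          exact Real.rpow_le_rpow_of_exponent_le hY1 (by linarith)
      _ = (Y : ℝ) ^ δ := by rw [← Real.rpow_add hY0]; congr 1; ring
  have h𝒞mem : ∀ a : ℤ, a ≠ 0 → ((|a| : ℤ) : ℝ) ≤ (Y : ℝ) ^ K → (rd a : ℝ) ≤ (Y : ℝ) ^ δ' → a ∈ 𝒞 := by
    intro a ha h1 h2
    have h3 : a.natAbs ∈ s := by
      rw [hs, Finset.mem_filter, Finset.mem_Icc]
      refine ⟨⟨Int.natAbs_pos.2 ha, ?_⟩, h2⟩
      rw [← Nat.cast_natAbs a] at h1
      exact_mod_cast h1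
    rcases Int.natAbs_eq a with h | h
    · rw [h]; exact Finset.mem_union_left _ (Finset.mem_image_of_mem (fun n : ℕ => (n : ℤ)) h3)
    · rw [h]; exact Finset.mem_union_right _ (Finset.mem_image_of_mem (fun n : ℕ => -(n : ℤ)) h3)
  have h𝒞prop : ∀ a ∈ 𝒞, a ≠ 0 ∧ ((|a| : ℤ) : ℝ) ≤ Real.exp ((Y : ℝ) ^ δ) ∧
      ∀ q : ℕ, q.Prime → (q : ℤ) ∣ a → (q : ℝ) ≤ (Y : ℝ) ^ δ := by
    intro a ha
    have h1 : a.natAbs ∈ s := by
      rw [h𝒞, Finset.mem_union, Finset.mem_image, Finset.mem_image] at ha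
      rcases ha with ⟨n, hn, rfl⟩ | ⟨n, hn, rfl⟩
      · simpa using hn
      · simpa using hn
    obtain ⟨h2, h3⟩ := Finset.mem_filter.1 h1
    obtain ⟨h4, h5⟩ := Finset.mem_Icc.1 h2
    have ha0 : a ≠ 0 := by
      rintro rfl
      simp at h4
    refine ⟨ha0, ?_, fun q hq hqa => ?_⟩
    · refine le_trans ?_ hYK
      rw [← Nat.cast_natAbs a]
      exact_mod_cast h5
    · have h6 := prime_le_rd ha0 hq hqa
      have h7 : (q : ℝ) ≤ (rd a : ℝ) := by exact_mod_cast h6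
      exact h7.trans (le_trans h3 hδ'δ)
  obtain ⟨hfin, hcard⟩ := hmain Y (by omega) 𝒞 h𝒞card h𝒞prop
  -- small values
  set X' : ℕ := 2 * Y ^ (K + Rs) with hX'
  have hX'1 : 1 ≤ X' := by rw [hX']; have := Nat.one_le_pow (K + Rs) Y hYpos; omega
  have hX'R : (1 : ℝ) ≤ X' := by exact_mod_cast hX'1
  have hYX' : Y ≤ X' := by
    rw [hX']
    have := Nat.le_self_pow (show K + Rs ≠ 0 by omega) Y
    omega
  have hsub : RadOne Y R ((Y : ℝ) ^ K) ((Y : ℝ) ^ δ') (Real.exp ((Y : ℝ) ^ δ')) ⊆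
      Two 𝒞 Y Rs (Real.exp ((Y : ℝ) ^ δ)) ∪ Pool.Agent.W232.FC.SolC X' ((X' : ℝ) ^ δ₂) := by
    rintro v ⟨⟨v1, v2, v3⟩, a, b, c, x, y, z, l, m, n,
      ⟨ha, hb, hc, hx, hy, hz, hxY, hyY, hzY, hg, heq⟩, hl, hm, hn, hRlmn, aB, bB, cB, aρ, bρ, cρ, rfl⟩
    simp only at v1 v2 v3
    obtain ⟨k1, k2, k3⟩ := co3 (by omega) (by omega) (by omega) heq hg
    by_cases htwo : (Rs ≤ l ∧ Rs ≤ m) ∨ (Rs ≤ l ∧ Rs ≤ n) ∨ (Rs ≤ m ∧ Rs ≤ n)
    · left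
      exact ⟨a, b, c, x, y, z, l, m, n, h𝒞mem a ha aB aρ, h𝒞mem b hb bB bρ, h𝒞mem c hc cB cρ, hx, hy,
        hz, hxY, hyY, hzY, by omega, by omega, by omega, htwo, k1, k2, k3, heq, v1.trans hexp,
        v2.trans hexp, v3.trans hexp, rfl⟩
    · right
      -- small terms
      have hsmall : ∀ (a x : ℤ) (l : ℕ), ((|a| : ℤ) : ℝ) ≤ (Y : ℝ) ^ K → |x| ≤ Y → l < Rs →
          (a * x ^ l).natAbs ≤ Y ^ (K + Rs) := by
        intro a x l h1 h2 h3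
        rw [← Nat.cast_natAbs a] at h1
        have h1' : a.natAbs ≤ Y ^ K := by exact_mod_cast h1
        have h2' : x.natAbs ≤ Y := by rw [Int.abs_eq_natAbs] at h2; exact_mod_cast h2
        rw [Int.natAbs_mul, Int.natAbs_pow, pow_add]
        refine Nat.mul_le_mul h1' ((Nat.pow_le_pow_left h2' l).trans (Nat.pow_le_pow_right hYpos h3.le))
      have hall : (a * x ^ l).natAbs ≤ X' ∧ (b * y ^ m).natAbs ≤ X' ∧ (c * z ^ n).natAbs ≤ X' := by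
        rcases Nat.lt_or_ge l Rs with h1 | h1
        · rcases Nat.lt_or_ge m Rs with h2 | h2
          · have a1 := hsmall a x l aB hxY h1
            have a2 := hsmall b y m bB hyY h2
            have a3 : (c * z ^ n).natAbs ≤ (a * x ^ l).natAbs + (b * y ^ m).natAbs := by
              rw [← heq]; exact Int.natAbs_add_le _ _
            refine ⟨by omega, by omega, by omega⟩
          · have h3 : n < Rs := by
              by_contra h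
              exact htwo (Or.inr (Or.inr ⟨h2, by omega⟩))
            have a1 := hsmall a x l aB hxY h1
            have a2 := hsmall c z n cB hzY h3
            have a3 : (b * y ^ m).natAbs ≤ (c * z ^ n).natAbs + (a * x ^ l).natAbs := by
              have e1 : b * y ^ m = c * z ^ n - a * x ^ l := by linarith
              rw [e1]; exact Int.natAbs_sub_le _ _
            refine ⟨by omega, by omega, by omega⟩
        · have h2 : m < Rs := by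
            by_contra h
            exact htwo (Or.inl ⟨h1, by omega⟩)
          have h3 : n < Rs := by
            by_contra h
            exact htwo (Or.inr (Or.inl ⟨h1, by omega⟩))
          have a1 := hsmall b y m bB hyY h2
          have a2 := hsmall c z n cB hzY h3
          have a3 : (a * x ^ l).natAbs ≤ (c * z ^ n).natAbs + (b * y ^ m).natAbs := by
            have e1 : a * x ^ l = c * z ^ n - b * y ^ m := by linarith
            rw [e1]; exact Int.natAbs_sub_le _ _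
          refine ⟨by omega, by omega, by omega⟩
      have hradX : ∀ a : ℤ, (rd a : ℝ) ≤ (Y : ℝ) ^ δ' →
          (Pool.Agent.W232.FC.rad a.natAbs : ℝ) ≤ (X' : ℝ) ^ δ₂ := by
        intro a h1
        refine le_trans h1 ?_
        calc (Y : ℝ) ^ δ' ≤ (Y : ℝ) ^ δ₂ := Real.rpow_le_rpow_of_exponent_le hY1 hδ'2
          _ ≤ (X' : ℝ) ^ δ₂ := Real.rpow_le_rpow hY0.le (by exact_mod_cast hYX') hδ₂.le
      have hbase : ∀ (a x : ℤ) (r : ℕ), a ≠ 0 → R ≤ r → (a * x ^ r).natAbs ≤ X' →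
          (x.natAbs : ℝ) ≤ (X' : ℝ) ^ δ₂ := by
        intro a x r ha hr h1
        have hr0 : (0 : ℝ) < r := by
          have : 1 ≤ r := by omega
          exact_mod_cast this
        have h2 : x.natAbs ^ r ≤ X' := by
          refine le_trans ?_ h1
          rw [Int.natAbs_mul, Int.natAbs_pow]
          exact Nat.le_mul_of_pos_left _ (Int.natAbs_pos.2 ha)
        have h3 : (x.natAbs : ℝ) ^ (r : ℝ) ≤ X' := by
          rw [Real.rpow_natCast]; exact_mod_cast h2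
        have h4 : (x.natAbs : ℝ) = ((x.natAbs : ℝ) ^ (r : ℝ)) ^ (1 / (r : ℝ)) := by
          rw [← Real.rpow_mul (by positivity), mul_one_div_cancel hr0.ne', Real.rpow_one]
        rw [h4]
        calc ((x.natAbs : ℝ) ^ (r : ℝ)) ^ (1 / (r : ℝ)) ≤ (X' : ℝ) ^ (1 / (r : ℝ)) :=
              Real.rpow_le_rpow (by positivity) h3 (by positivity)
          _ ≤ (X' : ℝ) ^ δ₂ := by
              apply Real.rpow_le_rpow_of_exponent_le hX'R
              rw [div_le_iff₀ hr0]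
              have h5 : 1 / δ₂ ≤ (r : ℝ) := by
                have h6 := Nat.le_ceil (1 / δ₂)
                have h7 : ((⌈1 / δ₂⌉₊ : ℕ) : ℝ) ≤ r := by
                  have : ⌈1 / δ₂⌉₊ ≤ r := by omega
                  exact_mod_cast this
                linarith
              rw [div_le_iff₀ hδ₂] at h5
              linarith
      refine ⟨heq, hall.1, hall.2.1, hall.2.2, a, b, c, x, y, z, l, m, n, ha, hb, hc, hx, hy, hz, hl,
        hm, hn, rfl, hradX a aρ, hradX b bρ, hradX c cρ, ?_⟩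
      rcases hRlmn with h | h | h
      · exact Or.inl (hbase a x l ha h hall.1)
      · exact Or.inr (Or.inl (hbase b y m hb h hall.2.1))
      · exact Or.inr (Or.inr (hbase c z n hc h hall.2.2))
  have hfin2 := Pool.Agent.W232.FC.SolC_finite X' ((X' : ℝ) ^ δ₂)
  have hfinU := hfin.union hfin2
  refine ⟨hfinU.subset hsub, ?_⟩
  have hc2 := hsparse X' (by omega)
  have hc2' : ((Pool.Agent.W232.FC.SolC X' ((X' : ℝ) ^ δ₂)).ncard : ℝ) ≤ (Y : ℝ) ^ (ε / 2) := by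
    refine hc2.trans ?_
    have hden : (0 : ℝ) < 4 * ((K : ℝ) + Rs + 1) := by positivity
    have h1 : (X' : ℝ) ≤ (Y : ℝ) ^ ((K : ℝ) + Rs + 1) := by
      have h2 : 2 * Y ^ (K + Rs) ≤ Y ^ (K + Rs + 1) := by
        rw [pow_succ, mul_comm]; exact Nat.mul_le_mul_left _ (by omega)
      have h3 : (X' : ℝ) ≤ ((Y ^ (K + Rs + 1) : ℕ) : ℝ) := by exact_mod_cast h2
      refine h3.trans (le_of_eq ?_)
      rw [show ((K : ℝ) + Rs + 1) = ((K + Rs + 1 : ℕ) : ℝ) by push_cast; ring, Real.rpow_natCast]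
      push_cast
      rfl
    calc (X' : ℝ) ^ (ε / (4 * ((K : ℝ) + Rs + 1))) ≤
          ((Y : ℝ) ^ ((K : ℝ) + Rs + 1)) ^ (ε / (4 * ((K : ℝ) + Rs + 1))) :=
          Real.rpow_le_rpow (by positivity) h1 (by positivity)
      _ = (Y : ℝ) ^ (ε / 4) := by
          rw [← Real.rpow_mul hY0.le]; congr 1; field_simp
      _ ≤ (Y : ℝ) ^ (ε / 2) := Real.rpow_le_rpow_of_exponent_le hY1 (by linarith)
  have hle : (RadOne Y R ((Y : ℝ) ^ K) ((Y : ℝ) ^ δ') (Real.exp ((Y : ℝ) ^ δ'))).ncard ≤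
      (Two 𝒞 Y Rs (Real.exp ((Y : ℝ) ^ δ))).ncard +
        (Pool.Agent.W232.FC.SolC X' ((X' : ℝ) ^ δ₂)).ncard :=
    (Set.ncard_le_ncard hsub hfinU).trans (Set.ncard_union_le _ _)
  have hle' : ((RadOne Y R ((Y : ℝ) ^ K) ((Y : ℝ) ^ δ') (Real.exp ((Y : ℝ) ^ δ'))).ncard : ℝ) ≤
      ((Two 𝒞 Y Rs (Real.exp ((Y : ℝ) ^ δ))).ncard : ℝ) +
        ((Pool.Agent.W232.FC.SolC X' ((X' : ℝ) ^ δ₂)).ncard : ℝ) := by exact_mod_cast hle
  have hY2 : 2 * (Y : ℝ) ^ (ε / 2) ≤ (Y : ℝ) ^ ε := by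
    calc 2 * (Y : ℝ) ^ (ε / 2) ≤ (Y : ℝ) ^ (ε / 4) * (Y : ℝ) ^ (ε / 2) :=
          mul_le_mul_of_nonneg_right g₂ (by positivity)
      _ = (Y : ℝ) ^ (ε / 4 + ε / 2) := by rw [← Real.rpow_add hY0]
      _ ≤ (Y : ℝ) ^ ε := Real.rpow_le_rpow_of_exponent_le hY1 (by linarith)
  linarith

end Pool.Agent.Y902.FD
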