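import Mathlib
import Pool.Agent.Y902.FD.Fin

/-!
# `S`-unit coefficients: both cases together
-/

set_option autoImplicit false

namespace Pool.Agent.Y902.FD

open Finset Pool.Agent.Y902.FB

/-- the second case: exponents at least `2`, one of them at least `R`, coefficients at most `B` -/
def UnitOne (S : Finset ℕ) (Y R : ℕ) (B V : ℝ) : Set (ℤ × ℤ × ℤ) :=
  {v | Tm V v ∧ ∃ (a b c x y z : ℤ) (l m n : ℕ), Sl Y a b c x y z l m n ∧ 2 ≤ l ∧ 2 ≤ m ∧ 2 ≤ n ∧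
    (R ≤ l ∨ R ≤ m ∨ R ≤ n) ∧ ((|a| : ℤ) : ℝ) ≤ B ∧ ((|b| : ℤ) : ℝ) ≤ B ∧ ((|c| : ℤ) : ℝ) ≤ B ∧
    (∀ q : ℕ, q.Prime → (q : ℤ) ∣ a * b * c → q ∈ S) ∧ v = (a * x ^ l, b * y ^ m, c * z ^ n)}

theorem rd_le_S (S : Finset ℕ) {a : ℤ} (h : ∀ q : ℕ, q.Prime → (q : ℤ) ∣ a → q ∈ S) :
    rd a ≤ ∏ q ∈ S.filter Nat.Prime, q := by
  have hd : rd a ∣ ∏ q ∈ S.filter Nat.Prime, q := by
    unfold rd
    refine Finset.prod_dvd_prod_of_subset _ _ _ ?_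
    intro q hq
    rw [Finset.mem_filter]
    exact ⟨h q (Nat.prime_of_mem_primeFactors hq)
      (Int.natCast_dvd.2 (Nat.dvd_of_mem_primeFactors hq)), Nat.prime_of_mem_primeFactors hq⟩
  exact Nat.le_of_dvd (Finset.prod_pos fun p hp => (Finset.mem_filter.1 hp).2.pos) hd

theorem unit_all (S : Finset ℕ) (K : ℕ) (ε : ℝ) (hε : 0 < ε) :
    ∃ (R : ℕ) (δ : ℝ) (Y₀ : ℕ), 0 < δ ∧ ∀ Y : ℕ, Y₀ ≤ Y →
      (UnitTwo S Y R (Real.exp ((Y : ℝ) ^ δ)) ∪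
        UnitOne S Y R ((Y : ℝ) ^ K) (Real.exp ((Y : ℝ) ^ δ))).Finite ∧
      ((UnitTwo S Y R (Real.exp ((Y : ℝ) ^ δ)) ∪
        UnitOne S Y R ((Y : ℝ) ^ K) (Real.exp ((Y : ℝ) ^ δ))).ncard : ℝ) ≤ (Y : ℝ) ^ ε := by
  obtain ⟨R₁, δ₁, Y₁, hδ₁, h₁⟩ := unit_two S (ε / 2) (by positivity)
  obtain ⟨R₂, δ₂, Y₂, hδ₂, h₂⟩ := rad_one (K + 1) (by omega) (ε / 2) (by positivity)
  set δ : ℝ := min δ₁ δ₂ with hδ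
  have hδ0 : 0 < δ := lt_min hδ₁ hδ₂
  obtain ⟨Y₃, hY₃⟩ := Pool.Agent.W232.FC.ev_const (2 : ℝ) (ε / 2) (by positivity)
  obtain ⟨Y₄, hY₄⟩ := Pool.Agent.W232.FC.ev_const
    ((∏ q ∈ S.filter Nat.Prime, q : ℕ) : ℝ) δ₂ hδ₂
  refine ⟨R₁ + R₂, δ, Y₁ + Y₂ + Y₃ + Y₄ + 1, hδ0, fun Y hY => ?_⟩
  have hY1 : (1 : ℝ) ≤ Y := by exact_mod_cast (show 1 ≤ Y by omega)
  have hY0 : (0 : ℝ) < Y := by linarith
  have g₃ := hY₃ Y (by omega)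
  have g₄ := hY₄ Y (by omega)
  obtain ⟨f₁, c₁⟩ := h₁ Y (by omega)
  obtain ⟨f₂, c₂⟩ := h₂ Y (by omega)
  have e₁ : Real.exp ((Y : ℝ) ^ δ) ≤ Real.exp ((Y : ℝ) ^ δ₁) :=
    Real.exp_le_exp.2 (Real.rpow_le_rpow_of_exponent_le hY1 (min_le_left _ _))
  have e₂ : Real.exp ((Y : ℝ) ^ δ) ≤ Real.exp ((Y : ℝ) ^ δ₂) :=
    Real.exp_le_exp.2 (Real.rpow_le_rpow_of_exponent_le hY1 (min_le_right _ _))
  have hYK : (Y : ℝ) ^ K ≤ (Y : ℝ) ^ (K + 1) := pow_le_pow_right₀ hY1 (by omega)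
  have s₁ : UnitTwo S Y (R₁ + R₂) (Real.exp ((Y : ℝ) ^ δ)) ⊆
      UnitTwo S Y R₁ (Real.exp ((Y : ℝ) ^ δ₁)) := by
    rintro v ⟨⟨v1, v2, v3⟩, a, b, c, x, y, z, l, m, n, hs, hl, hm, hn, hR, hS, rfl⟩
    refine ⟨⟨v1.trans e₁, v2.trans e₁, v3.trans e₁⟩, a, b, c, x, y, z, l, m, n, hs, hl, hm, hn, ?_,
      hS, rfl⟩
    unfold TwoL at hR ⊢
    omega
  have s₂ : UnitOne S Y (R₁ + R₂) ((Y : ℝ) ^ K) (Real.exp ((Y : ℝ) ^ δ)) ⊆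
      RadOne Y R₂ ((Y : ℝ) ^ (K + 1)) ((Y : ℝ) ^ δ₂) (Real.exp ((Y : ℝ) ^ δ₂)) := by
    rintro v ⟨⟨v1, v2, v3⟩, a, b, c, x, y, z, l, m, n, hs, hl, hm, hn, hR, aB, bB, cB, hS, rfl⟩
    have hr : ∀ d : ℤ, (∀ q : ℕ, q.Prime → (q : ℤ) ∣ d → q ∈ S) → (rd d : ℝ) ≤ (Y : ℝ) ^ δ₂ := by
      intro d hd
      refine le_trans ?_ g₄
      exact_mod_cast rd_le_S S hd
    refine ⟨⟨v1.trans e₂, v2.trans e₂, v3.trans e₂⟩, a, b, c, x, y, z, l, m, n, hs, hl, hm, hn, ?_,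
      aB.trans hYK, bB.trans hYK, cB.trans hYK,
      hr a (fun q hq h => hS q hq ((h.mul_right b).mul_right c)),
      hr b (fun q hq h => hS q hq ((h.mul_left a).mul_right c)),
      hr c (fun q hq h => hS q hq (h.mul_left (a * b))), rfl⟩
    omega
  have hsub := Set.union_subset_union s₁ s₂
  have hfin := f₁.union f₂
  refine ⟨hfin.subset hsub, ?_⟩
  have h3 : (UnitTwo S Y (R₁ + R₂) (Real.exp ((Y : ℝ) ^ δ)) ∪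
      UnitOne S Y (R₁ + R₂) ((Y : ℝ) ^ K) (Real.exp ((Y : ℝ) ^ δ))).ncard ≤
      (UnitTwo S Y R₁ (Real.exp ((Y : ℝ) ^ δ₁))).ncard +
        (RadOne Y R₂ ((Y : ℝ) ^ (K + 1)) ((Y : ℝ) ^ δ₂) (Real.exp ((Y : ℝ) ^ δ₂))).ncard :=
    (Set.ncard_le_ncard hsub hfin).trans (Set.ncard_union_le _ _)
  have h4 : ((UnitTwo S Y (R₁ + R₂) (Real.exp ((Y : ℝ) ^ δ)) ∪
      UnitOne S Y (R₁ + R₂) ((Y : ℝ) ^ K) (Real.exp ((Y : ℝ) ^ δ))).ncard : ℝ) ≤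
      ((UnitTwo S Y R₁ (Real.exp ((Y : ℝ) ^ δ₁))).ncard : ℝ) +
        ((RadOne Y R₂ ((Y : ℝ) ^ (K + 1)) ((Y : ℝ) ^ δ₂)
          (Real.exp ((Y : ℝ) ^ δ₂))).ncard : ℝ) := by exact_mod_cast h3
  calc _ ≤ _ := h4
    _ ≤ (Y : ℝ) ^ (ε / 2) + (Y : ℝ) ^ (ε / 2) := add_le_add c₁ c₂
    _ = 2 * (Y : ℝ) ^ (ε / 2) := by ring
    _ ≤ (Y : ℝ) ^ (ε / 2) * (Y : ℝ) ^ (ε / 2) := mul_le_mul_of_nonneg_right g₃ (by positivity)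
    _ = (Y : ℝ) ^ ε := by rw [← Real.rpow_add hY0]; congr 1; ring

end Pool.Agent.Y902.FD
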